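import Pool.Agent.K4H87.BF.Pair
import Pool.Agent.Results.MP_e8ee11_co.LogOfSetSize

set_option autoImplicit false

/-!
# Discrepancy and pairings with few crossed pairs
-/

open Finset

namespace Pool.Agent.K4H87.BF

/-- opposite signs in the pairs -/
def pm {n : ℕ} (μ : Fin n → Fin n) (χ : Fin n → ℤ) (i : Fin n) : ℤ :=
  if i < μ i then χ i else if μ i < i then - χ (μ i) else 1

theorem pm_sign {n : ℕ} (μ : Fin n → Fin n) (χ : Fin n → ℤ) (h : ∀ i, χ i = 1 ∨ χ i = -1)
    (i : Fin n) : pm μ χ i = 1 ∨ pm μ χ i = -1 := by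
  unfold pm
  split_ifs
  · exact h i
  · rcases h (μ i) with h | h <;> simp [h]
  · simp

theorem pm_neg {n : ℕ} (μ : Fin n → Fin n) (χ : Fin n → ℤ) (hμ : ∀ i, μ (μ i) = i)
    (i : Fin n) (hi : μ i ≠ i) : pm μ χ (μ i) = - pm μ χ i := by
  unfold pm
  rw [hμ]
  rcases lt_trichotomy i (μ i) with h | h | h
  · simp [h, not_lt.2 h.le]
  · exact absurd h.symm hi
  · simp [h, not_lt.2 h.le]

theorem pm_sum {n : ℕ} (μ : Fin n → Fin n) (χ : Fin n → ℤ) (hμ : ∀ i, μ (μ i) = i)
    (hfix : (univ.filter (fun i => μ i = i)).card ≤ 1) (S : Finset (Fin n)) :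
    |∑ i ∈ S, pm μ χ i| ≤ 1 + |∑ i ∈ univ.filter (fun i => i < μ i ∧ i ∈ S ∧ μ i ∉ S), χ i| +
      |∑ i ∈ univ.filter (fun i => i < μ i ∧ i ∉ S ∧ μ i ∈ S), χ i| := by
  classical
  have hsplit : ∑ i ∈ S, pm μ χ i =
      ∑ i ∈ S.filter (fun i => μ i = i), pm μ χ i +
      (∑ i ∈ S.filter (fun i => μ i ≠ i ∧ μ i ∈ S), pm μ χ i +
      (∑ i ∈ univ.filter (fun i => i < μ i ∧ i ∈ S ∧ μ i ∉ S), χ i -
        ∑ i ∈ univ.filter (fun i => i < μ i ∧ i ∉ S ∧ μ i ∈ S), χ i)) := by
    rw [← Finset.sum_filter_add_sum_filter_not S (fun i => μ i = i)]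
    congr 1
    rw [← Finset.sum_filter_add_sum_filter_not (S.filter (fun i => ¬ μ i = i)) (fun i => μ i ∈ S)]
    rw [Finset.filter_filter, Finset.filter_filter]
    congr 1
    rw [← Finset.sum_filter_add_sum_filter_not
      (S.filter (fun i => ¬ μ i = i ∧ μ i ∉ S)) (fun i => i < μ i)]
    rw [Finset.filter_filter, Finset.filter_filter, sub_eq_add_neg, ← Finset.sum_neg_distrib]
    congr 1
    · refine Finset.sum_congr ?_ ?_
      · ext i
        simp only [Finset.mem_filter, Finset.mem_univ, true_and]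
        constructor
        · rintro ⟨h1, ⟨h2, h3⟩, h4⟩
          exact ⟨h4, h1, h3⟩
        · rintro ⟨h1, h2, h3⟩
          exact ⟨h2, ⟨h1.ne', h3⟩, h1⟩
      · intro i hi
        rw [Finset.mem_filter] at hi
        unfold pm
        rw [if_pos hi.2.1]
    · refine Finset.sum_nbij' μ μ ?_ ?_ ?_ ?_ ?_
      · intro i hi
        simp only [Finset.mem_filter, Finset.mem_univ, true_and] at hi ⊢
        rw [hμ]
        obtain ⟨h1, ⟨h2, h3⟩, h4⟩ := hi
        exact ⟨lt_of_le_of_ne (not_lt.1 h4) h2, h3, h1⟩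
      · intro i hi
        simp only [Finset.mem_filter, Finset.mem_univ, true_and] at hi ⊢
        rw [hμ]
        obtain ⟨h1, h2, h3⟩ := hi
        exact ⟨h3, ⟨h1.ne, h2⟩, not_lt.2 h1.le⟩
      · intro i _
        exact hμ i
      · intro i _
        exact hμ i
      · intro i hi
        simp only [Finset.mem_filter] at hi
        obtain ⟨h1, ⟨h2, h3⟩, h4⟩ := hi
        have h5 : μ i < i := lt_of_le_of_ne (not_lt.1 h4) h2
        unfold pm
        rw [if_neg h4, if_pos h5]
  have hz : ∑ i ∈ S.filter (fun i => μ i ≠ i ∧ μ i ∈ S), pm μ χ i = 0 := by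
    have h1 : ∑ i ∈ S.filter (fun i => μ i ≠ i ∧ μ i ∈ S), pm μ χ i =
        ∑ i ∈ S.filter (fun i => μ i ≠ i ∧ μ i ∈ S), - pm μ χ i := by
      refine Finset.sum_nbij' μ μ ?_ ?_ ?_ ?_ ?_
      · intro i hi
        simp only [Finset.mem_filter] at hi ⊢
        rw [hμ]
        exact ⟨hi.2.2, fun h => hi.2.1 h.symm, hi.1⟩
      · intro i hi
        simp only [Finset.mem_filter] at hi ⊢
        rw [hμ]
        exact ⟨hi.2.2, fun h => hi.2.1 h.symm, hi.1⟩
      · intro i _
        exact hμ i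
      · intro i _
        exact hμ i
      · intro i hi
        simp only [Finset.mem_filter] at hi
        rw [pm_neg μ χ hμ i hi.2.1, neg_neg]
    rw [Finset.sum_neg_distrib] at h1
    linarith
  have hf : |∑ i ∈ S.filter (fun i => μ i = i), pm μ χ i| ≤ 1 := by
    have hc : (S.filter (fun i => μ i = i)).card ≤ 1 :=
      (Finset.card_le_card (Finset.filter_subset_filter _ (Finset.subset_univ _))).trans hfix
    calc |∑ i ∈ S.filter (fun i => μ i = i), pm μ χ i|
        ≤ ∑ i ∈ S.filter (fun i => μ i = i), |pm μ χ i| := Finset.abs_sum_le_sum_abs _ _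
      _ = ∑ i ∈ S.filter (fun i => μ i = i), 1 := by
          refine Finset.sum_congr rfl fun i hi => ?_
          rw [Finset.mem_filter] at hi
          unfold pm
          rw [hi.2]
          simp
      _ ≤ 1 := by
          rw [Finset.sum_const, nsmul_eq_mul, mul_one]
          exact_mod_cast hc
  rw [hsplit, hz, zero_add]
  set a := ∑ i ∈ S.filter (fun i => μ i = i), pm μ χ i
  set b := ∑ i ∈ univ.filter (fun i => i < μ i ∧ i ∈ S ∧ μ i ∉ S), χ i
  set c := ∑ i ∈ univ.filter (fun i => i < μ i ∧ i ∉ S ∧ μ i ∈ S), χ i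
  calc |a + (b - c)| ≤ |a| + |b - c| := abs_add_le _ _
    _ ≤ 1 + (|b| + |c|) := by
        have := abs_sub b c
        linarith
    _ = 1 + |b| + |c| := by ring

theorem log_two_lower : (1 / 2 : ℝ) ≤ Real.log 2 := by
  have h := Real.one_sub_inv_le_log_of_pos (show (0 : ℝ) < 2 by norm_num)
  norm_num at h ⊢
  linarith

/-- A pairing with few crossed pairs gives small discrepancy. -/
theorem disc_of_pairing :
    ∃ C : ℝ, 0 < C ∧ ∀ (n m t e : ℕ) (S : Fin m → Finset (Fin n)), 1 ≤ t →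
      (∀ i : Fin n, (univ.filter (fun j : Fin m => i ∈ S j)).card ≤ t) →
      ∀ μ : Fin n → Fin n, (∀ i, μ (μ i) = i) → (univ.filter (fun i => μ i = i)).card ≤ 1 →
      (∀ j : Fin m, ((S j).filter (fun i => μ i ∉ S j)).card ≤ e) →
      ∃ χ : Fin n → ℤ, (∀ i, χ i = 1 ∨ χ i = -1) ∧
        ∀ j : Fin m, ((|∑ i ∈ S j, χ i| : ℤ) : ℝ) ≤
          C * Real.sqrt t * Real.log (2 + (e : ℝ) / t) := by
  classical
  obtain ⟨C, hC, hmain⟩ := Pool.Agent.Results.MP_e8ee11_co.LogOfSetSize.result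
  refine ⟨2 + 4 * C, by positivity, fun n m t e S ht hdeg μ hμ hfix he => ?_⟩
  have htr : (1 : ℝ) ≤ t := by exact_mod_cast ht
  have htp : (0 : ℝ) < t := by linarith
  set P : Fin m → Finset (Fin n) := fun j =>
    univ.filter (fun i => i < μ i ∧ i ∈ S j ∧ μ i ∉ S j) with hP
  set Q : Fin m → Finset (Fin n) := fun j =>
    univ.filter (fun i => i < μ i ∧ i ∉ S j ∧ μ i ∈ S j) with hQ
  have hPc : ∀ j, (P j).card ≤ e := by
    intro j
    refine le_trans (Finset.card_le_card ?_) (he j)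
    intro i hi
    simp only [hP, Finset.mem_filter, Finset.mem_univ, true_and] at hi
    exact Finset.mem_filter.2 ⟨hi.2.1, hi.2.2⟩
  have hQc : ∀ j, (Q j).card ≤ e := by
    intro j
    refine le_trans (Finset.card_le_card_of_injOn μ ?_ ?_) (he j)
    · intro i hi
      simp only [hQ, Finset.coe_filter, Finset.mem_filter, Finset.mem_univ, true_and,
        Set.mem_ofPred_eq] at hi ⊢
      rw [hμ]
      exact ⟨hi.2.2, hi.2.1⟩
    · intro a _ b _ hab
      rw [← hμ a, hab, hμ]
  obtain ⟨χ, hχ1, hχ2⟩ := hmain n (m + m) (2 * t) e (Fin.addCases P Q) (fun _ => 0) (by omega)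
    (by
      intro i
      have hsub : univ.filter (fun w : Fin (m + m) => i ∈ (Fin.addCases P Q w : Finset (Fin n))) ⊆
          ((univ.filter (fun j : Fin m => i ∈ S j)).image (Fin.castAdd m)) ∪
          ((univ.filter (fun j : Fin m => μ i ∈ S j)).image (Fin.natAdd m)) := by
        intro w hw
        rw [Finset.mem_filter] at hw
        have hw2 := hw.2
        rw [Finset.mem_union, Finset.mem_image, Finset.mem_image]
        refine Fin.addCases (motive := fun w => i ∈ (Fin.addCases P Q w : Finset (Fin n)) →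
          (∃ a ∈ univ.filter (fun j : Fin m => i ∈ S j), Fin.castAdd m a = w) ∨
          (∃ a ∈ univ.filter (fun j : Fin m => μ i ∈ S j), Fin.natAdd m a = w)) ?_ ?_ w hw2
        · intro j hj
          rw [Fin.addCases_left] at hj
          simp only [hP, Finset.mem_filter, Finset.mem_univ, true_and] at hj
          exact Or.inl ⟨j, by simp [hj.2.1], rfl⟩
        · intro j hj
          rw [Fin.addCases_right] at hj
          simp only [hQ, Finset.mem_filter, Finset.mem_univ, true_and] at hj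
          exact Or.inr ⟨j, by simp [hj.2.2], rfl⟩
      refine (Finset.card_le_card hsub).trans ((Finset.card_union_le _ _).trans ?_)
      have h1 := Finset.card_image_le (s := univ.filter (fun j : Fin m => i ∈ S j))
        (f := Fin.castAdd m)
      have h2 := Finset.card_image_le (s := univ.filter (fun j : Fin m => μ i ∈ S j))
        (f := Fin.natAdd m)
      have h3 := hdeg i
      have h4 := hdeg (μ i)
      omega)
    (by
      intro w
      refine Fin.addCases (motive := fun w => (Fin.addCases P Q w : Finset (Fin n)).card ≤ e)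
        ?_ ?_ w
      · intro j
        rw [Fin.addCases_left]
        exact hPc j
      · intro j
        rw [Fin.addCases_right]
        exact hQc j)
    (by intro i; simp)
  set L : ℝ := Real.log (2 + (e : ℝ) / t) with hL
  have hed : (0 : ℝ) ≤ (e : ℝ) / t := by positivity
  have hL2 : 1 / 2 ≤ L := log_two_lower.trans (Real.log_le_log (by norm_num) (by linarith))
  have hst : 1 ≤ Real.sqrt t := Real.one_le_sqrt.2 htr
  have hbd : C * Real.sqrt ((2 * t : ℕ) : ℝ) * Real.log (2 + (e : ℝ) / ((2 * t : ℕ) : ℝ)) ≤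
      2 * C * Real.sqrt t * L := by
    have h1 : Real.sqrt ((2 * t : ℕ) : ℝ) ≤ 2 * Real.sqrt t := by
      rw [Real.sqrt_le_iff]
      refine ⟨by positivity, ?_⟩
      rw [mul_pow, Real.sq_sqrt htp.le]
      push_cast
      linarith
    have h2 : Real.log (2 + (e : ℝ) / ((2 * t : ℕ) : ℝ)) ≤ L := by
      refine Real.log_le_log (by positivity) ?_
      have : (e : ℝ) / ((2 * t : ℕ) : ℝ) ≤ (e : ℝ) / t := by
        apply div_le_div_of_nonneg_left (Nat.cast_nonneg _) htp
        push_cast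
        linarith
      linarith
    have h3 : 0 ≤ Real.log (2 + (e : ℝ) / ((2 * t : ℕ) : ℝ)) := by
      apply Real.log_nonneg
      have : (0 : ℝ) ≤ (e : ℝ) / ((2 * t : ℕ) : ℝ) := by positivity
      linarith
    calc C * Real.sqrt ((2 * t : ℕ) : ℝ) * Real.log (2 + (e : ℝ) / ((2 * t : ℕ) : ℝ))
        ≤ C * (2 * Real.sqrt t) * L := by gcongr
      _ = 2 * C * Real.sqrt t * L := by ring
  have hcast : ∀ T : Finset (Fin n), ((|∑ i ∈ T, χ i| : ℤ) : ℝ) = |∑ i ∈ T, ((χ i : ℝ) - 0)| := by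
    intro T
    push_cast
    simp
  refine ⟨pm μ χ, pm_sign μ χ hχ1, fun j => ?_⟩
  have h1 := pm_sum μ χ hμ hfix (S j)
  have h2 := hχ2 (Fin.castAdd m j)
  have h3 := hχ2 (Fin.natAdd m j)
  rw [Fin.addCases_left, ← hcast] at h2
  rw [Fin.addCases_right, ← hcast] at h3
  have h4 : ((|∑ i ∈ S j, pm μ χ i| : ℤ) : ℝ) ≤ 1 + ((|∑ i ∈ P j, χ i| : ℤ) : ℝ) +
      ((|∑ i ∈ Q j, χ i| : ℤ) : ℝ) := by exact_mod_cast h1
  have h5 : (1 : ℝ) ≤ 2 * Real.sqrt t * L := by nlinarith
  calc ((|∑ i ∈ S j, pm μ χ i| : ℤ) : ℝ)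
      ≤ 1 + 2 * C * Real.sqrt t * L + 2 * C * Real.sqrt t * L := by linarith
    _ ≤ (2 + 4 * C) * Real.sqrt t * L := by nlinarith

end Pool.Agent.K4H87.BF
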