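import Pool.Agent.K4H87.BF.Low
import Pool.Agent.K4H87.BF.Disc

set_option autoImplicit false

/-!
# Discrepancy of set systems with linearly many cells
-/

open Finset

namespace Pool.Agent.K4H87.BF

theorem pow_bound (q : ℕ) : 2 ^ q * (2 * q + 4) + 1 < 2 ^ (2 * q + 4) := by
  have h1 : q + 1 ≤ 2 ^ q := Nat.lt_two_pow_self
  have h2 : 2 ^ (2 * q + 4) = 2 ^ q * (16 * 2 ^ q) := by
    rw [show 2 * q + 4 = q + q + 4 by ring, pow_add, pow_add]
    ring
  rw [h2]
  nlinarith

/-- a family with few cells shatters no large set -/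
theorem no_shatter {V I : Type} [Fintype V] [DecidableEq V] [Fintype I] [DecidableEq I]
    (R : V → Finset I) (L q : ℕ) (hq : L ≤ 2 ^ q)
    (hL : ∀ A : Finset I, (univ.image (fun v => R v ∩ A)).card ≤ L * A.card + 1)
    (B : Finset I) (hB : B.card = 2 * q + 3 + 1) : ¬ ∀ C ⊆ B, ∃ v, R v ∩ B = C := by
  intro h
  have h1 : B.powerset ⊆ univ.image (fun v => R v ∩ B) := by
    intro C hC
    obtain ⟨v, hv⟩ := h C (Finset.mem_powerset.1 hC)
    exact Finset.mem_image.2 ⟨v, Finset.mem_univ _, hv⟩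
  have h2 := (Finset.card_le_card h1).trans (hL B)
  rw [Finset.card_powerset, hB] at h2
  have h3 := pow_bound q
  have h4 : L * (2 * q + 3 + 1) ≤ 2 ^ q * (2 * q + 4) := Nat.mul_le_mul hq (by omega)
  have h5 : 2 ^ (2 * q + 3 + 1) = 2 ^ (2 * q + 4) := by congr 1
  omega

theorem log_two_gt : (0.69 : ℝ) < Real.log 2 := by
  have := Real.log_two_gt_d9
  linarith

/-- `2 q + 3` against `log (1 + L)` -/
theorem q_bound (L : ℕ) (hL : 1 ≤ L) :
    ((2 * Nat.clog 2 L + 3 : ℕ) : ℝ) ≤ 11 * Real.log (1 + L) := by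
  have hLr : (1 : ℝ) ≤ L := by exact_mod_cast hL
  have h2 := log_two_gt
  have h0 : Real.log 2 ≤ Real.log (1 + L) := Real.log_le_log (by norm_num) (by linarith)
  have h1 : (Nat.clog 2 L : ℝ) ≤ Real.log L / Real.log 2 + 1 := by
    rcases Nat.lt_or_ge 1 L with h | h
    · have h3 : 2 ^ (Nat.clog 2 L).pred < L := Nat.pow_pred_clog_lt_self (by norm_num) h
      have h4 : (2 : ℝ) ^ ((Nat.clog 2 L).pred) < L := by exact_mod_cast h3
      have h5 : Real.log ((2 : ℝ) ^ ((Nat.clog 2 L).pred)) < Real.log L :=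
        Real.log_lt_log (by positivity) h4
      rw [Real.log_pow] at h5
      have h6 : 0 < Nat.clog 2 L := Nat.clog_pos (by norm_num) h
      have h7 : ((Nat.clog 2 L).pred : ℝ) = (Nat.clog 2 L : ℝ) - 1 := by
        rw [Nat.pred_eq_sub_one, Nat.cast_sub (by omega)]
        simp
      rw [h7] at h5
      have h8 : (Nat.clog 2 L : ℝ) - 1 ≤ Real.log L / Real.log 2 := by
        rw [le_div_iff₀ (by linarith)]
        exact h5.le
      linarith
    · have h3 : L = 1 := le_antisymm h hL
      subst h3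
      simp
  have h9 : Real.log L ≤ Real.log (1 + L) := Real.log_le_log (by linarith) (by linarith)
  have h10 : Real.log L / Real.log 2 ≤ Real.log (1 + L) / 0.69 := by
    apply div_le_div₀ (by linarith) h9 (by norm_num) h2.le
  have h11 : Real.log (1 + L) / 0.69 ≤ 1.45 * Real.log (1 + L) := by
    rw [div_le_iff₀ (by norm_num)]
    nlinarith
  push_cast
  nlinarith

/-- `log₂ t + 2` against `log (1 + t)` -/
theorem t_bound (t : ℕ) (ht : 1 ≤ t) : (Nat.log 2 t : ℝ) + 2 ≤ 5 * Real.log (1 + t) := by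
  have htr : (1 : ℝ) ≤ t := by exact_mod_cast ht
  have h2 := log_two_gt
  have h0 : Real.log 2 ≤ Real.log (1 + t) := Real.log_le_log (by norm_num) (by linarith)
  have h1 : (Nat.log 2 t : ℝ) ≤ Real.log (1 + t) / Real.log 2 := by
    have h3 : 2 ^ (Nat.log 2 t) ≤ t := Nat.pow_log_le_self 2 (by omega)
    have h4 : (2 : ℝ) ^ (Nat.log 2 t) ≤ t := by exact_mod_cast h3
    have h5 : Real.log ((2 : ℝ) ^ (Nat.log 2 t)) ≤ Real.log (1 + t) :=
      Real.log_le_log (by positivity) (by linarith)
    rw [Real.log_pow] at h5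
    rw [le_div_iff₀ (by linarith)]
    exact h5
  have h10 : Real.log (1 + t) / Real.log 2 ≤ Real.log (1 + t) / 0.69 := by
    apply div_le_div₀ (by linarith) le_rfl (by norm_num) h2.le
  have h11 : Real.log (1 + t) / 0.69 ≤ 1.45 * Real.log (1 + t) := by
    rw [div_le_iff₀ (by norm_num)]
    nlinarith
  nlinarith

/-- Set systems with linearly many cells. -/
theorem cells_disc :
    ∃ C : ℝ, 0 < C ∧ ∀ (n m t L : ℕ) (S : Fin m → Finset (Fin n)), 1 ≤ t →
      (∀ i : Fin n, (univ.filter (fun j : Fin m => i ∈ S j)).card ≤ t) →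
      (∀ A : Finset (Fin m), (univ.image (fun i : Fin n => A.filter (fun j => i ∈ S j))).card ≤
        L * A.card + 1) →
      ∃ χ : Fin n → ℤ, (∀ i, χ i = 1 ∨ χ i = -1) ∧
        ∀ j : Fin m, ((|∑ i ∈ S j, χ i| : ℤ) : ℝ) ≤
          C * Real.sqrt t * Real.log (2 + (L : ℝ) / t * Real.log (1 + L) * Real.log (1 + t)) := by
  classical
  obtain ⟨C, hC, hmain⟩ := disc_of_pairing
  refine ⟨12 * C, by positivity, fun n m t L S ht hdeg hL => ?_⟩
  have htr : (1 : ℝ) ≤ t := by exact_mod_cast ht
  have htp : (0 : ℝ) < t := by linarith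
  rcases isEmpty_or_nonempty (Fin n) with hn | hn
  · refine ⟨fun _ => 1, fun _ => Or.inl rfl, fun j => ?_⟩
    have : S j = ∅ := by
      rw [Finset.eq_empty_iff_forall_notMem]
      intro i
      exact (hn.false i).elim
    rw [this]
    simp only [Finset.sum_empty, abs_zero, Int.cast_zero]
    have : 0 ≤ Real.log (2 + (L : ℝ) / t * Real.log (1 + L) * Real.log (1 + t)) := by
      refine Real.log_nonneg ?_
      have h1 : 0 ≤ Real.log (1 + (L : ℝ)) := Real.log_nonneg (by
        have : (0 : ℝ) ≤ L := Nat.cast_nonneg L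
        linarith)
      have h2 : 0 ≤ Real.log (1 + (t : ℝ)) := Real.log_nonneg (by linarith)
      have : 0 ≤ (L : ℝ) / t * Real.log (1 + L) * Real.log (1 + t) := by positivity
      linarith
    positivity
  set R : Fin n → Finset (Fin m) := fun i => univ.filter (fun j => i ∈ S j) with hR
  have hRA : ∀ A : Finset (Fin m), (univ.image (fun i : Fin n => R i ∩ A)).card ≤
      L * A.card + 1 := by
    intro A
    refine le_trans (le_of_eq ?_) (hL A)
    congr 1
    refine Finset.image_congr fun i _ => ?_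
    ext j
    simp [hR, and_comm]
  set q := Nat.clog 2 L with hq
  have hLq : L ≤ 2 ^ q := Nat.le_pow_clog (by norm_num) L
  obtain ⟨B, hB1, hB2⟩ := low_tree R t (2 * q + 3) ht (by omega) hdeg
    (fun B hB => no_shatter R L q hLq hRA B hB) (L : ℝ) (Nat.cast_nonneg L)
    (fun A => by exact_mod_cast hRA A)
  set K : ℝ := (3 + 32 * L * ((2 * q + 3 : ℕ) : ℝ) * (Nat.log 2 t + 2)) + 2 * t with hK
  have hK0 : 0 ≤ K := by positivity
  obtain ⟨r⟩ := hn
  obtain ⟨μ, h1, h2, h3⟩ := pairing (SimpleGraph.fromRel (fun u v => (u, v) ∈ B)) r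
    (fun i : Fin n => i) (fun i => hB1 r i)
  obtain ⟨χ, h4, h5⟩ := hmain n m t ⌊K⌋₊ S ht hdeg μ h1 h2 (by
    intro j
    have h4 := h3 (fun u => decide (u ∈ S j))
    have h6 : univ.filter (fun i => decide (i ∈ S j) = true ∧
        decide (μ i ∈ S j) = false) = (S j).filter (fun i => μ i ∉ S j) := by
      ext i
      simp only [Finset.mem_filter, Finset.mem_univ, true_and, decide_eq_true_eq,
        decide_eq_false_iff_not]
    rw [h6] at h4
    refine h4.trans ?_
    rw [Nat.le_floor_iff hK0]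
    refine le_trans ?_ (hB2 j)
    -- boundary edges
    have h7 : {p : Fin n × Fin n | decide (p.1 ∈ S j) = true ∧ decide (p.2 ∈ S j) = false ∧
        (SimpleGraph.fromRel (fun u v => (u, v) ∈ B)).Adj p.1 p.2}.ncard ≤
        ((B.filter (fun e => j ∈ symmDiff (R e.1) (R e.2)) : Finset (Fin n × Fin n)) :
          Set (Fin n × Fin n)).ncard := by
      refine Set.ncard_le_ncard_of_injOn (fun p => if p ∈ B then p else p.swap) ?_ ?_
        (Finset.finite_toSet _)
      · rintro p ⟨hp1, hp2, hp3⟩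
        rw [decide_eq_true_eq] at hp1
        rw [decide_eq_false_iff_not] at hp2
        rw [SimpleGraph.fromRel_adj] at hp3
        rw [Finset.mem_coe, Finset.mem_filter]
        have hmem : ∀ i, j ∈ R i ↔ i ∈ S j := by intro i; simp [hR]
        by_cases hp : p ∈ B
        · simp only [hp, if_true]
          refine ⟨trivial, ?_⟩
          rw [Finset.mem_symmDiff, hmem, hmem]
          exact Or.inl ⟨hp1, hp2⟩
        · simp only [hp, if_false]
          have hp4 : p.swap ∈ B := by
            rcases hp3.2 with h | h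
            · exact absurd h hp
            · exact h
          refine ⟨hp4, ?_⟩
          rw [Finset.mem_symmDiff, hmem, hmem]
          exact Or.inr ⟨hp1, hp2⟩
      · rintro p ⟨hp1, hp2, -⟩ p' ⟨hp1', hp2', -⟩ heq
        rw [decide_eq_true_eq] at hp1 hp1'
        rw [decide_eq_false_iff_not] at hp2 hp2'
        simp only at heq
        by_cases hp : p ∈ B <;> by_cases hp' : p' ∈ B
        · rw [if_pos hp, if_pos hp'] at heq
          exact heq
        · rw [if_pos hp, if_neg hp'] at heq
          rw [heq] at hp1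
          exact absurd hp1 hp2'
        · rw [if_neg hp, if_pos hp'] at heq
          rw [← heq] at hp1'
          exact absurd hp1' hp2
        · rw [if_neg hp, if_neg hp'] at heq
          exact Prod.swap_injective heq
    rw [Set.ncard_coe_finset] at h7
    exact_mod_cast h7)
  refine ⟨χ, h4, fun j => (h5 j).trans ?_⟩
  set Y : ℝ := (L : ℝ) / t * Real.log (1 + L) * Real.log (1 + t) with hY
  have hl1 : 0 ≤ Real.log (1 + (L : ℝ)) := Real.log_nonneg (by
    have : (0 : ℝ) ≤ L := Nat.cast_nonneg L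
    linarith)
  have hl2 : 0 ≤ Real.log (1 + (t : ℝ)) := Real.log_nonneg (by linarith)
  have hY0 : 0 ≤ Y := by positivity
  have hKt : K / t ≤ 5 + 1760 * Y := by
    have hb : 32 * (L : ℝ) * ((2 * q + 3 : ℕ) : ℝ) * (Nat.log 2 t + 2) ≤
        1760 * (L * Real.log (1 + L) * Real.log (1 + t)) := by
      rcases Nat.eq_zero_or_pos L with hL0 | hL0
      · rw [hL0]
        simp
      · have ha := q_bound L hL0
        have hc := t_bound t ht
        calc 32 * (L : ℝ) * ((2 * q + 3 : ℕ) : ℝ) * (Nat.log 2 t + 2)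
            ≤ 32 * (L : ℝ) * (11 * Real.log (1 + L)) * (5 * Real.log (1 + t)) := by
              gcongr
          _ = _ := by ring
    rw [div_le_iff₀ htp]
    have hYt : Y * t = L * Real.log (1 + L) * Real.log (1 + t) := by
      rw [hY]
      field_simp
    have : (5 + 1760 * Y) * t = 5 * t + 1760 * (Y * t) := by ring
    rw [this, hYt, hK]
    linarith
  have hfl : (⌊K⌋₊ : ℝ) / t ≤ K / t := div_le_div_of_nonneg_right (Nat.floor_le hK0) htp.le
  have hlog : Real.log (2 + (⌊K⌋₊ : ℝ) / t) ≤ 12 * Real.log (2 + Y) := by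
    have hpos : 0 ≤ (⌊K⌋₊ : ℝ) / t := by positivity
    have e1 : Real.log (2 + (⌊K⌋₊ : ℝ) / t) ≤ Real.log (2 ^ 11 * (2 + Y)) := by
      refine Real.log_le_log (by linarith) ?_
      norm_num
      linarith
    have e2 : Real.log (2 ^ 11 * (2 + Y)) = 11 * Real.log 2 + Real.log (2 + Y) := by
      rw [Real.log_mul (by positivity) (by positivity), Real.log_pow]
      norm_num
    have e3 : Real.log 2 ≤ Real.log (2 + Y) := Real.log_le_log (by norm_num) (by linarith)
    rw [e2] at e1
    linarith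
  calc C * Real.sqrt t * Real.log (2 + (⌊K⌋₊ : ℝ) / t)
      ≤ C * Real.sqrt t * (12 * Real.log (2 + Y)) :=
        mul_le_mul_of_nonneg_left hlog (by positivity)
    _ = 12 * C * Real.sqrt t * Real.log (2 + Y) := by ring

end Pool.Agent.K4H87.BF
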