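import Pool.Agent.K4H87.BF.Pair

set_option autoImplicit false

/-!
# Points and half-planes: pairings with few crossed pairs

If every one of finitely many points of the plane is in at most `t` of finitely many half-planes,
the points can be paired up (one may be left) such that every half-plane separates at most
`4 t + 1` pairs.
-/

open Finset

namespace Pool.Agent.K4H87.BF

/-- generic levels -/
theorem generic {m n : ℕ} (u lo hi : Fin m → ℝ) (v : Fin m → Fin n → ℝ)
    (h : ∀ j, lo j < hi j) (s : Finset (Fin m)) :
    ∃ c : Fin m → ℝ, (∀ j, lo j < c j ∧ c j < hi j) ∧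
      ∀ j ∈ s, ∀ j' ∈ s, j ≠ j' → ∀ i, v j i ≠ u j → v j' i ≠ u j' →
        (u j - c j) * (v j' i - c j') ≠ (u j' - c j') * (v j i - c j) := by
  classical
  induction s using Finset.induction_on with
  | empty =>
    refine ⟨fun j => (lo j + hi j) / 2, fun j => ⟨by linarith [h j], by linarith [h j]⟩, ?_⟩
    simp
  | insert j0 s hj0 ih =>
    obtain ⟨c, hc1, hc2⟩ := ih
    -- the bad value of `c j0` for `j'` and `i`
    set bad : Fin m × Fin n → ℝ := fun q =>
      (u j0 * v q.1 q.2 - u q.1 * v j0 q.2 - c q.1 * (u j0 - v j0 q.2)) /
        (v q.1 q.2 - u q.1) with hbad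
    obtain ⟨c0, hc0, hc0'⟩ := (Set.Ioo_infinite (h j0)).exists_notMem_finset (univ.image bad)
    refine ⟨Function.update c j0 c0, ?_, ?_⟩
    · intro j
      by_cases hj : j = j0
      · rw [hj, Function.update_self]
        exact hc0
      · rw [Function.update_of_ne hj]
        exact hc1 j
    · have key : ∀ j' ∈ s, ∀ i, v j' i ≠ u j' →
          (u j0 - c0) * (v j' i - c j') ≠ (u j' - c j') * (v j0 i - c0) := by
        intro j' _ i hv heq
        apply hc0'
        rw [Finset.mem_image]
        refine ⟨(j', i), Finset.mem_univ _, ?_⟩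
        simp only [hbad]
        rw [div_eq_iff (sub_ne_zero.2 hv)]
        linarith
      intro j hj j' hj' hne i h1 h2
      rw [Finset.mem_insert] at hj hj'
      rcases hj with rfl | hj
      · rcases hj' with rfl | hj'
        · exact absurd rfl hne
        · rw [Function.update_self, Function.update_of_ne hne.symm]
          exact key j' hj' i h2
      · have hjj : j ≠ j0 := fun h => hj0 (h ▸ hj)
        rcases hj' with rfl | hj'
        · rw [Function.update_self, Function.update_of_ne hjj]
          exact (key j hj i h1).symm
        · have hjj' : j' ≠ j0 := fun h => hj0 (h ▸ hj')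
          rw [Function.update_of_ne hjj, Function.update_of_ne hjj']
          exact hc2 j hj j' hj' hne i h1 h2

/-- the largest value below `c` -/
theorem exists_lo {n : ℕ} (f : Fin n → ℝ) (c : ℝ) : ∃ lo < c, ∀ i, f i < c → f i ≤ lo := by
  classical
  set T : Finset ℝ := insert (c - 1) ((univ.filter (fun i => f i < c)).image f) with hT
  have hne : T.Nonempty := ⟨c - 1, Finset.mem_insert_self _ _⟩
  refine ⟨T.max' hne, ?_, fun i hi => ?_⟩
  · rw [Finset.max'_lt_iff]
    intro y hy
    rw [hT, Finset.mem_insert, Finset.mem_image] at hy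
    rcases hy with rfl | ⟨i, hi, rfl⟩
    · linarith
    · exact (Finset.mem_filter.1 hi).2
  · apply Finset.le_max'
    rw [hT, Finset.mem_insert, Finset.mem_image]
    exact Or.inr ⟨i, Finset.mem_filter.2 ⟨Finset.mem_univ _, hi⟩, rfl⟩

section

variable {m : ℕ} (a b c : Fin m → ℝ)

/-- `a x + b y - c` -/
def lv (j : Fin m) (x : ℝ × ℝ) : ℝ := a j * x.1 + b j * x.2 - c j

open Classical in
/-- the half-planes which contain `x` -/
noncomputable def tr (x : ℝ × ℝ) : Finset (Fin m) := univ.filter (fun j => 0 ≤ lv a b c j x)

theorem mem_tr (x : ℝ × ℝ) (j : Fin m) : j ∈ tr a b c x ↔ 0 ≤ lv a b c j x := by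
  unfold tr
  simp

/-- the point with parameter `s` of the segment from `x` to `y` -/
def sg (x y : ℝ × ℝ) (s : ℝ) : ℝ × ℝ := ((1 - s) * x.1 + s * y.1, (1 - s) * x.2 + s * y.2)

theorem lv_sg (j : Fin m) (x y : ℝ × ℝ) (s : ℝ) :
    lv a b c j (sg x y s) = (1 - s) * lv a b c j x + s * lv a b c j y := by
  unfold lv sg
  ring

/-- realised traces of size at most `k`, adjacent if they differ in one half-plane -/
def gr (k : ℕ) : SimpleGraph (Finset (Fin m)) where
  Adj A B := (A.card ≤ k ∧ ∃ x, tr a b c x = A) ∧ (B.card ≤ k ∧ ∃ x, tr a b c x = B) ∧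
    ∃ j, (j ∉ A ∧ B = insert j A) ∨ (j ∉ B ∧ A = insert j B)
  symm := ⟨by
    rintro A B ⟨h1, h2, j, h3⟩
    exact ⟨h2, h1, j, h3.symm⟩⟩
  loopless := ⟨by
    rintro A ⟨_, _, j, h3⟩
    rcases h3 with h3 | h3
    · exact h3.1 (h3.2 ▸ Finset.mem_insert_self _ _)
    · exact h3.1 (h3.2 ▸ Finset.mem_insert_self _ _)⟩

theorem seg_reach (k : ℕ) (x y : ℝ × ℝ) (hk : (tr a b c x).card + (tr a b c y).card ≤ k)
    (hx : ∀ j, lv a b c j x ≠ 0) (hy : ∀ j, lv a b c j y ≠ 0)
    (hg : ∀ j j', j ≠ j' → lv a b c j x ≠ lv a b c j y → lv a b c j' x ≠ lv a b c j' y →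
      lv a b c j x * lv a b c j' y ≠ lv a b c j' x * lv a b c j y) :
    (gr a b c k).Reachable (tr a b c x) (tr a b c y) := by
  classical
  have hcard : ∀ s, 0 ≤ s → s ≤ 1 → (tr a b c (sg x y s)).card ≤ k := by
    intro s h0 h1
    refine le_trans (Finset.card_le_card ?_) ((Finset.card_union_le _ _).trans hk)
    intro j hj
    rw [mem_tr, lv_sg] at hj
    rw [Finset.mem_union, mem_tr, mem_tr]
    by_contra hcon
    push Not at hcon
    obtain ⟨h2, h3⟩ := hcon
    rcases eq_or_lt_of_le h0 with h4 | h4
    · rw [← h4] at hj
      linarith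
    · have h5 := mul_neg_of_pos_of_neg h4 h3
      have h6 : (1 - s) * lv a b c j x ≤ 0 :=
        mul_nonpos_of_nonneg_of_nonpos (by linarith) h2.le
      linarith
  -- zero of the label `j` on the segment
  set z : Fin m → ℝ := fun j => lv a b c j x / (lv a b c j x - lv a b c j y) with hz
  have hF : ∀ j, lv a b c j x ≠ lv a b c j y → ∀ s,
      lv a b c j (sg x y s) = (lv a b c j x - lv a b c j y) * (z j - s) := by
    intro j hj s
    have h1 : lv a b c j x - lv a b c j y ≠ 0 := sub_ne_zero.2 hj
    rw [lv_sg]
    simp only [hz]
    field_simp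
    ring
  -- labels which change
  have hch : ∀ j s s', 0 ≤ s → s ≤ 1 → 0 ≤ s' → s' ≤ 1 →
      j ∈ symmDiff (tr a b c (sg x y s)) (tr a b c (sg x y s')) →
      lv a b c j x ≠ lv a b c j y := by
    intro j s s' _ _ _ _ hj heq
    rw [Finset.mem_symmDiff, mem_tr, mem_tr, lv_sg, lv_sg, heq] at hj
    rcases hj with ⟨h1, h2⟩ | ⟨h1, h2⟩ <;> apply h2 <;> linarith
  have main : ∀ (N : ℕ) (s s' : ℝ), 0 ≤ s → s ≤ s' → s' ≤ 1 →
      (symmDiff (tr a b c (sg x y s)) (tr a b c (sg x y s'))).card ≤ N →
      (gr a b c k).Reachable (tr a b c (sg x y s)) (tr a b c (sg x y s')) := by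
    intro N
    induction N with
    | zero =>
      intro s s' h0 h1 h2 hN
      have h3 : symmDiff (tr a b c (sg x y s)) (tr a b c (sg x y s')) = ∅ :=
        Finset.card_eq_zero.1 (Nat.le_zero.1 hN)
      rw [← Finset.bot_eq_empty, symmDiff_eq_bot] at h3
      rw [h3]
    | succ N ih =>
      intro s s' h0 h1 h2 hN
      set D := symmDiff (tr a b c (sg x y s)) (tr a b c (sg x y s')) with hD
      by_cases hone : 1 < D.card
      · obtain ⟨j0, hj0, j1, hj1, hne⟩ := Finset.one_lt_card.1 hone
        have hx0 := hch j0 s s' h0 (h1.trans h2) (h0.trans h1) h2 hj0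
        have hx1 := hch j1 s s' h0 (h1.trans h2) (h0.trans h1) h2 hj1
        have hzne : z j0 ≠ z j1 := by
          intro heq
          simp only [hz] at heq
          rw [div_eq_div_iff (sub_ne_zero.2 hx0) (sub_ne_zero.2 hx1)] at heq
          apply hg j0 j1 hne hx0 hx1
          linarith
        -- position of the zeros
        have hpos : ∀ j ∈ D, s ≤ z j ∧ z j ≤ s' := by
          intro j hj
          have hxj := hch j s s' h0 (h1.trans h2) (h0.trans h1) h2 hj
          rw [hD, Finset.mem_symmDiff, mem_tr, mem_tr, hF j hxj, hF j hxj] at hj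
          have hd : lv a b c j x - lv a b c j y ≠ 0 := sub_ne_zero.2 hxj
          rcases lt_or_gt_of_ne hd with hd | hd
          · rcases hj with ⟨h3, h4⟩ | ⟨h3, h4⟩
            · exfalso
              have h5 : z j - s ≤ 0 := by
                by_contra hcon
                exact absurd h3 (not_le.2 (mul_neg_of_neg_of_pos hd (not_le.1 hcon)))
              apply h4
              exact mul_nonneg_of_nonpos_of_nonpos hd.le (by linarith)
            · have h5 : z j - s' ≤ 0 := by
                by_contra hcon
                exact absurd h3 (not_le.2 (mul_neg_of_neg_of_pos hd (not_le.1 hcon)))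
              have h6 : 0 < z j - s := by
                by_contra hcon
                exact h4 (mul_nonneg_of_nonpos_of_nonpos hd.le (not_lt.1 hcon))
              exact ⟨by linarith, by linarith⟩
          · rcases hj with ⟨h3, h4⟩ | ⟨h3, h4⟩
            · have h5 : 0 ≤ z j - s := by
                by_contra hcon
                exact absurd h3 (not_le.2 (mul_neg_of_pos_of_neg hd (not_le.1 hcon)))
              have h6 : z j - s' < 0 := by
                by_contra hcon
                exact h4 (mul_nonneg hd.le (not_lt.1 hcon))
              exact ⟨by linarith, by linarith⟩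
            · exfalso
              have h5 : 0 ≤ z j - s' := by
                by_contra hcon
                exact absurd h3 (not_le.2 (mul_neg_of_pos_of_neg hd (not_le.1 hcon)))
              apply h4
              exact mul_nonneg hd.le (by linarith)
        -- split at a point between the two zeros
        have split : ∀ j0 ∈ D, ∀ j1 ∈ D, z j0 < z j1 →
            (gr a b c k).Reachable (tr a b c (sg x y s)) (tr a b c (sg x y s')) := by
          intro j0 hj0 j1 hj1 hlt
          have hx0 := hch j0 s s' h0 (h1.trans h2) (h0.trans h1) h2 hj0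
          have hx1 := hch j1 s s' h0 (h1.trans h2) (h0.trans h1) h2 hj1
          obtain ⟨p1, p2⟩ := hpos j0 hj0
          obtain ⟨p3, p4⟩ := hpos j1 hj1
          set μ := (z j0 + z j1) / 2 with hμ
          have m1 : z j0 < μ := by rw [hμ]; linarith
          have m2 : μ < z j1 := by rw [hμ]; linarith
          have m3 : s ≤ μ := by linarith
          have m4 : μ ≤ s' := by linarith
          have sub1 : symmDiff (tr a b c (sg x y s)) (tr a b c (sg x y μ)) ⊆ D.erase j1 := by
            intro l hl
            have hxl := hch l s μ h0 (h1.trans h2) (h0.trans m3) (m4.trans h2) hl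
            rw [Finset.mem_symmDiff, mem_tr, mem_tr, hF l hxl, hF l hxl] at hl
            have hd : lv a b c l x - lv a b c l y ≠ 0 := sub_ne_zero.2 hxl
            rw [Finset.mem_erase, hD, Finset.mem_symmDiff, mem_tr, mem_tr, hF l hxl, hF l hxl]
            constructor
            · rintro rfl
              rcases lt_or_gt_of_ne hd with hd | hd
              · rcases hl with ⟨h3, h4⟩ | ⟨h3, h4⟩
                · exact absurd h3 (not_le.2 (mul_neg_of_neg_of_pos hd (by linarith)))
                · exact absurd h3 (not_le.2 (mul_neg_of_neg_of_pos hd (by linarith)))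
              · rcases hl with ⟨h3, h4⟩ | ⟨h3, h4⟩
                · exact h4 (mul_nonneg hd.le (by linarith))
                · exact h4 (mul_nonneg hd.le (by linarith))
            · rcases lt_or_gt_of_ne hd with hd | hd
              · rcases hl with ⟨h3, h4⟩ | ⟨h3, h4⟩
                · exfalso
                  have h5 : z l - s ≤ 0 := by
                    by_contra hcon
                    exact absurd h3 (not_le.2 (mul_neg_of_neg_of_pos hd (not_le.1 hcon)))
                  exact h4 (mul_nonneg_of_nonpos_of_nonpos hd.le (by linarith))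
                · right
                  refine ⟨?_, h4⟩
                  have h5 : z l - μ ≤ 0 := by
                    by_contra hcon
                    exact absurd h3 (not_le.2 (mul_neg_of_neg_of_pos hd (not_le.1 hcon)))
                  exact mul_nonneg_of_nonpos_of_nonpos hd.le (by linarith)
              · rcases hl with ⟨h3, h4⟩ | ⟨h3, h4⟩
                · left
                  refine ⟨h3, fun h5 => h4 ?_⟩
                  have h6 : 0 ≤ z l - s' := by
                    by_contra hcon
                    exact absurd h5 (not_le.2 (mul_neg_of_pos_of_neg hd (not_le.1 hcon)))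
                  exact mul_nonneg hd.le (by linarith)
                · exfalso
                  have h5 : 0 ≤ z l - μ := by
                    by_contra hcon
                    exact absurd h3 (not_le.2 (mul_neg_of_pos_of_neg hd (not_le.1 hcon)))
                  exact h4 (mul_nonneg hd.le (by linarith))
          have sub2 : symmDiff (tr a b c (sg x y μ)) (tr a b c (sg x y s')) ⊆ D.erase j0 := by
            intro l hl
            have hxl := hch l μ s' (h0.trans m3) (m4.trans h2) (h0.trans h1) h2 hl
            rw [Finset.mem_symmDiff, mem_tr, mem_tr, hF l hxl, hF l hxl] at hl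
            have hd : lv a b c l x - lv a b c l y ≠ 0 := sub_ne_zero.2 hxl
            rw [Finset.mem_erase, hD, Finset.mem_symmDiff, mem_tr, mem_tr, hF l hxl, hF l hxl]
            constructor
            · rintro rfl
              rcases lt_or_gt_of_ne hd with hd | hd
              · rcases hl with ⟨h3, h4⟩ | ⟨h3, h4⟩
                · exact h4 (mul_nonneg_of_nonpos_of_nonpos hd.le (by linarith))
                · exact h4 (mul_nonneg_of_nonpos_of_nonpos hd.le (by linarith))
              · rcases hl with ⟨h3, h4⟩ | ⟨h3, h4⟩
                · exact absurd h3 (not_le.2 (mul_neg_of_pos_of_neg hd (by linarith)))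
                · exact absurd h3 (not_le.2 (mul_neg_of_pos_of_neg hd (by linarith)))
            · rcases lt_or_gt_of_ne hd with hd | hd
              · rcases hl with ⟨h3, h4⟩ | ⟨h3, h4⟩
                · exfalso
                  have h5 : z l - μ ≤ 0 := by
                    by_contra hcon
                    exact absurd h3 (not_le.2 (mul_neg_of_neg_of_pos hd (not_le.1 hcon)))
                  exact h4 (mul_nonneg_of_nonpos_of_nonpos hd.le (by linarith))
                · right
                  refine ⟨h3, fun h5 => h4 ?_⟩
                  have h6 : z l - s ≤ 0 := by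
                    by_contra hcon
                    exact absurd h5 (not_le.2 (mul_neg_of_neg_of_pos hd (not_le.1 hcon)))
                  exact mul_nonneg_of_nonpos_of_nonpos hd.le (by linarith)
              · rcases hl with ⟨h3, h4⟩ | ⟨h3, h4⟩
                · left
                  refine ⟨?_, h4⟩
                  have h5 : 0 ≤ z l - μ := by
                    by_contra hcon
                    exact absurd h3 (not_le.2 (mul_neg_of_pos_of_neg hd (not_le.1 hcon)))
                  exact mul_nonneg hd.le (by linarith)
                · exfalso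
                  have h5 : 0 ≤ z l - s' := by
                    by_contra hcon
                    exact absurd h3 (not_le.2 (mul_neg_of_pos_of_neg hd (not_le.1 hcon)))
                  exact h4 (mul_nonneg hd.le (by linarith))
          have c1 := Finset.card_le_card sub1
          have c2 := Finset.card_le_card sub2
          have c3 := Finset.card_erase_add_one hj1
          have c4 := Finset.card_erase_add_one hj0
          exact (ih s μ h0 m3 (m4.trans h2) (by omega)).trans
            (ih μ s' (h0.trans m3) m4 h2 (by omega))
        rcases lt_or_gt_of_ne hzne with h | h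
        · exact split j0 hj0 j1 hj1 h
        · exact split j1 hj1 j0 hj0 h
      · rcases Nat.lt_or_ge D.card 1 with h3 | h3
        · exact ih s s' h0 h1 h2 (by rw [← hD]; omega)
        · obtain ⟨j, hj⟩ := Finset.card_eq_one.1 (le_antisymm (not_lt.1 hone) h3)
          have hjD : j ∈ D := by rw [hj]; exact Finset.mem_singleton_self _
          have hother : ∀ l, l ≠ j → (l ∈ tr a b c (sg x y s) ↔ l ∈ tr a b c (sg x y s')) := by
            intro l hl
            by_contra hcon
            apply hl
            have : l ∈ D := by
              rw [hD, Finset.mem_symmDiff]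
              tauto
            rw [hj, Finset.mem_singleton] at this
            exact this
          refine SimpleGraph.Adj.reachable ⟨⟨hcard s h0 (h1.trans h2), _, rfl⟩,
            ⟨hcard s' (h0.trans h1) h2, _, rfl⟩, j, ?_⟩
          rw [hD, Finset.mem_symmDiff] at hjD
          rcases hjD with ⟨h4, h5⟩ | ⟨h4, h5⟩
          · right
            refine ⟨h5, ?_⟩
            ext l
            rw [Finset.mem_insert]
            by_cases hl : l = j
            · simp [hl, h4]
            · simp [hl, hother l hl]
          · left
            refine ⟨h5, ?_⟩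
            ext l
            rw [Finset.mem_insert]
            by_cases hl : l = j
            · simp [hl, h4]
            · simp [hl, hother l hl]
  have e0 : sg x y 0 = x := by unfold sg; simp
  have e1 : sg x y 1 = y := by unfold sg; simp
  have := main _ 0 1 le_rfl zero_le_one le_rfl le_rfl
  rwa [e0, e1] at this

/-- few edges of the graph change the label `j` -/
theorem edge_count (k : ℕ) (j : Fin m) :
    {p : Finset (Fin m) × Finset (Fin m) | j ∈ p.1 ∧ j ∉ p.2 ∧ (gr a b c k).Adj p.1 p.2}.ncard ≤
      2 * k + 1 := by
  classical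
  by_cases hab : a j ^ 2 + b j ^ 2 = 0
  · -- a trivial half-plane
    have ha : a j = 0 := by nlinarith [sq_nonneg (a j), sq_nonneg (b j)]
    have hb : b j = 0 := by nlinarith [sq_nonneg (a j), sq_nonneg (b j)]
    have : {p : Finset (Fin m) × Finset (Fin m) |
        j ∈ p.1 ∧ j ∉ p.2 ∧ (gr a b c k).Adj p.1 p.2} = ∅ := by
      rw [Set.eq_empty_iff_forall_notMem]
      rintro ⟨A, B⟩ ⟨h1, h2, ⟨_, x, h3⟩, ⟨_, y, h4⟩, _⟩
      simp only at h1 h2 h3 h4
      rw [← h3, mem_tr] at h1
      rw [← h4, mem_tr] at h2
      unfold lv at h1 h2
      rw [ha, hb] at h1 h2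
      apply h2
      linarith
    rw [this]
    simp
  · have hpos : 0 < a j ^ 2 + b j ^ 2 :=
      lt_of_le_of_ne (by positivity) (Ne.symm hab)
    -- the line
    set q := a j ^ 2 + b j ^ 2 with hq
    set y : ℝ → ℝ × ℝ := fun s => (c j * a j / q - s * b j, c j * b j / q + s * a j) with hy
    have hline : ∀ w : ℝ × ℝ, lv a b c j w = 0 → ∃ s, y s = w := by
      intro w hw
      refine ⟨(a j * w.2 - b j * w.1) / q, ?_⟩
      unfold lv at hw
      have hc : c j = a j * w.1 + b j * w.2 := by linarith
      simp only [hy]
      refine Prod.ext ?_ ?_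
      · simp only
        rw [hc]
        field_simp
        rw [hq]
        ring
      · simp only
        rw [hc]
        field_simp
        rw [hq]
        ring
    have haff : ∀ l s, lv a b c l (y s) =
        (a l * (c j * a j / q) + b l * (c j * b j / q) - c l) + s * (b l * a j - a l * b j) := by
      intro l s
      unfold lv
      simp only [hy]
      ring
    set e0 : Fin m → ℝ := fun l => a l * (c j * a j / q) + b l * (c j * b j / q) - c l with he0
    set f0 : Fin m → ℝ := fun l => b l * a j - a l * b j with hf0
    have haff' : ∀ l s, lv a b c l (y s) = e0 l + s * f0 l := haff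
    set Rt : ℝ → Finset (Fin m) := fun s => (tr a b c (y s)).filter (fun l => 0 < f0 l) with hRt
    set Lt : ℝ → Finset (Fin m) := fun s => (tr a b c (y s)).filter (fun l => f0 l < 0) with hLt
    have mRt : ∀ s s', s ≤ s' → Rt s ⊆ Rt s' := by
      intro s s' hs l hl
      simp only [hRt, Finset.mem_filter, mem_tr, haff'] at hl ⊢
      refine ⟨?_, hl.2⟩
      nlinarith [hl.1, hl.2]
    have mLt : ∀ s s', s ≤ s' → Lt s' ⊆ Lt s := by
      intro s s' hs l hl
      simp only [hLt, Finset.mem_filter, mem_tr, haff'] at hl ⊢
      refine ⟨?_, hl.2⟩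
      nlinarith [hl.1, hl.2]
    have heqtr : ∀ s s', Rt s = Rt s' → Lt s = Lt s' → tr a b c (y s) = tr a b c (y s') := by
      intro s s' h1 h2
      ext l
      rcases lt_trichotomy (f0 l) 0 with h3 | h3 | h3
      · have := Finset.ext_iff.1 h2 l
        simp only [hLt, Finset.mem_filter, h3, and_true] at this
        exact this
      · rw [mem_tr, mem_tr, haff', haff', h3]
        simp
      · have := Finset.ext_iff.1 h1 l
        simp only [hRt, Finset.mem_filter, h3, and_true] at this
        exact this
    -- every edge gives a point of the line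
    have hpt : ∀ p ∈ {p : Finset (Fin m) × Finset (Fin m) |
        j ∈ p.1 ∧ j ∉ p.2 ∧ (gr a b c k).Adj p.1 p.2}, ∃ s, tr a b c (y s) = p.1 ∧
        p.1.card ≤ k ∧ p.2 = p.1.erase j := by
      rintro ⟨A, B⟩ ⟨h1, h2, ⟨hA, x, h3⟩, ⟨_, x', h4⟩, l, h5⟩
      simp only at h1 h2 h3 h4 hA h5 ⊢
      have hAB : l = j ∧ l ∉ B ∧ A = insert l B := by
        rcases h5 with ⟨h6, h7⟩ | ⟨h6, h7⟩
        · exfalso
          apply h2
          rw [h7]
          exact Finset.mem_insert_of_mem h1
        · rw [h7, Finset.mem_insert] at h1
          rcases h1 with h1 | h1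
          · exact ⟨h1.symm, h6, h7⟩
          · exact absurd h1 h2
      obtain ⟨rfl, h6, h7⟩ := hAB
      have hB : B = A.erase l := by rw [h7, Finset.erase_insert h6]
      have hx : 0 ≤ lv a b c l x := by rw [← mem_tr, h3]; exact h1
      have hx' : lv a b c l x' < 0 := by
        rw [← not_le, ← mem_tr, h4]; exact h2
      set s := lv a b c l x / (lv a b c l x - lv a b c l x') with hs
      have hd : 0 < lv a b c l x - lv a b c l x' := by linarith
      have hs0 : 0 ≤ s := div_nonneg hx hd.le
      have hs1 : s ≤ 1 := by
        rw [hs, div_le_one hd]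
        linarith
      have hzero : lv a b c l (sg x x' s) = 0 := by
        rw [lv_sg, hs]
        field_simp
        ring
      obtain ⟨s', hs'⟩ := hline _ hzero
      refine ⟨s', ?_, hA, hB⟩
      rw [hs', ← h3]
      ext i
      rw [mem_tr, mem_tr]
      by_cases hi : i = l
      · rw [hi, hzero]
        exact ⟨fun _ => hx, fun _ => le_rfl⟩
      · have hsame : i ∈ A ↔ i ∈ B := by
          rw [hB, Finset.mem_erase]
          exact ⟨fun h => ⟨hi, h⟩, fun h => h.2⟩
        rw [← h3, ← h4, mem_tr, mem_tr] at hsame
        rw [lv_sg]
        constructor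
        · intro h8
          by_contra hcon
          have h9 : ¬ 0 ≤ lv a b c i x' := fun h => hcon (hsame.2 h)
          rw [not_le] at hcon h9
          rcases eq_or_lt_of_le hs0 with h10 | h10
          · rw [← h10] at h8
            linarith
          · have := mul_neg_of_pos_of_neg h10 h9
            have : (1 - s) * lv a b c i x ≤ 0 :=
              mul_nonpos_of_nonneg_of_nonpos (by linarith) hcon.le
            linarith
        · intro h8
          have h9 := hsame.1 h8
          have : 0 ≤ (1 - s) * lv a b c i x := mul_nonneg (by linarith) h8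
          have : 0 ≤ s * lv a b c i x' := mul_nonneg hs0 h9
          linarith
    choose! sp hsp using hpt
    have hcount : ∀ p ∈ {p : Finset (Fin m) × Finset (Fin m) |
        j ∈ p.1 ∧ j ∉ p.2 ∧ (gr a b c k).Adj p.1 p.2},
        (Rt (sp p)).card ≤ k ∧ (Lt (sp p)).card ≤ k := by
      intro p hp
      obtain ⟨h1, h2, _⟩ := hsp p hp
      rw [← h1] at h2
      exact ⟨(Finset.card_filter_le _ _).trans h2, (Finset.card_filter_le _ _).trans h2⟩
    have hle : {p : Finset (Fin m) × Finset (Fin m) |
        j ∈ p.1 ∧ j ∉ p.2 ∧ (gr a b c k).Adj p.1 p.2}.ncard ≤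
        ((Finset.range (2 * k + 1) : Finset ℕ) : Set ℕ).ncard := by
      refine Set.ncard_le_ncard_of_injOn (fun p => (Rt (sp p)).card + (k - (Lt (sp p)).card))
        ?_ ?_ (Finset.finite_toSet _)
      · intro p hp
        have := hcount p hp
        simp only [Finset.coe_range, Set.mem_Iio]
        omega
      · intro p hp p' hp' heq
        have c1 := hcount p hp
        have c2 := hcount p' hp'
        simp only at heq
        obtain ⟨h1, _, h2⟩ := hsp p hp
        obtain ⟨h3, _, h4⟩ := hsp p' hp'
        have key : Rt (sp p) = Rt (sp p') ∧ Lt (sp p) = Lt (sp p') := by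
          rcases le_total (sp p) (sp p') with h5 | h5
          · have h6 := mRt _ _ h5
            have h7 := mLt _ _ h5
            have h8 := Finset.card_le_card h6
            have h9 := Finset.card_le_card h7
            refine ⟨Finset.eq_of_subset_of_card_le h6 (by omega), ?_⟩
            exact (Finset.eq_of_subset_of_card_le h7 (by omega)).symm
          · have h6 := mRt _ _ h5
            have h7 := mLt _ _ h5
            have h8 := Finset.card_le_card h6
            have h9 := Finset.card_le_card h7
            refine ⟨(Finset.eq_of_subset_of_card_le h6 (by omega)).symm, ?_⟩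
            exact Finset.eq_of_subset_of_card_le h7 (by omega)
        have h5 := heqtr _ _ key.1 key.2
        rw [h1, h3] at h5
        exact Prod.ext h5 (by rw [h2, h4, h5])
    rw [Set.ncard_coe_finset, Finset.card_range] at hle
    exact hle

end

/-- **Pairing of points with respect to half-planes.** -/
theorem half_pairing {n m t : ℕ} (p : Fin n → ℝ × ℝ) (a b c : Fin m → ℝ)
    (S : Fin m → Finset (Fin n))
    (hS : ∀ j i, i ∈ S j ↔ c j ≤ a j * (p i).1 + b j * (p i).2)
    (hdeg : ∀ i : Fin n, (univ.filter (fun j : Fin m => i ∈ S j)).card ≤ t) :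
    ∃ μ : Fin n → Fin n, (∀ i, μ (μ i) = i) ∧ (univ.filter (fun i => μ i = i)).card ≤ 1 ∧
      ∀ j, ((S j).filter (fun i => μ i ∉ S j)).card ≤ 4 * t + 1 := by
  classical
  rcases Nat.eq_zero_or_pos n with hn | hn
  · subst hn
    exact ⟨id, fun i => rfl, by simp, fun j => by
      have : (S j) = ∅ := by ext i; exact i.elim0
      simp [this]⟩
  set i0 : Fin n := ⟨0, hn⟩
  have hlo := fun j => exists_lo (fun i => a j * (p i).1 + b j * (p i).2) (c j)
  choose lo hlo1 hlo2 using hlo
  obtain ⟨c', hc1, hc2⟩ := generic (fun j => a j * (p i0).1 + b j * (p i0).2) lo c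
    (fun j i => a j * (p i).1 + b j * (p i).2) hlo1 univ
  have hin : ∀ j i, i ∈ S j ↔ 0 ≤ lv a b c' j (p i) := by
    intro j i
    rw [hS]
    unfold lv
    constructor
    · intro h
      have := (hc1 j).2
      linarith
    · intro h
      by_contra hcon
      have h1 := hlo2 j i (not_le.1 hcon)
      have h2 := (hc1 j).1
      linarith
  have hne : ∀ j i, lv a b c' j (p i) ≠ 0 := by
    intro j i h
    have h1 : i ∈ S j := (hin j i).2 h.ge
    rw [hS] at h1
    unfold lv at h
    have := (hc1 j).2
    linarith
  have htr : ∀ i j, j ∈ tr a b c' (p i) ↔ i ∈ S j := fun i j => by rw [mem_tr, hin]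
  have hcard : ∀ i, (tr a b c' (p i)).card ≤ t := by
    intro i
    refine le_trans (le_of_eq ?_) (hdeg i)
    congr 1
    ext j
    rw [htr]
    simp
  obtain ⟨μ, h1, h2, h3⟩ := pairing (gr a b c' (2 * t)) (tr a b c' (p i0))
    (fun i => tr a b c' (p i)) (by
      intro i
      refine seg_reach a b c' (2 * t) (p i0) (p i) (by
        have := hcard i0
        have := hcard i
        omega) (fun j => hne j i0) (fun j => hne j i) ?_
      intro j j' hjj h4 h5
      have h6 := hc2 j (Finset.mem_univ _) j' (Finset.mem_univ _) hjj i
        (by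
          intro h
          apply h4
          unfold lv
          linarith)
        (by
          intro h
          apply h5
          unfold lv
          linarith)
      unfold lv
      exact h6)
  refine ⟨μ, h1, h2, fun j => ?_⟩
  have h4 := h3 (fun A => decide (j ∈ A))
  have h5 := edge_count a b c' (2 * t) j
  have h6 : {q : Finset (Fin m) × Finset (Fin m) | decide (j ∈ q.1) = true ∧
      decide (j ∈ q.2) = false ∧ (gr a b c' (2 * t)).Adj q.1 q.2} =
      {q : Finset (Fin m) × Finset (Fin m) |
        j ∈ q.1 ∧ j ∉ q.2 ∧ (gr a b c' (2 * t)).Adj q.1 q.2} := by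
    ext q
    simp only [Set.mem_ofPred_eq, decide_eq_true_eq, decide_eq_false_iff_not]
  rw [h6] at h4
  have h7 : univ.filter (fun i => decide (j ∈ tr a b c' (p i)) = true ∧
      decide (j ∈ tr a b c' (p (μ i))) = false) = (S j).filter (fun i => μ i ∉ S j) := by
    ext i
    simp only [Finset.mem_filter, Finset.mem_univ, true_and, decide_eq_true_eq,
      decide_eq_false_iff_not, htr]
  rw [h7] at h4
  omega

end Pool.Agent.K4H87.BF
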