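import Mathlib

set_option autoImplicit false

/-!
# Rounding in a matroid base polytope with side constraints

A point of the base polytope of a matroid which satisfies packing constraints, with every element
in at most `Δ` of them, can be rounded to a base which violates every constraint by at most `Δ`.
(Király, Lau and Singh.)
-/

open Finset

namespace Pool.Agent.K4H87.BF

section kls

variable {E : Type} [Fintype E] [DecidableEq E] (r : Finset E → ℕ)

/-- tight sets -/
def Tight (z : E → ℝ) (F : Finset E) : Prop := ∑ e ∈ F, z e = r F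

/-- the base polytope -/
structure InPoly (z : E → ℝ) : Prop where
  nn : ∀ e, 0 ≤ z e
  le : ∀ F : Finset E, ∑ e ∈ F, z e ≤ r F
  eq : ∑ e, z e = r univ

variable {r}

theorem InPoly.le_one {z : E → ℝ} (hz : InPoly r z) (h1 : ∀ e, r {e} ≤ 1) (e : E) : z e ≤ 1 := by
  have h2 := hz.le {e}
  rw [Finset.sum_singleton] at h2
  have h3 : (r {e} : ℝ) ≤ 1 := by exact_mod_cast h1 e
  linarith

theorem tight_both (hsub : ∀ F G : Finset E, r (F ∪ G) + r (F ∩ G) ≤ r F + r G) {z : E → ℝ}
    (hz : InPoly r z) {F G : Finset E} (hF : Tight r z F) (hG : Tight r z G) :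
    Tight r z (F ∪ G) ∧ Tight r z (F ∩ G) := by
  have h1 := Finset.sum_union_inter (s₁ := F) (s₂ := G) (f := z)
  have h2 := hz.le (F ∪ G)
  have h3 := hz.le (F ∩ G)
  have h4 : ((r (F ∪ G) + r (F ∩ G) : ℕ) : ℝ) ≤ ((r F + r G : ℕ) : ℝ) := by
    exact_mod_cast hsub F G
  unfold Tight at *
  push_cast at h4
  constructor <;> linarith

open Classical in
/-- smallest tight set containing `e` -/
noncomputable def tset (r : Finset E → ℕ) (z : E → ℝ) (e : E) : Finset E :=
  (univ.filter (fun F => Tight r z F ∧ e ∈ F)).inf id

open Classical in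
/-- the atom of `e` -/
noncomputable def atom (r : Finset E → ℕ) (z : E → ℝ) (e : E) : Finset E :=
  univ.filter (fun e' => ∀ F, Tight r z F → (e ∈ F ↔ e' ∈ F))

theorem mem_atom {z : E → ℝ} {e e' : E} :
    e' ∈ atom r z e ↔ ∀ F, Tight r z F → (e ∈ F ↔ e' ∈ F) := by
  unfold atom
  simp

theorem atom_eq {z : E → ℝ} {e e' : E} : e' ∈ atom r z e ↔ atom r z e' = atom r z e := by
  constructor
  · intro h
    rw [mem_atom] at h
    ext x
    rw [mem_atom, mem_atom]
    constructor
    · intro h1 F hF
      exact (h F hF).trans (h1 F hF)
    · intro h1 F hF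
      exact (h F hF).symm.trans (h1 F hF)
  · intro h
    rw [← h, mem_atom]
    intro F _
    exact Iff.rfl

theorem tset_tight (hsub : ∀ F G : Finset E, r (F ∪ G) + r (F ∩ G) ≤ r F + r G) {z : E → ℝ}
    (hz : InPoly r z) (e : E) : Tight r z (tset r z e) := by
  classical
  unfold tset
  refine Finset.inf_induction (p := fun F => Tight r z F) ?_ ?_ ?_
  · exact hz.eq
  · intro F hF G hG
    exact (tight_both hsub hz hF hG).2
  · intro F hF
    exact (Finset.mem_filter.1 hF).2.1

theorem mem_tset {z : E → ℝ} {e e' : E} :
    e' ∈ tset r z e ↔ ∀ F, Tight r z F → e ∈ F → e' ∈ F := by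
  classical
  unfold tset
  rw [Finset.mem_inf]
  simp only [Finset.mem_filter, Finset.mem_univ, true_and, id]
  constructor
  · intro h F h1 h2
    exact h F ⟨h1, h2⟩
  · rintro h F ⟨h1, h2⟩
    exact h F h1 h2

theorem atom_int (hsub : ∀ F G : Finset E, r (F ∪ G) + r (F ∩ G) ≤ r F + r G) (h0 : r ∅ = 0)
    {z : E → ℝ} (hz : InPoly r z) (e : E) : ∃ k : ℤ, ∑ e' ∈ atom r z e, z e' = k := by
  classical
  set U := (tset r z e \ atom r z e).sup (tset r z) with hU
  have hUt : Tight r z U := by
    rw [hU]
    refine Finset.sup_induction (p := fun F => Tight r z F) ?_ ?_ ?_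
    · unfold Tight
      simp [h0]
    · intro F hF G hG
      exact (tight_both hsub hz hF hG).1
    · intro e' _
      exact tset_tight hsub hz e'
  have hT := tset_tight hsub hz e
  have hself : ∀ x, x ∈ tset r z x := fun x => mem_tset.2 fun F _ h => h
  have hdis : Disjoint (atom r z e) U := by
    rw [Finset.disjoint_left]
    intro x hx hxU
    rw [hU, Finset.mem_sup] at hxU
    obtain ⟨y, hy, hxy⟩ := hxU
    rw [Finset.mem_sdiff] at hy
    apply hy.2
    rw [mem_atom]
    intro F hF
    constructor
    · intro he
      exact mem_tset.1 hy.1 F hF he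
    · intro hyF
      exact (mem_atom.1 hx F hF).2 (mem_tset.1 hxy F hF hyF)
  have hunion : tset r z e = atom r z e ∪ U := by
    ext x
    rw [Finset.mem_union]
    constructor
    · intro hx
      by_cases h : x ∈ atom r z e
      · exact Or.inl h
      · right
        rw [hU, Finset.mem_sup]
        exact ⟨x, Finset.mem_sdiff.2 ⟨hx, h⟩, hself x⟩
    · rintro (hx | hx)
      · rw [mem_tset]
        intro F hF he
        exact (mem_atom.1 hx F hF).1 he
      · rw [hU, Finset.mem_sup] at hx
        obtain ⟨y, hy, hxy⟩ := hx
        rw [Finset.mem_sdiff] at hy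
        rw [mem_tset]
        intro F hF he
        exact mem_tset.1 hxy F hF (mem_tset.1 hy.1 F hF he)
  have h1 : ∑ e' ∈ tset r z e, z e' = ∑ e' ∈ atom r z e, z e' + ∑ e' ∈ U, z e' := by
    rw [hunion, Finset.sum_union hdis]
  refine ⟨(r (tset r z e) : ℤ) - (r U : ℤ), ?_⟩
  unfold Tight at hT hUt
  push_cast
  linarith

/-- small multiples -/
theorem exists_small {K : Type} [Finite K] (x y : K → ℝ) (hy : ∀ i, 0 < y i) :
    ∃ ε : ℝ, 0 < ε ∧ ∀ i, ε * |x i| ≤ y i := by
  have h1 : ∀ᶠ ε : ℝ in nhdsWithin 0 (Set.Ioi 0), ∀ i, ε * |x i| ≤ y i := by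
    rw [Filter.eventually_all]
    intro i
    have h2 : Filter.Tendsto (fun ε : ℝ => ε * |x i|) (nhds 0) (nhds (0 * |x i|)) :=
      (continuous_id.mul continuous_const).tendsto 0
    rw [zero_mul] at h2
    have h3 := h2.eventually (Iio_mem_nhds (hy i))
    exact (h3.filter_mono nhdsWithin_le_nhds).mono fun ε h => le_of_lt h
  obtain ⟨ε, h2, h3⟩ := (h1.and self_mem_nhdsWithin).exists
  exact ⟨ε, h3, h2⟩

theorem kls_aux (hsub : ∀ F G : Finset E, r (F ∪ G) + r (F ∩ G) ≤ r F + r G) (h0 : r ∅ = 0)
    (hr1 : ∀ e, r {e} ≤ 1) {I : Type} [DecidableEq I] (A : I → Finset E) (b : I → ℝ) (Δ : ℕ) (hΔ : 0 < Δ) :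
    ∀ (N : ℕ) (Z O : Finset E) (J : Finset I), (univ \ (Z ∪ O)).card + J.card ≤ N →
    (∀ e, (J.filter (fun j => e ∈ A j)).card ≤ Δ) → Disjoint Z O →
    (∃ z, InPoly r z ∧ (∀ e ∈ Z, z e = 0) ∧ (∀ e ∈ O, z e = 1) ∧ ∀ j ∈ J, ∑ e ∈ A j, z e ≤ b j) →
    ∃ B : Finset E, O ⊆ B ∧ Disjoint B Z ∧ (∀ F, (B ∩ F).card ≤ r F) ∧ B.card = r univ ∧
      ∀ j ∈ J, ((B ∩ A j).card : ℝ) ≤ b j + Δ := by
  classical
  intro N
  induction N with
  | zero =>
    intro Z O J hN hJ hZO hK
    obtain ⟨z, hz, hzZ, hzO, hzJ⟩ := hK
    have hJ0 : J = ∅ := Finset.card_eq_zero.1 (by omega)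
    have hE : univ \ (Z ∪ O) = ∅ := Finset.card_eq_zero.1 (by omega)
    have hzi : ∀ e, z e = if e ∈ O then 1 else 0 := by
      intro e
      have : e ∉ univ \ (Z ∪ O) := by rw [hE]; exact Finset.notMem_empty _
      rw [Finset.mem_sdiff, not_and, not_not] at this
      rcases Finset.mem_union.1 (this (Finset.mem_univ _)) with h | h
      · rw [hzZ e h, if_neg (Finset.disjoint_left.1 hZO h)]
      · rw [hzO e h, if_pos h]
    have hsum : ∀ F : Finset E, ∑ e ∈ F, z e = ((O ∩ F).card : ℝ) := by
      intro F
      simp_rw [hzi]
      rw [Finset.sum_ite_mem, Finset.inter_comm, Finset.sum_const, nsmul_eq_mul, mul_one]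
    refine ⟨O, Finset.Subset.refl _, hZO.symm, fun F => ?_, ?_, ?_⟩
    · have := hz.le F
      rw [hsum] at this
      exact_mod_cast this
    · have := hz.eq
      rw [hsum, Finset.inter_univ] at this
      exact_mod_cast this
    · rw [hJ0]
      simp
  | succ N ih =>
    intro Z O J hN hJ hZO hK
    set K : Set (E → ℝ) := {z | InPoly r z ∧ (∀ e ∈ Z, z e = 0) ∧ (∀ e ∈ O, z e = 1) ∧
      ∀ j ∈ J, ∑ e ∈ A j, z e ≤ b j} with hKdef
    have hKne : K.Nonempty := hK
    have hKcl : IsClosed K := by
      have e1 : K = {z : E → ℝ | ∀ e, 0 ≤ z e} ∩ ({z : E → ℝ | ∀ F : Finset E, ∑ e ∈ F, z e ≤ r F} ∩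
          ({z : E → ℝ | ∑ e, z e = r univ} ∩ ({z : E → ℝ | ∀ e ∈ Z, z e = 0} ∩
          ({z : E → ℝ | ∀ e ∈ O, z e = 1} ∩ {z : E → ℝ | ∀ j ∈ J, ∑ e ∈ A j, z e ≤ b j})))) := by
        ext z
        simp only [hKdef, Set.mem_ofPred_eq, Set.mem_inter_iff]
        constructor
        · rintro ⟨h1, h2, h3, h4⟩
          exact ⟨h1.nn, h1.le, h1.eq, h2, h3, h4⟩
        · rintro ⟨h1, h2, h3, h4, h5, h6⟩
          exact ⟨⟨h1, h2, h3⟩, h4, h5, h6⟩
      rw [e1]
      refine IsClosed.inter ?_ (IsClosed.inter ?_ (IsClosed.inter ?_ (IsClosed.inter ?_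
        (IsClosed.inter ?_ ?_))))
      · simp only [Set.setOf_forall]
        exact isClosed_iInter fun e => isClosed_le continuous_const (continuous_apply e)
      · simp only [Set.setOf_forall]
        exact isClosed_iInter fun F => isClosed_le
          (continuous_finset_sum _ fun e _ => continuous_apply e) continuous_const
      · exact isClosed_eq (continuous_finset_sum _ fun e _ => continuous_apply e) continuous_const
      · simp only [Set.setOf_forall]
        exact isClosed_iInter fun e => isClosed_iInter fun _ =>
          isClosed_eq (continuous_apply e) continuous_const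
      · simp only [Set.setOf_forall]
        exact isClosed_iInter fun e => isClosed_iInter fun _ =>
          isClosed_eq (continuous_apply e) continuous_const
      · simp only [Set.setOf_forall]
        exact isClosed_iInter fun j => isClosed_iInter fun _ => isClosed_le
          (continuous_finset_sum _ fun e _ => continuous_apply e) continuous_const
    have hKc : IsCompact K := by
      refine (isCompact_univ_pi (s := fun _ : E => Set.Icc (0 : ℝ) (r univ))
        fun _ => isCompact_Icc).of_isClosed_subset hKcl ?_
      intro z hz e _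
      refine ⟨hz.1.nn e, ?_⟩
      rw [← hz.1.eq]
      exact Finset.single_le_sum (fun e _ => hz.1.nn e) (Finset.mem_univ e)
    obtain ⟨z, hzext⟩ := hKc.extremePoints_nonempty hKne
    rw [mem_extremePoints] at hzext
    obtain ⟨hzK, hzext⟩ := hzext
    obtain ⟨hz, hzZ, hzO, hzJ⟩ := hzK
    obtain ⟨Ef, hEf⟩ : ∃ Ef, Ef = univ \ (Z ∪ O) := ⟨_, rfl⟩
    rw [← hEf] at hN
    have hmemEf : ∀ e, e ∈ Ef ↔ e ∉ Z ∧ e ∉ O := by
      intro e
      rw [hEf, Finset.mem_sdiff, Finset.mem_union]
      simp
    by_cases hint : ∃ e ∈ Ef, z e = 0 ∨ z e = 1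
    · obtain ⟨e, he, he01⟩ := hint
      obtain ⟨heZ, heO⟩ := (hmemEf e).1 he
      rcases he01 with he0 | he1
      · obtain ⟨B, h1, h2, h3, h4, h5⟩ := ih (insert e Z) O J (by
          have : univ \ (insert e Z ∪ O) = Ef.erase e := by
            ext x
            rw [Finset.mem_erase, hmemEf, Finset.mem_sdiff, Finset.mem_union, Finset.mem_insert]
            simp only [Finset.mem_univ, true_and]
            tauto
          rw [this]
          have := Finset.card_erase_add_one he
          omega) hJ (by
            rw [Finset.disjoint_insert_left]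
            exact ⟨heO, hZO⟩) ⟨z, hz, by
              intro x hx
              rcases Finset.mem_insert.1 hx with rfl | hx
              · exact he0
              · exact hzZ x hx, hzO, hzJ⟩
        refine ⟨B, h1, ?_, h3, h4, h5⟩
        exact Finset.disjoint_of_subset_right (Finset.subset_insert _ _) h2
      · obtain ⟨B, h1, h2, h3, h4, h5⟩ := ih Z (insert e O) J (by
          have : univ \ (Z ∪ insert e O) = Ef.erase e := by
            ext x
            rw [Finset.mem_erase, hmemEf, Finset.mem_sdiff, Finset.mem_union, Finset.mem_insert]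
            simp only [Finset.mem_univ, true_and]
            tauto
          rw [this]
          have := Finset.card_erase_add_one he
          omega) hJ (by
            rw [Finset.disjoint_insert_right]
            exact ⟨heZ, hZO⟩) ⟨z, hz, hzZ, by
              intro x hx
              rcases Finset.mem_insert.1 hx with rfl | hx
              · exact he1
              · exact hzO x hx, hzJ⟩
        exact ⟨B, (Finset.subset_insert _ _).trans h1, h2, h3, h4, h5⟩
    · push Not at hint
      have hpos : ∀ e ∈ Ef, 0 < z e := fun e he =>
        lt_of_le_of_ne (hz.nn e) (Ne.symm (hint e he).1)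
      have hout : ∀ e, e ∉ Ef → z e = if e ∈ O then 1 else 0 := by
        intro e he
        rw [hmemEf, not_and_or, not_not, not_not] at he
        rcases he with h | h
        · rw [hzZ e h, if_neg (Finset.disjoint_left.1 hZO h)]
        · rw [hzO e h, if_pos h]
      by_cases hdrop : ∃ j ∈ J, ∑ e ∈ A j ∩ Ef, (1 - z e) ≤ Δ
      · -- drop a constraint
        obtain ⟨j, hj, hjd⟩ := hdrop
        obtain ⟨B, h1, h2, h3, h4, h5⟩ := ih Z O (J.erase j) (by
          rw [← hEf]
          have := Finset.card_erase_add_one hj
          omega) (fun e => (Finset.card_le_card (Finset.filter_subset_filter _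
            (Finset.erase_subset _ _))).trans (hJ e)) hZO
          ⟨z, hz, hzZ, hzO, fun i hi => hzJ i (Finset.mem_of_mem_erase hi)⟩
        refine ⟨B, h1, h2, h3, h4, fun i hi => ?_⟩
        by_cases hij : i = j
        · subst hij
          have h6 : (B ∩ A i).card ≤ (A i ∩ Ef).card + (A i ∩ O).card := by
            refine le_trans (Finset.card_le_card ?_) (Finset.card_union_le _ _)
            intro x hx
            rw [Finset.mem_inter] at hx
            have hxZ : x ∉ Z := Finset.disjoint_left.1 h2 hx.1
            rw [Finset.mem_union, Finset.mem_inter, Finset.mem_inter, hmemEf]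
            by_cases hxO : x ∈ O
            · exact Or.inr ⟨hx.2, hxO⟩
            · exact Or.inl ⟨hx.2, hxZ, hxO⟩
          have h7 : ((A i ∩ Ef).card : ℝ) = ∑ e ∈ A i ∩ Ef, (1 - z e) + ∑ e ∈ A i ∩ Ef, z e := by
            rw [← Finset.sum_add_distrib]
            simp
          have h8 : ((A i ∩ O).card : ℝ) = ∑ e ∈ A i \ Ef, z e := by
            rw [Finset.sum_congr rfl (g := fun e => if e ∈ O then (1 : ℝ) else 0)]
            · rw [← Finset.sum_filter, Finset.sum_const, nsmul_eq_mul, mul_one]
              congr 2
              ext x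
              rw [Finset.mem_inter, Finset.mem_filter, Finset.mem_sdiff, hmemEf]
              tauto
            · intro x hx
              exact hout x (Finset.mem_sdiff.1 hx).2
          have h9 : ∑ e ∈ A i, z e = ∑ e ∈ A i ∩ Ef, z e + ∑ e ∈ A i \ Ef, z e := by
            rw [← Finset.sum_union (Finset.disjoint_left.2 (by
              intro x hx hx'
              exact (Finset.mem_sdiff.1 hx').2 (Finset.mem_inter.1 hx).2))]
            congr 1
            ext x
            rw [Finset.mem_union, Finset.mem_inter, Finset.mem_sdiff]
            tauto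
          have h10 := hzJ i hj
          have h11 : ((B ∩ A i).card : ℝ) ≤ ((A i ∩ Ef).card : ℝ) + ((A i ∩ O).card : ℝ) := by
            exact_mod_cast h6
          linarith
        · exact h5 i (Finset.mem_erase.2 ⟨hij, hi⟩)
      · push Not at hdrop
        by_cases hEfne : Ef = ∅
        · -- everything is integral
          have hzi : ∀ e, z e = if e ∈ O then 1 else 0 := by
            intro e
            exact hout e (by rw [hEfne]; exact Finset.notMem_empty _)
          have hsum : ∀ F : Finset E, ∑ e ∈ F, z e = ((O ∩ F).card : ℝ) := by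
            intro F
            simp_rw [hzi]
            rw [Finset.sum_ite_mem, Finset.inter_comm, Finset.sum_const, nsmul_eq_mul, mul_one]
          refine ⟨O, Finset.Subset.refl _, hZO.symm, fun F => ?_, ?_, fun j hj => ?_⟩
          · have := hz.le F
            rw [hsum] at this
            exact_mod_cast this
          · have := hz.eq
            rw [hsum, Finset.inter_univ] at this
            exact_mod_cast this
          · have := hzJ j hj
            rw [hsum] at this
            have : (0 : ℝ) ≤ Δ := Nat.cast_nonneg _
            linarith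
        · exfalso
          set 𝒜 := Ef.image (atom r z) with h𝒜
          -- fewer constraints than fractional elements
          have hat : (𝒜.card : ℝ) ≤ ∑ e ∈ Ef, z e := by
            rw [← Finset.sum_fiberwise_of_maps_to (s := Ef) (t := 𝒜) (g := atom r z)
              (fun e he => Finset.mem_image_of_mem _ he) z]
            have : ∀ D ∈ 𝒜, (1 : ℝ) ≤ ∑ e ∈ Ef.filter (fun e => atom r z e = D), z e := by
              intro D hD
              rw [h𝒜, Finset.mem_image] at hD
              obtain ⟨e0, he0, rfl⟩ := hD
              obtain ⟨k, hk⟩ := atom_int hsub h0 hz e0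
              have e1 : ∑ e ∈ atom r z e0, z e =
                  ∑ e ∈ Ef.filter (fun e => atom r z e = atom r z e0), z e +
                  ∑ e ∈ (atom r z e0) \ Ef, z e := by
                rw [← Finset.sum_union (Finset.disjoint_left.2 (by
                  intro x hx hx'
                  exact (Finset.mem_sdiff.1 hx').2 (Finset.mem_filter.1 hx).1))]
                congr 1
                ext x
                rw [Finset.mem_union, Finset.mem_filter, Finset.mem_sdiff, atom_eq]
                tauto
              have e2 : ∑ e ∈ (atom r z e0) \ Ef, z e = (((atom r z e0) \ Ef ∩ O).card : ℝ) := by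
                rw [Finset.sum_congr rfl (g := fun e => if e ∈ O then (1 : ℝ) else 0)]
                · rw [Finset.sum_ite_mem, Finset.sum_const, nsmul_eq_mul, mul_one]
                · intro x hx
                  exact hout x (Finset.mem_sdiff.1 hx).2
              have e3 : 0 < ∑ e ∈ Ef.filter (fun e => atom r z e = atom r z e0), z e := by
                have h1 : z e0 ≤ ∑ e ∈ Ef.filter (fun e => atom r z e = atom r z e0), z e :=
                  Finset.single_le_sum (f := z) (fun e _ => hz.nn e)
                    (Finset.mem_filter.2 ⟨he0, rfl⟩)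
                exact lt_of_lt_of_le (hpos e0 he0) h1
              have e4 : ∑ e ∈ Ef.filter (fun e => atom r z e = atom r z e0), z e =
                  ((k - (((atom r z e0) \ Ef ∩ O).card : ℤ) : ℤ) : ℝ) := by
                push_cast
                linarith
              rw [e4] at e3 ⊢
              have e5 : 0 < (k - (((atom r z e0) \ Ef ∩ O).card : ℤ) : ℤ) := by exact_mod_cast e3
              exact_mod_cast e5
            calc (𝒜.card : ℝ) = ∑ D ∈ 𝒜, (1 : ℝ) := by simp
              _ ≤ _ := Finset.sum_le_sum this
          have hJc : (J.card : ℝ) < ∑ e ∈ Ef, (1 - z e) := by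
            have hΔr : (0 : ℝ) < Δ := by exact_mod_cast hΔ
            have hle : ∀ e ∈ Ef, z e < 1 := fun e he =>
              lt_of_le_of_ne (hz.le_one hr1 e) (hint e he).2
            rcases Finset.eq_empty_or_nonempty J with hJe | hJne
            · rw [hJe]
              simp only [Finset.card_empty, Nat.cast_zero]
              refine Finset.sum_pos (fun e he => by linarith [hle e he])
                (Finset.nonempty_iff_ne_empty.2 hEfne)
            · have h1 : ∑ j ∈ J, (Δ : ℝ) < ∑ j ∈ J, ∑ e ∈ A j ∩ Ef, (1 - z e) :=
                Finset.sum_lt_sum_of_nonempty hJne hdrop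
              have h2 : ∑ j ∈ J, ∑ e ∈ A j ∩ Ef, (1 - z e) =
                  ∑ e ∈ Ef, (1 - z e) * ((J.filter (fun j => e ∈ A j)).card : ℝ) := by
                have e1 : ∀ j ∈ J, ∑ e ∈ A j ∩ Ef, (1 - z e) =
                    ∑ e ∈ Ef, if e ∈ A j then (1 - z e) else 0 := by
                  intro j _
                  rw [← Finset.sum_filter]
                  congr 1
                  ext x
                  rw [Finset.mem_inter, Finset.mem_filter]
                  tauto
                rw [Finset.sum_congr rfl e1, Finset.sum_comm]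
                refine Finset.sum_congr rfl fun e _ => ?_
                rw [← Finset.sum_filter, Finset.sum_const, nsmul_eq_mul, mul_comm]
              have h3 : ∑ e ∈ Ef, (1 - z e) * ((J.filter (fun j => e ∈ A j)).card : ℝ) ≤
                  ∑ e ∈ Ef, (1 - z e) * Δ := by
                refine Finset.sum_le_sum fun e he => ?_
                refine mul_le_mul_of_nonneg_left (by exact_mod_cast hJ e) ?_
                linarith [hle e he]
              rw [← Finset.sum_mul] at h3
              rw [Finset.sum_const, nsmul_eq_mul] at h1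
              have h4 : (J.card : ℝ) * Δ < (∑ e ∈ Ef, (1 - z e)) * Δ := by linarith
              exact lt_of_mul_lt_mul_right h4 hΔr.le
          have hcount : 𝒜.card + J.card < Ef.card := by
            have h1 : ∑ e ∈ Ef, (1 - z e) = (Ef.card : ℝ) - ∑ e ∈ Ef, z e := by
              rw [Finset.sum_sub_distrib]
              simp
            have h2 : ((𝒜.card + J.card : ℕ) : ℝ) < (Ef.card : ℝ) := by
              push_cast
              linarith
            exact_mod_cast h2
          -- a direction
          set Sw : (↥𝒜 ⊕ ↥J) → Finset E := Sum.elim (fun D => D.1) (fun j => A j.1) with hSw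
          set L : (↥Ef → ℝ) →ₗ[ℝ] ((↥𝒜 ⊕ ↥J) → ℝ) :=
            LinearMap.pi fun w => ∑ e : ↥Ef, (if e.1 ∈ Sw w then (1 : ℝ) else 0) •
              LinearMap.proj e with hL
          have hker : LinearMap.ker L ≠ ⊥ := by
            apply LinearMap.ker_ne_bot_of_finrank_lt
            rw [Module.finrank_fintype_fun_eq_card, Module.finrank_fintype_fun_eq_card]
            simpa using hcount
          obtain ⟨d, hdk, hd0⟩ := (Submodule.ne_bot_iff _).1 hker
          rw [LinearMap.mem_ker] at hdk
          set d' : E → ℝ := fun e => if h : e ∈ Ef then d ⟨e, h⟩ else 0 with hd'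
          have hd'out : ∀ e, e ∉ Ef → d' e = 0 := fun e he => by simp only [hd', dif_neg he]
          have hsumd : ∀ F : Finset E, ∑ e ∈ F, d' e = ∑ e ∈ Ef, if e ∈ F then d' e else 0 := by
            intro F
            rw [← Finset.sum_filter, Finset.filter_mem_eq_inter]
            refine (Finset.sum_subset Finset.inter_subset_right ?_).symm
            intro x hx hx2
            apply hd'out
            intro hx3
            exact hx2 (Finset.mem_inter.2 ⟨hx3, hx⟩)
          have hdS : ∀ w, ∑ e ∈ Sw w, d' e = 0 := by
            intro w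
            have h1 := congrFun hdk w
            rw [hL, LinearMap.pi_apply] at h1
            simp only [LinearMap.sum_apply, LinearMap.smul_apply, LinearMap.proj_apply,
              smul_eq_mul, Pi.zero_apply] at h1
            rw [hsumd, ← Finset.sum_coe_sort]
            refine Eq.trans ?_ h1
            refine Finset.sum_congr rfl fun e _ => ?_
            simp only [hd']
            split_ifs with h2 h3
            · rw [one_mul]
            · exact absurd e.2 h3
            · rw [zero_mul]
          have hdA : ∀ j ∈ J, ∑ e ∈ A j, d' e = 0 := fun j hj => hdS (Sum.inr ⟨j, hj⟩)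
          have hdD : ∀ D ∈ 𝒜, ∑ e ∈ D, d' e = 0 := fun D hD => hdS (Sum.inl ⟨D, hD⟩)
          have hdT : ∀ F, Tight r z F → ∑ e ∈ F, d' e = 0 := by
            intro F hF
            have e1 : ∑ e ∈ F, d' e = ∑ e ∈ F ∩ Ef, d' e := by
              refine (Finset.sum_subset Finset.inter_subset_left ?_).symm
              intro x hx hx2
              apply hd'out
              intro hx3
              exact hx2 (Finset.mem_inter.2 ⟨hx, hx3⟩)
            rw [e1, ← Finset.sum_fiberwise_of_maps_to (s := F ∩ Ef) (t := 𝒜) (g := atom r z)
              (fun e he => Finset.mem_image_of_mem _ (Finset.mem_inter.1 he).2) d']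
            refine Finset.sum_eq_zero fun D hD => ?_
            rcases Finset.eq_empty_or_nonempty ((F ∩ Ef).filter (fun e => atom r z e = D)) with
              h1 | ⟨e1, h1⟩
            · rw [h1, Finset.sum_empty]
            · rw [Finset.mem_filter, Finset.mem_inter] at h1
              obtain ⟨⟨h2, h3⟩, h4⟩ := h1
              rw [← hdD D hD]
              refine Finset.sum_subset ?_ ?_
              · intro x hx
                rw [Finset.mem_filter] at hx
                rw [← hx.2]
                exact atom_eq.2 rfl
              · intro x hx hx2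
                apply hd'out
                intro hx3
                apply hx2
                rw [← h4, atom_eq] at hx
                rw [Finset.mem_filter, Finset.mem_inter]
                refine ⟨⟨?_, hx3⟩, hx.trans h4⟩
                have h5 := mem_atom.1 (atom_eq.2 hx) F hF
                exact h5.1 h2
          -- move
          obtain ⟨ε, hε, hε2⟩ := exists_small (K := ↥Ef ⊕ {F : Finset E // ¬ Tight r z F})
            (Sum.elim (fun e => d' e.1) (fun F => ∑ e ∈ F.1, d' e))
            (Sum.elim (fun e => z e.1) (fun F => r F.1 - ∑ e ∈ F.1, z e))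
            (by
              rintro (e | F)
              · exact hpos e.1 e.2
              · simp only [Sum.elim_inr]
                have := lt_of_le_of_ne (hz.le F.1) F.2
                linarith)
          have hmove : ∀ σ : ℝ, |σ| = ε → (fun e => z e + σ * d' e) ∈ K := by
            intro σ hσ
            have hab : ∀ e, -(ε * |d' e|) ≤ σ * d' e ∧ σ * d' e ≤ ε * |d' e| := by
              intro e
              rw [← abs_le, abs_mul, hσ]
            have hsm : ∀ F : Finset E, ∑ e ∈ F, (z e + σ * d' e) =
                ∑ e ∈ F, z e + σ * ∑ e ∈ F, d' e := by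
              intro F
              rw [Finset.sum_add_distrib, Finset.mul_sum]
            refine ⟨⟨?_, ?_, ?_⟩, ?_, ?_, ?_⟩
            · intro e
              by_cases he : e ∈ Ef
              · have h1 := hε2 (Sum.inl ⟨e, he⟩)
                simp only [Sum.elim_inl] at h1
                have := (hab e).1
                linarith
              · rw [hd'out e he, mul_zero, add_zero]
                exact hz.nn e
            · intro F
              rw [hsm]
              by_cases hF : Tight r z F
              · rw [hdT F hF, mul_zero, add_zero]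
                exact hz.le F
              · have h1 := hε2 (Sum.inr ⟨F, hF⟩)
                simp only [Sum.elim_inr] at h1
                have h2 : σ * ∑ e ∈ F, d' e ≤ ε * |∑ e ∈ F, d' e| := by
                  rw [← hσ, ← abs_mul]
                  exact le_abs_self _
                linarith
            · rw [hsm, hdT univ hz.eq, mul_zero, add_zero]
              exact hz.eq
            · intro e he
              have : e ∉ Ef := fun h => ((hmemEf e).1 h).1 he
              simp only [hd'out e this, mul_zero, add_zero]
              exact hzZ e he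
            · intro e he
              have : e ∉ Ef := fun h => ((hmemEf e).1 h).2 he
              simp only [hd'out e this, mul_zero, add_zero]
              exact hzO e he
            · intro j hj
              rw [hsm, hdA j hj, mul_zero, add_zero]
              exact hzJ j hj
          have h1 := hmove ε (abs_of_pos hε)
          have h2 := hmove (-ε) (by rw [abs_neg, abs_of_pos hε])
          have h3 := (hzext _ h1 _ h2 ⟨1 / 2, 1 / 2, by norm_num, by norm_num, by norm_num, by
            funext e
            simp only [Pi.add_apply, Pi.smul_apply, smul_eq_mul]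
            ring⟩).1
          apply hd0
          funext e
          have h4 := congrFun h3 e.1
          simp only [hd', dif_pos e.2] at h4
          have h5 : ε * d e = 0 := by linarith
          rcases mul_eq_zero.1 h5 with h6 | h6
          · exact absurd h6 hε.ne'
          · exact h6

/-- **Rounding in a matroid base polytope with packing constraints.** -/
theorem kls (hsub : ∀ F G : Finset E, r (F ∪ G) + r (F ∩ G) ≤ r F + r G) (h0 : r ∅ = 0)
    (hr1 : ∀ e, r {e} ≤ 1) {I : Type} [Fintype I] [DecidableEq I] (A : I → Finset E)
    (b : I → ℝ) (Δ : ℕ) (hΔ : 0 < Δ) (hJ : ∀ e, (univ.filter (fun j => e ∈ A j)).card ≤ Δ)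
    (z : E → ℝ) (hz : InPoly r z) (hb : ∀ j, ∑ e ∈ A j, z e ≤ b j) :
    ∃ B : Finset E, (∀ F, (B ∩ F).card ≤ r F) ∧ B.card = r univ ∧
      ∀ j, ((B ∩ A j).card : ℝ) ≤ b j + Δ := by
  obtain ⟨B, _, _, h1, h2, h3⟩ := kls_aux hsub h0 hr1 A b Δ hΔ _ ∅ ∅ univ le_rfl hJ
    (Finset.disjoint_empty_left _) ⟨z, hz, by simp, by simp, fun j _ => hb j⟩
  exact ⟨B, h1, h2, fun j => h3 j (Finset.mem_univ _)⟩

end kls

end Pool.Agent.K4H87.BF
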