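import Pool.Agent.K4H87.BF.Tree

set_option autoImplicit false

/-!
# Spanning trees with low crossing number
-/

open Finset

namespace Pool.Agent.K4H87.BF

/-- A connected graph on the points with few edges crossed by every set, for set systems with
linearly many cells and bounded degree. -/
theorem low_tree {V I : Type} [Fintype V] [DecidableEq V] [Fintype I] [DecidableEq I] [Nonempty V]
    (R : V → Finset I) (t d : ℕ) (ht : 1 ≤ t) (hd1 : 1 ≤ d) (hR : ∀ v, (R v).card ≤ t)
    (hd : ∀ B : Finset I, B.card = d + 1 → ¬ ∀ C ⊆ B, ∃ v, R v ∩ B = C)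
    (L : ℝ) (hL0 : 0 ≤ L)
    (hL : ∀ A : Finset I, ((univ.image (fun v => R v ∩ A)).card : ℝ) ≤ L * A.card + 1) :
    ∃ B : Finset (V × V), (∀ x y, (SimpleGraph.fromRel (fun u v => (u, v) ∈ B)).Reachable x y) ∧
      ∀ i : I, ((B.filter (fun e => i ∈ symmDiff (R e.1) (R e.2))).card : ℝ) ≤
        (3 + 32 * L * d * (Nat.log 2 t + 2)) + 2 * t := by
  classical
  rcases isEmpty_or_nonempty I with hI | hI
  · refine ⟨univ, fun x y => ?_, fun i => (hI.false i).elim⟩
    by_cases hxy : x = y
    · rw [hxy]
    · refine SimpleGraph.Adj.reachable ?_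
      rw [SimpleGraph.fromRel_adj]
      exact ⟨hxy, Or.inl (Finset.mem_univ _)⟩
  set K0 : ℝ := 3 + 32 * L * d * (Nat.log 2 t + 2) with hK0
  let D : Type := {T : Finset (V × V) // LinearIndepOn ℝ (av (V := V)) (T : Set (V × V)) ∧
    T.card + 1 = Fintype.card V}
  haveI : Fintype D := Fintype.ofFinite D
  haveI : Nonempty D := by
    obtain ⟨T, h1, h2, _⟩ := tree_cost R (fun _ => 0) (fun _ => le_rfl) t d ht hd1 hR hd L hL0 hL
    exact ⟨⟨T, h1, h2⟩⟩
  obtain ⟨δ, hδ0, hδ1, hδ2⟩ := minimax (A := I) (D := D)
    (fun i T => ((T.1.filter (fun e => i ∈ symmDiff (R e.1) (R e.2))).card : ℝ)) K0 (by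
      intro α hα hα1
      obtain ⟨T, h1, h2, h3⟩ := tree_cost R α hα t d ht hd1 hR hd L hL0 hL
      refine ⟨⟨T, h1, h2⟩, ?_⟩
      rw [hα1, mul_one] at h3
      refine le_trans (le_of_eq ?_) h3
      unfold dw
      calc ∑ i, α i * ((T.filter (fun e => i ∈ symmDiff (R e.1) (R e.2))).card : ℝ)
          = ∑ i, ∑ e ∈ T, (if i ∈ symmDiff (R e.1) (R e.2) then α i else 0) := by
            refine Finset.sum_congr rfl fun i _ => ?_
            rw [Finset.card_filter, Nat.cast_sum, Finset.mul_sum]
            refine Finset.sum_congr rfl fun e _ => ?_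
            split_ifs <;> simp
        _ = ∑ e ∈ T, ∑ i, (if i ∈ symmDiff (R e.1) (R e.2) then α i else 0) := Finset.sum_comm
        _ = ∑ e ∈ T, ∑ i ∈ symmDiff (R e.1) (R e.2), α i := by
            refine Finset.sum_congr rfl fun e _ => ?_
            rw [← Finset.sum_filter]
            refine Finset.sum_congr ?_ fun _ _ => rfl
            ext i
            simp)
  set z : V × V → ℝ := fun e => ∑ T : D, δ T * (if e ∈ T.1 then 1 else 0) with hz
  have hzF : ∀ F : Finset (V × V), ∑ e ∈ F, z e = ∑ T : D, δ T * ((T.1 ∩ F).card : ℝ) := by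
    intro F
    rw [hz]
    simp only
    rw [Finset.sum_comm]
    refine Finset.sum_congr rfl fun T _ => ?_
    rw [← Finset.mul_sum]
    congr 1
    rw [← Finset.sum_filter, Finset.sum_const, nsmul_eq_mul, mul_one]
    congr 2
    ext e
    simp [and_comm]
  have hrkuniv : rk (univ : Finset (V × V)) + 1 ≤ Fintype.card V := rk_univ_lt
  have hpoly : InPoly rk z := by
    refine ⟨fun e => ?_, fun F => ?_, ?_⟩
    · exact Finset.sum_nonneg fun T _ => mul_nonneg (hδ0 T) (by split_ifs <;> norm_num)
    · rw [hzF]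
      calc ∑ T : D, δ T * ((T.1 ∩ F).card : ℝ) ≤ ∑ T : D, δ T * (rk F : ℝ) := by
            refine Finset.sum_le_sum fun T _ => mul_le_mul_of_nonneg_left ?_ (hδ0 T)
            exact_mod_cast card_le_rk T.2.1 F
        _ = rk F := by rw [← Finset.sum_mul, hδ1, one_mul]
    · rw [hzF]
      have h1 : ∀ T : D, ((T.1 ∩ univ).card : ℝ) = rk (univ : Finset (V × V)) := by
        intro T
        have h2 := card_le_rk T.2.1 univ
        have h3 := T.2.2
        rw [Finset.inter_univ] at h2 ⊢
        have : T.1.card = rk (univ : Finset (V × V)) := by omega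
        exact_mod_cast this
      calc ∑ T : D, δ T * ((T.1 ∩ univ).card : ℝ)
          = ∑ T : D, δ T * (rk (univ : Finset (V × V)) : ℝ) :=
            Finset.sum_congr rfl fun T _ => by rw [h1 T]
        _ = _ := by rw [← Finset.sum_mul, hδ1, one_mul]
  obtain ⟨B, hB1, hB2, hB3⟩ := kls rk_sub rk_empty rk_single
    (fun i : I => univ.filter (fun e : V × V => i ∈ symmDiff (R e.1) (R e.2))) (fun _ => K0)
    (2 * t) (by omega) (by
      intro e
      have h1 : univ.filter (fun i : I => e ∈ univ.filter
          (fun e : V × V => i ∈ symmDiff (R e.1) (R e.2))) = symmDiff (R e.1) (R e.2) := by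
        ext i
        simp
      rw [h1]
      have h2 : (symmDiff (R e.1) (R e.2)).card ≤ (R e.1).card + (R e.2).card := by
        refine le_trans (Finset.card_le_card ?_) (Finset.card_union_le _ _)
        intro i hi
        rw [Finset.mem_symmDiff] at hi
        rw [Finset.mem_union]
        tauto
      have h3 := hR e.1
      have h4 := hR e.2
      omega) z hpoly (by
      intro i
      rw [hzF]
      refine le_trans (le_of_eq ?_) (hδ2 i)
      refine Finset.sum_congr rfl fun T _ => ?_
      congr 3
      ext e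
      simp)
  refine ⟨B, connected_of_rank B ?_, fun i => ?_⟩
  · have := hB1 B
    rw [Finset.inter_self, hB2] at this
    exact this
  · have h1 := hB3 i
    push_cast at h1
    refine le_trans (le_of_eq ?_) h1
    congr 2
    ext e
    simp

end Pool.Agent.K4H87.BF
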