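import Mathlib

set_option autoImplicit false

/-! The finite minimax theorem (from the starting file `Pool.Agent.MP5de19d.Core`). -/

namespace Pool.Agent.K4H87.BF

/-- Finite minimax theorem (in the form needed). -/
theorem minimax {A D : Type*} [Fintype A] [Fintype D] [Nonempty A] [Nonempty D]
    (M : A → D → ℝ) (v : ℝ)
    (h : ∀ α : A → ℝ, (∀ a, 0 ≤ α a) → ∑ a, α a = 1 → ∃ d, ∑ a, α a * M a d ≤ v) :
    ∃ δ : D → ℝ, (∀ d, 0 ≤ δ d) ∧ ∑ d, δ d = 1 ∧ ∀ a, ∑ d, δ d * M a d ≤ v := by
  classical
  let L : (D → ℝ) →ₗ[ℝ] (A → ℝ) :=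
    { toFun := fun δ a => ∑ d, δ d * M a d
      map_add' := by
        intro x y; ext a; simp [add_mul, Finset.sum_add_distrib]
      map_smul' := by
        intro c x; ext a; simp [mul_assoc, Finset.mul_sum] }
  have hLc : Continuous L := L.continuous_of_finiteDimensional
  set C : Set (A → ℝ) := L '' (stdSimplex ℝ D) with hC
  set K : Set (A → ℝ) := {z | ∀ a, z a ≤ v} with hK
  have hCconv : Convex ℝ C := (convex_stdSimplex ℝ D).linear_image L
  have hCcomp : IsCompact C := (isCompact_stdSimplex ℝ D).image hLc
  have hKconv : Convex ℝ K := by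
    intro x hx y hy a b ha hb hab i
    have h1 := hx i
    have h2 := hy i
    simp only [Pi.add_apply, Pi.smul_apply, smul_eq_mul]
    calc a * x i + b * y i ≤ a * v + b * v :=
          add_le_add (mul_le_mul_of_nonneg_left h1 ha) (mul_le_mul_of_nonneg_left h2 hb)
      _ = v := by rw [← add_mul, hab, one_mul]
  have hKclosed : IsClosed K := by
    have : K = ⋂ a, {z : A → ℝ | z a ≤ v} := by ext z; simp [hK]
    rw [this]
    exact isClosed_iInter fun a => isClosed_le (continuous_apply a) continuous_const
  by_cases hdisj : Disjoint C K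
  · exfalso
    obtain ⟨F, u, w, hF1, huw, hF2⟩ :=
      geometric_hahn_banach_compact_closed hCconv hCcomp hKconv hKclosed hdisj
    -- coefficients of `F`
    set c : A → ℝ := fun a => F (Pi.single a 1) with hc
    have hFc : ∀ z : A → ℝ, F z = ∑ a, z a * c a := by
      intro z
      have : z = ∑ a, z a • (Pi.single a 1 : A → ℝ) := by
        ext b
        simp [Finset.sum_apply, Pi.single_apply]
      conv_lhs => rw [this]
      simp [map_sum, hc]
    have hcneg : ∀ a, c a ≤ 0 := by
      intro a
      by_contra hpos
      push Not at hpos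
      -- take z = const v - n * single a
      obtain ⟨n, hn⟩ := exists_nat_gt ((∑ b, v * c b - w) / c a)
      have hmem : (fun b => v - (n : ℝ) * (Pi.single a (1:ℝ) : A → ℝ) b) ∈ K := by
        intro b
        have : 0 ≤ (n : ℝ) * (Pi.single a (1:ℝ) : A → ℝ) b := by
          apply mul_nonneg (Nat.cast_nonneg n)
          by_cases hb : b = a
          · subst hb; simp
          · simp [hb]
        linarith
      have := hF2 _ hmem
      rw [hFc] at this
      have h3 : ∑ b, (v - (n : ℝ) * (Pi.single a (1:ℝ) : A → ℝ) b) * c b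
          = ∑ b, v * c b - n * c a := by
        simp only [sub_mul, Finset.sum_sub_distrib]
        congr 1
        rw [Finset.sum_eq_single a]
        · simp
        · intro b _ hb; simp [hb]
        · simp
      rw [h3] at this
      rw [div_lt_iff₀ hpos] at hn
      linarith
    set S : ℝ := ∑ a, -(c a) with hS
    have hSnonneg : 0 ≤ S := Finset.sum_nonneg fun a _ => by linarith [hcneg a]
    have hSpos : 0 < S := by
      rcases hSnonneg.eq_or_lt with h0 | h0
      · exfalso
        have hz : ∀ a ∈ Finset.univ, -(c a) = 0 := by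
          rw [← Finset.sum_eq_zero_iff_of_nonneg]
          · exact h0.symm
          · intro a _; linarith [hcneg a]
        have hF0 : ∀ z, F z = 0 := by
          intro z
          rw [hFc]
          apply Finset.sum_eq_zero
          intro a ha
          have := hz a ha
          have : c a = 0 := by linarith
          rw [this, mul_zero]
        obtain ⟨d⟩ := (inferInstance : Nonempty D)
        have hd : L (Pi.single d 1) ∈ C := ⟨_, single_mem_stdSimplex ℝ d, rfl⟩
        have h1 := hF1 _ hd
        have h2 := hF2 (fun _ => v) (fun _ => le_refl v)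
        rw [hF0] at h1 h2
        linarith
      · exact h0
    obtain ⟨d, hd⟩ := h (fun a => -(c a) / S) (fun a => div_nonneg (by linarith [hcneg a]) hSnonneg)
      (by rw [← Finset.sum_div]; exact div_self hSpos.ne')
    have h1 := hF1 (L (Pi.single d 1)) ⟨_, single_mem_stdSimplex ℝ d, rfl⟩
    have h2 := hF2 (fun _ => v) (fun _ => le_refl v)
    rw [hFc] at h1 h2
    have h3 : ∀ a, (L (Pi.single d 1)) a = M a d := by
      intro a
      change ∑ d', (Pi.single d (1:ℝ) : D → ℝ) d' * M a d' = M a d
      rw [Finset.sum_eq_single d]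
      · simp
      · intro b _ hb; simp [hb]
      · simp
    simp only [h3] at h1
    have h4 : ∑ a, -(c a) / S * M a d = -(∑ a, M a d * c a) / S := by
      rw [← Finset.sum_neg_distrib, Finset.sum_div]
      apply Finset.sum_congr rfl
      intro a _
      ring
    rw [h4, div_le_iff₀ hSpos] at hd
    have h5 : ∑ a : A, v * c a = -(v * S) := by
      rw [hS, Finset.mul_sum, ← Finset.sum_neg_distrib]
      apply Finset.sum_congr rfl
      intro a _; ring
    rw [h5] at h2
    linarith
  · rw [Set.not_disjoint_iff] at hdisj
    obtain ⟨z, ⟨δ, hδ, rfl⟩, hz⟩ := hdisj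
    exact ⟨δ, hδ.1, hδ.2, hz⟩



end Pool.Agent.K4H87.BF
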