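import Mathlib

set_option autoImplicit false

/-!
# A packing lemma for independent sampling (after Haussler)
-/

open Finset

namespace Pool.Agent.K4H87.BF

section pack

variable {I : Type} [DecidableEq I]

/-- weighted number of edges of the cube of the subsets of `A` -/
def edg (A : Finset I) (W : Finset I → ℕ) : ℕ :=
  ∑ i ∈ A, ∑ Q ∈ (A.erase i).powerset, min (W Q) (W (insert i Q))

/-- the support of `W` shatters `B` -/
def Shat (A : Finset I) (W : Finset I → ℕ) (B : Finset I) : Prop :=
  ∀ C ⊆ B, ∃ Q ⊆ A, 0 < W Q ∧ Q ∩ B = C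

theorem min_split (a b c d : ℕ) :
    min a b + min c d ≤ min (max a c) (max b d) + min (min a c) (min b d) := by
  omega

theorem edg_le (A : Finset I) : ∀ (d : ℕ) (W : Finset I → ℕ),
    (∀ B ⊆ A, B.card = d + 1 → ¬ Shat A W B) → edg A W ≤ d * ∑ Q ∈ A.powerset, W Q := by
  induction A using Finset.induction_on with
  | empty =>
    intro d W _
    simp [edg]
  | insert a A ha ih =>
    intro d W hW
    set W1 : Finset I → ℕ := fun Q => max (W Q) (W (insert a Q)) with hW1
    set W2 : Finset I → ℕ := fun Q => min (W Q) (W (insert a Q)) with hW2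
    have hsum : ∑ Q ∈ (insert a A).powerset, W Q =
        ∑ Q ∈ A.powerset, W1 Q + ∑ Q ∈ A.powerset, W2 Q := by
      rw [Finset.sum_powerset_insert ha, ← Finset.sum_add_distrib, ← Finset.sum_add_distrib]
      refine Finset.sum_congr rfl fun Q _ => ?_
      simp only [hW1, hW2]
      omega
    have hedg : edg (insert a A) W ≤ ∑ Q ∈ A.powerset, W2 Q + (edg A W1 + edg A W2) := by
      unfold edg
      rw [Finset.sum_insert ha, Finset.erase_insert ha]
      refine Nat.add_le_add_left ?_ _
      rw [← Finset.sum_add_distrib]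
      refine Finset.sum_le_sum fun i hi => ?_
      have hia : i ≠ a := fun h => ha (h ▸ hi)
      have e1 : (insert a A).erase i = insert a (A.erase i) :=
        Finset.erase_insert_of_ne hia.symm
      have ha' : a ∉ A.erase i := fun h => ha (Finset.mem_of_mem_erase h)
      rw [e1, Finset.sum_powerset_insert ha', ← Finset.sum_add_distrib, ← Finset.sum_add_distrib]
      refine Finset.sum_le_sum fun Q _ => ?_
      have e2 : insert i (insert a Q) = insert a (insert i Q) := Finset.insert_comm _ _ _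
      rw [e2]
      simp only [hW1, hW2]
      have := min_split (W Q) (W (insert i Q)) (W (insert a Q)) (W (insert a (insert i Q)))
      omega
    have hs1 : ∀ B ⊆ A, B.card = d + 1 → ¬ Shat A W1 B := by
      intro B hB hBc hsh
      apply hW B (hB.trans (Finset.subset_insert _ _)) hBc
      intro C hC
      obtain ⟨Q, hQ, hQ1, hQ2⟩ := hsh C hC
      have haB : a ∉ B := fun h => ha (hB h)
      simp only [hW1] at hQ1
      rcases Nat.eq_zero_or_pos (W Q) with h | h
      · refine ⟨insert a Q, Finset.insert_subset_insert _ hQ, by omega, ?_⟩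
        rw [Finset.insert_inter_of_notMem haB, hQ2]
      · exact ⟨Q, hQ.trans (Finset.subset_insert _ _), h, hQ2⟩
    have h1 := ih d W1 hs1
    rcases Nat.eq_zero_or_pos d with hd | hd
    · -- no shattered singleton
      subst hd
      have hW20 : ∀ Q ∈ A.powerset, W2 Q = 0 := by
        intro Q hQ
        rw [Finset.mem_powerset] at hQ
        by_contra hne
        simp only [hW2] at hne
        apply hW {a} (by simp) (by simp)
        intro C hC
        rcases Finset.subset_singleton_iff.1 hC with h | h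
        · refine ⟨Q, hQ.trans (Finset.subset_insert _ _), by omega, ?_⟩
          rw [h, Finset.inter_singleton_of_notMem (fun h => ha (hQ h))]
        · refine ⟨insert a Q, Finset.insert_subset_insert _ hQ, by omega, ?_⟩
          rw [h, Finset.inter_singleton_of_mem (Finset.mem_insert_self _ _)]
      have h2 : edg A W2 = 0 := by
        unfold edg
        refine Finset.sum_eq_zero fun i _ => Finset.sum_eq_zero fun Q hQ => ?_
        rw [hW20 Q (Finset.mem_powerset.2 ((Finset.mem_powerset.1 hQ).trans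
          (Finset.erase_subset _ _)))]
        simp
      have h3 : ∑ Q ∈ A.powerset, W2 Q = 0 := Finset.sum_eq_zero hW20
      rw [h2, h3] at hedg
      rw [zero_mul] at h1 ⊢
      omega
    · obtain ⟨e, rfl⟩ : ∃ e, d = e + 1 := ⟨d - 1, by omega⟩
      have hs2 : ∀ B ⊆ A, B.card = e + 1 → ¬ Shat A W2 B := by
        intro B hB hBc hsh
        have haB : a ∉ B := fun h => ha (hB h)
        apply hW (insert a B) (Finset.insert_subset_insert _ hB) (by
          rw [Finset.card_insert_of_notMem haB, hBc])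
        intro C hC
        obtain ⟨Q, hQ, hQ1, hQ2⟩ := hsh (C.erase a) (by
          intro x hx
          rw [Finset.mem_erase] at hx
          rcases Finset.mem_insert.1 (hC hx.2) with h | h
          · exact absurd h hx.1
          · exact h)
        have haQ : a ∉ Q := fun h => ha (hQ h)
        simp only [hW2] at hQ1
        by_cases haC : a ∈ C
        · refine ⟨insert a Q, Finset.insert_subset_insert _ hQ, by omega, ?_⟩
          rw [← Finset.insert_inter_distrib, hQ2, Finset.insert_erase haC]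
        · refine ⟨Q, hQ.trans (Finset.subset_insert _ _), by omega, ?_⟩
          rw [Finset.inter_insert_of_notMem haQ, hQ2, Finset.erase_eq_of_notMem haC]
      have h2 := ih e W2 hs2
      rw [hsum]
      calc edg (insert a A) W ≤ ∑ Q ∈ A.powerset, W2 Q + (edg A W1 + edg A W2) := hedg
        _ ≤ ∑ Q ∈ A.powerset, W2 Q + ((e + 1) * ∑ Q ∈ A.powerset, W1 Q +
            e * ∑ Q ∈ A.powerset, W2 Q) := by omega
        _ = (e + 1) * (∑ Q ∈ A.powerset, W1 Q + ∑ Q ∈ A.powerset, W2 Q) := by ring

variable [Fintype I] {V : Type} [DecidableEq V] (R : V → Finset I) (P : Finset V)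

/-- number of points of `P` with trace `Q` on `A` -/
def cnt (A Q : Finset I) : ℕ := (P.filter (fun v => R v ∩ A = Q)).card

/-- sum over the classes on `A` of the smaller part of the class, split by `i` -/
def spl (i : I) (A : Finset I) : ℕ :=
  ∑ Q ∈ A.powerset, min (P.filter (fun v => R v ∩ A = Q ∧ i ∉ R v)).card
    (P.filter (fun v => R v ∩ A = Q ∧ i ∈ R v)).card

/-- the number of classes -/
def cls (A : Finset I) : ℕ := (P.image (fun v => R v ∩ A)).card

theorem sum_spl_le (d : ℕ) (hd : ∀ B : Finset I, B.card = d + 1 →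
    ¬ ∀ C ⊆ B, ∃ v ∈ P, R v ∩ B = C) (A : Finset I) :
    ∑ i ∈ A, spl R P i (A.erase i) ≤ d * P.card := by
  have h1 := edg_le A d (cnt R P A) (by
    intro B hB hBc hsh
    apply hd B hBc
    intro C hC
    obtain ⟨Q, _, hQ1, hQ2⟩ := hsh C hC
    unfold cnt at hQ1
    obtain ⟨v, hv⟩ := Finset.card_pos.1 hQ1
    rw [Finset.mem_filter] at hv
    refine ⟨v, hv.1, ?_⟩
    rw [← hQ2, ← hv.2, Finset.inter_assoc, Finset.inter_eq_right.2 hB])
  have h2 : ∑ Q ∈ A.powerset, cnt R P A Q = P.card := by
    unfold cnt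
    rw [← Finset.card_eq_sum_card_fiberwise (f := fun v => R v ∩ A) (s := P) (t := A.powerset)]
    intro v _
    simp only [Finset.coe_powerset, Set.mem_preimage, Set.mem_powerset_iff, Finset.coe_subset]
    exact Finset.inter_subset_right
  rw [h2] at h1
  refine le_trans (le_of_eq ?_) h1
  unfold edg spl
  refine Finset.sum_congr rfl fun i hi => Finset.sum_congr rfl fun Q hQ => ?_
  rw [Finset.mem_powerset] at hQ
  have hiQ : i ∉ Q := fun h => (Finset.notMem_erase i A) (hQ h)
  unfold cnt
  congr 2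
  · ext v
    simp only [Finset.mem_filter]
    refine and_congr_right fun _ => ?_
    constructor
    · rintro ⟨h3, h4⟩
      ext x
      by_cases hx : x = i
      · subst hx
        simp [h4, hiQ]
      · rw [← h3]
        simp [hx]
    · intro h3
      have h4 : i ∉ R v := by
        intro h5
        apply hiQ
        rw [← h3]
        exact Finset.mem_inter.2 ⟨h5, hi⟩
      refine ⟨?_, h4⟩
      ext x
      by_cases hx : x = i
      · subst hx
        simp [hiQ]
      · rw [← h3]
        simp [hx]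
  · ext v
    simp only [Finset.mem_filter]
    refine and_congr_right fun _ => ?_
    constructor
    · rintro ⟨h3, h4⟩
      ext x
      by_cases hx : x = i
      · subst hx
        simp [h4, hi]
      · rw [← h3]
        simp [hx]
    · intro h3
      have h4 : i ∈ R v := by
        have : i ∈ R v ∩ A := by rw [h3]; exact Finset.mem_insert_self _ _
        exact (Finset.mem_inter.1 this).1
      refine ⟨?_, h4⟩
      ext x
      by_cases hx : x = i
      · subst hx
        simp [hiQ]
      · have h5 := Finset.ext_iff.1 h3 x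
        simp only [Finset.mem_inter, Finset.mem_insert, hx, false_or] at h5
        simp only [Finset.mem_inter, Finset.mem_erase, ne_eq, hx, not_false_eq_true, true_and]
        exact h5

/-- the weight of a sample -/
noncomputable def pr (p : I → ℝ) (A : Finset I) : ℝ :=
  (∏ i ∈ A, p i) * ∏ i ∈ Aᶜ, (1 - p i)

theorem pr_nonneg (p : I → ℝ) (h0 : ∀ i, 0 ≤ p i) (h1 : ∀ i, p i ≤ 1) (A : Finset I) :
    0 ≤ pr p A :=
  mul_nonneg (Finset.prod_nonneg fun i _ => h0 i)
    (Finset.prod_nonneg fun i _ => by linarith [h1 i])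

theorem pr_split (p : I → ℝ) (i : I) (G : Finset I → ℝ) :
    ∑ A, pr p A * G A = ∑ B ∈ (univ.erase i).powerset,
      ((∏ j ∈ B, p j) * ∏ j ∈ (univ.erase i) \ B, (1 - p j)) *
        ((1 - p i) * G B + p i * G (insert i B)) := by
  have h1 : (univ : Finset (Finset I)) = (insert i (univ.erase i)).powerset := by
    rw [Finset.insert_erase (Finset.mem_univ i), Finset.powerset_univ]
  rw [h1, Finset.sum_powerset_insert (Finset.notMem_erase i univ), ← Finset.sum_add_distrib]
  refine Finset.sum_congr rfl fun B hB => ?_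
  rw [Finset.mem_powerset] at hB
  have hiB : i ∉ B := fun h => Finset.notMem_erase i univ (hB h)
  have e1 : Bᶜ = insert i ((univ.erase i) \ B) := by
    ext x
    simp only [Finset.mem_compl, Finset.mem_insert, Finset.mem_sdiff, Finset.mem_erase,
      Finset.mem_univ, and_true]
    by_cases hx : x = i
    · subst hx
      simp [hiB]
    · simp [hx]
  have e2 : (insert i B)ᶜ = (univ.erase i) \ B := by
    ext x
    simp only [Finset.mem_compl, Finset.mem_insert, Finset.mem_sdiff, Finset.mem_erase,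
      Finset.mem_univ, and_true]
    tauto
  have e3 : i ∉ (univ.erase i) \ B := fun h => Finset.notMem_erase i univ (Finset.mem_sdiff.1 h).1
  unfold pr
  rw [e1, e2, Finset.prod_insert e3, Finset.prod_insert hiB]
  ring

theorem pr_mem (p : I → ℝ) (i : I) (G : Finset I → ℝ) :
    ∑ A, pr p A * (if i ∈ A then G (A.erase i) else 0) = p i * ∑ A, pr p A * G (A.erase i) := by
  rw [pr_split p i, pr_split p i, Finset.mul_sum]
  refine Finset.sum_congr rfl fun B hB => ?_
  rw [Finset.mem_powerset] at hB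
  have hiB : i ∉ B := fun h => Finset.notMem_erase i univ (hB h)
  rw [if_neg hiB, if_pos (Finset.mem_insert_self _ _), Finset.erase_insert hiB,
    Finset.erase_eq_of_notMem hiB]
  ring

theorem pr_one (p : I → ℝ) : ∑ A, pr p A = 1 := by
  unfold pr
  have h1 := Finset.prod_add p (fun i => 1 - p i) (univ : Finset I)
  rw [Finset.powerset_univ] at h1
  simp only [add_sub_cancel, Finset.prod_const_one, Finset.compl_eq_univ_sdiff] at h1 ⊢
  exact h1.symm

theorem pr_card (p : I → ℝ) : ∑ A, pr p A * (A.card : ℝ) = ∑ i, p i := by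
  have h1 : ∀ A : Finset I, (A.card : ℝ) = ∑ i, if i ∈ A then (1 : ℝ) else 0 := by
    intro A
    simp
  simp_rw [h1, Finset.mul_sum]
  rw [Finset.sum_comm]
  refine Finset.sum_congr rfl fun i _ => ?_
  have h2 := pr_mem p i (fun _ => (1 : ℝ))
  simp only [mul_one] at h2
  rw [h2, pr_one, mul_one]

theorem class_bound (p : I → ℝ) (h0 : ∀ i, 0 ≤ p i) (D : ℝ) (A Q : Finset I)
    (hD : ∀ x ∈ P, ∀ y ∈ P, x ≠ y → R x ∩ A = R y ∩ A → D ≤ ∑ i ∈ symmDiff (R x) (R y), p i) :
    D / 2 * ((cnt R P A Q : ℝ) - 1) ≤ ∑ i ∈ Aᶜ, p i *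
      (min (P.filter (fun v => R v ∩ A = Q ∧ i ∉ R v)).card
        (P.filter (fun v => R v ∩ A = Q ∧ i ∈ R v)).card : ℕ) ∨ cnt R P A Q = 0 := by
  classical
  set K := P.filter (fun v => R v ∩ A = Q) with hK
  rcases Nat.eq_zero_or_pos K.card with hz | hpos
  · right
    exact hz
  left
  have hKr : (0 : ℝ) < K.card := by exact_mod_cast hpos
  have hcnt : cnt R P A Q = K.card := rfl
  rw [hcnt]
  -- the product of the two parts
  have hprod : ∀ i, (((P.filter (fun v => R v ∩ A = Q ∧ i ∉ R v)).card : ℝ) *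
      ((P.filter (fun v => R v ∩ A = Q ∧ i ∈ R v)).card : ℝ)) ≤
      (K.card : ℝ) * (min (P.filter (fun v => R v ∩ A = Q ∧ i ∉ R v)).card
        (P.filter (fun v => R v ∩ A = Q ∧ i ∈ R v)).card : ℕ) := by
    intro i
    have h1 : (P.filter (fun v => R v ∩ A = Q ∧ i ∉ R v)).card ≤ K.card := by
      refine Finset.card_le_card fun v hv => ?_
      rw [Finset.mem_filter] at hv ⊢
      exact ⟨hv.1, hv.2.1⟩
    have h2 : (P.filter (fun v => R v ∩ A = Q ∧ i ∈ R v)).card ≤ K.card := by
      refine Finset.card_le_card fun v hv => ?_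
      rw [Finset.mem_filter] at hv ⊢
      exact ⟨hv.1, hv.2.1⟩
    rcases le_total (P.filter (fun v => R v ∩ A = Q ∧ i ∉ R v)).card
      (P.filter (fun v => R v ∩ A = Q ∧ i ∈ R v)).card with h | h
    · rw [min_eq_left h, mul_comm]
      have : ((P.filter (fun v => R v ∩ A = Q ∧ i ∈ R v)).card : ℝ) ≤ K.card := by
        exact_mod_cast h2
      exact mul_le_mul_of_nonneg_right this (Nat.cast_nonneg _)
    · rw [min_eq_right h]
      have : ((P.filter (fun v => R v ∩ A = Q ∧ i ∉ R v)).card : ℝ) ≤ K.card := by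
        exact_mod_cast h1
      exact mul_le_mul_of_nonneg_right this (Nat.cast_nonneg _)
  have hpart : ∀ i, (((P.filter (fun v => R v ∩ A = Q ∧ i ∉ R v)).card : ℝ) *
      ((P.filter (fun v => R v ∩ A = Q ∧ i ∈ R v)).card : ℝ)) =
      ∑ x ∈ K, ∑ y ∈ K, if i ∉ R x ∧ i ∈ R y then (1 : ℝ) else 0 := by
    intro i
    have e1 : ((P.filter (fun v => R v ∩ A = Q ∧ i ∉ R v)).card : ℝ) =
        ∑ x ∈ K, if i ∉ R x then (1 : ℝ) else 0 := by
      rw [Finset.sum_boole, hK, Finset.filter_filter]
    have e2 : ((P.filter (fun v => R v ∩ A = Q ∧ i ∈ R v)).card : ℝ) =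
        ∑ x ∈ K, if i ∈ R x then (1 : ℝ) else 0 := by
      rw [Finset.sum_boole, hK, Finset.filter_filter]
    rw [e1, e2, Finset.sum_mul_sum]
    refine Finset.sum_congr rfl fun x _ => Finset.sum_congr rfl fun y _ => ?_
    split_ifs <;> simp_all
  -- sum over the labels
  have hS : ∑ i ∈ Aᶜ, p i * (((P.filter (fun v => R v ∩ A = Q ∧ i ∉ R v)).card : ℝ) *
      ((P.filter (fun v => R v ∩ A = Q ∧ i ∈ R v)).card : ℝ)) =
      ∑ x ∈ K, ∑ y ∈ K, ∑ i ∈ Aᶜ, if i ∉ R x ∧ i ∈ R y then p i else 0 := by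
    simp_rw [hpart, Finset.mul_sum]
    rw [Finset.sum_comm]
    refine Finset.sum_congr rfl fun x _ => ?_
    rw [Finset.sum_comm]
    refine Finset.sum_congr rfl fun y _ => Finset.sum_congr rfl fun i _ => ?_
    split_ifs <;> simp
  have hpair : ∀ x ∈ K, ∀ y ∈ K, x ≠ y → D ≤
      (∑ i ∈ Aᶜ, if i ∉ R x ∧ i ∈ R y then p i else 0) +
      ∑ i ∈ Aᶜ, if i ∉ R y ∧ i ∈ R x then p i else 0 := by
    intro x hx y hy hxy
    rw [hK, Finset.mem_filter] at hx hy
    have hxyA : R x ∩ A = R y ∩ A := hx.2.trans hy.2.symm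
    refine (hD x hx.1 y hy.1 hxy hxyA).trans (le_of_eq ?_)
    rw [← Finset.sum_add_distrib]
    have hsub : symmDiff (R x) (R y) ⊆ Aᶜ := by
      intro i hi
      rw [Finset.mem_compl]
      intro hiA
      rw [Finset.mem_symmDiff] at hi
      have h3 := Finset.ext_iff.1 hxyA i
      simp only [Finset.mem_inter, hiA, and_true] at h3
      tauto
    rw [← Finset.sum_subset (s₁ := symmDiff (R x) (R y)) hsub]
    · refine Finset.sum_congr rfl fun i hi => ?_
      rw [Finset.mem_symmDiff] at hi
      rcases hi with ⟨h3, h4⟩ | ⟨h3, h4⟩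
      · simp [h3, h4]
      · simp [h3, h4]
    · intro i _ hi
      rw [Finset.mem_symmDiff] at hi
      by_cases h3 : i ∈ R x <;> by_cases h4 : i ∈ R y <;> simp_all
  have hdouble : D * ((K.card : ℝ) * ((K.card : ℝ) - 1)) ≤
      2 * ∑ x ∈ K, ∑ y ∈ K, ∑ i ∈ Aᶜ, if i ∉ R x ∧ i ∈ R y then p i else 0 := by
    have e1 : 2 * ∑ x ∈ K, ∑ y ∈ K, (∑ i ∈ Aᶜ, if i ∉ R x ∧ i ∈ R y then p i else 0) =
        ∑ x ∈ K, ∑ y ∈ K, ((∑ i ∈ Aᶜ, if i ∉ R x ∧ i ∈ R y then p i else 0) +
          ∑ i ∈ Aᶜ, if i ∉ R y ∧ i ∈ R x then p i else 0) := by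
      simp_rw [Finset.sum_add_distrib]
      rw [two_mul]
      congr 1
      rw [Finset.sum_comm]
    rw [e1]
    have e2 : D * ((K.card : ℝ) * ((K.card : ℝ) - 1)) =
        ∑ x ∈ K, ∑ y ∈ K, if x ≠ y then D else 0 := by
      have e3 : ∀ x ∈ K, ∑ y ∈ K, (if x ≠ y then D else 0) = ((K.card : ℝ) - 1) * D := by
        intro x hx
        rw [← Finset.sum_filter, Finset.sum_const, nsmul_eq_mul]
        congr 1
        have : K.filter (fun y => x ≠ y) = K.erase x := by
          ext y
          rw [Finset.mem_filter, Finset.mem_erase]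
          exact ⟨fun h => ⟨h.2.symm, h.1⟩, fun h => ⟨h.2, h.1.symm⟩⟩
        rw [this]
        have h4 := Finset.card_erase_add_one hx
        have h5 : ((K.erase x).card : ℝ) + 1 = K.card := by exact_mod_cast h4
        linarith
      rw [Finset.sum_congr rfl e3, Finset.sum_const, nsmul_eq_mul]
      ring
    rw [e2]
    refine Finset.sum_le_sum fun x hx => Finset.sum_le_sum fun y hy => ?_
    split_ifs with h3
    · exact hpair x hx y hy h3
    · exact add_nonneg
        (Finset.sum_nonneg fun i _ => by split_ifs; exacts [h0 i, le_rfl])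
        (Finset.sum_nonneg fun i _ => by split_ifs; exacts [h0 i, le_rfl])
  rw [← hS] at hdouble
  have hfin : ∑ i ∈ Aᶜ, p i * (((P.filter (fun v => R v ∩ A = Q ∧ i ∉ R v)).card : ℝ) *
      ((P.filter (fun v => R v ∩ A = Q ∧ i ∈ R v)).card : ℝ)) ≤
      (K.card : ℝ) * ∑ i ∈ Aᶜ, p i *
      (min (P.filter (fun v => R v ∩ A = Q ∧ i ∉ R v)).card
        (P.filter (fun v => R v ∩ A = Q ∧ i ∈ R v)).card : ℕ) := by
    rw [Finset.mul_sum]
    refine Finset.sum_le_sum fun i _ => ?_
    have := mul_le_mul_of_nonneg_left (hprod i) (h0 i)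
    calc _ ≤ _ := this
      _ = _ := by ring
  have hall : (K.card : ℝ) * (D / 2 * ((K.card : ℝ) - 1)) ≤ (K.card : ℝ) * ∑ i ∈ Aᶜ, p i *
      (min (P.filter (fun v => R v ∩ A = Q ∧ i ∉ R v)).card
        (P.filter (fun v => R v ∩ A = Q ∧ i ∈ R v)).card : ℕ) := by
    nlinarith
  exact le_of_mul_le_mul_left hall hKr

/-- **Packing lemma.** -/
theorem packing (p : I → ℝ) (h0 : ∀ i, 0 ≤ p i) (h1 : ∀ i, p i ≤ 1) (d : ℕ) (hd1 : 1 ≤ d)
    (hd : ∀ B : Finset I, B.card = d + 1 → ¬ ∀ C ⊆ B, ∃ v ∈ P, R v ∩ B = C)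
    (L : ℝ) (hL : ∀ A : Finset I, (cls R P A : ℝ) ≤ L * A.card + 1)
    (hsep : ∀ x ∈ P, ∀ y ∈ P, x ≠ y → (∃ i ∈ symmDiff (R x) (R y), p i = 1) ∨
      4 * (d : ℝ) ≤ ∑ i ∈ symmDiff (R x) (R y), p i) :
    (P.card : ℝ) ≤ 2 * L * ∑ i, p i + 2 := by
  classical
  have hdr : (1 : ℝ) ≤ d := by exact_mod_cast hd1
  -- expected number of split points, upper bound
  have hup : ∑ A, pr p A * (∑ i ∈ A, (spl R P i (A.erase i) : ℝ)) ≤ d * P.card := by
    calc ∑ A, pr p A * (∑ i ∈ A, (spl R P i (A.erase i) : ℝ))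
        ≤ ∑ A, pr p A * ((d : ℝ) * P.card) := by
          refine Finset.sum_le_sum fun A _ => mul_le_mul_of_nonneg_left ?_ (pr_nonneg p h0 h1 A)
          exact_mod_cast sum_spl_le R P d hd A
      _ = d * P.card := by rw [← Finset.sum_mul, pr_one, one_mul]
  have hid : ∑ A, pr p A * (∑ i ∈ A, (spl R P i (A.erase i) : ℝ)) =
      ∑ A, pr p A * ∑ i, p i * (spl R P i (A.erase i) : ℝ) := by
    have e1 : ∀ A : Finset I, ∑ i ∈ A, (spl R P i (A.erase i) : ℝ) =
        ∑ i, if i ∈ A then (spl R P i (A.erase i) : ℝ) else 0 := by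
      intro A
      simp
    simp_rw [e1, Finset.mul_sum]
    rw [Finset.sum_comm]
    conv_rhs => rw [Finset.sum_comm]
    refine Finset.sum_congr rfl fun i _ => ?_
    rw [pr_mem p i (fun B => (spl R P i B : ℝ)), Finset.mul_sum]
    refine Finset.sum_congr rfl fun A _ => ?_
    ring
  -- lower bound
  have hlow : ∀ A, pr p A * (2 * d * ((P.card : ℝ) - cls R P A)) ≤
      pr p A * ∑ i, p i * (spl R P i (A.erase i) : ℝ) := by
    intro A
    rcases eq_or_lt_of_le (pr_nonneg p h0 h1 A) with hz | hpos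
    · rw [← hz]; simp
    refine mul_le_mul_of_nonneg_left ?_ hpos.le
    have hone : ∀ i, p i = 1 → i ∈ A := by
      intro i hi
      by_contra hiA
      unfold pr at hpos
      have : ∏ i ∈ Aᶜ, (1 - p i) = 0 :=
        Finset.prod_eq_zero (Finset.mem_compl.2 hiA) (by rw [hi]; ring)
      rw [this, mul_zero] at hpos
      exact lt_irrefl _ hpos
    have hD : ∀ x ∈ P, ∀ y ∈ P, x ≠ y → R x ∩ A = R y ∩ A →
        4 * (d : ℝ) ≤ ∑ i ∈ symmDiff (R x) (R y), p i := by
      intro x hx y hy hxy hA
      rcases hsep x hx y hy hxy with ⟨i, hi, hi1⟩ | h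
      · exfalso
        have h3 := Finset.ext_iff.1 hA i
        simp only [Finset.mem_inter, hone i hi1, and_true] at h3
        rw [Finset.mem_symmDiff] at hi
        tauto
      · exact h
    have hge : ∑ i ∈ Aᶜ, p i * (spl R P i A : ℝ) ≤ ∑ i, p i * (spl R P i (A.erase i) : ℝ) := by
      calc ∑ i ∈ Aᶜ, p i * (spl R P i A : ℝ) = ∑ i ∈ Aᶜ, p i * (spl R P i (A.erase i) : ℝ) := by
            refine Finset.sum_congr rfl fun i hi => ?_
            rw [Finset.erase_eq_of_notMem (Finset.mem_compl.1 hi)]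
        _ ≤ _ := Finset.sum_le_sum_of_subset_of_nonneg (Finset.subset_univ _)
            fun i _ _ => mul_nonneg (h0 i) (Nat.cast_nonneg _)
    refine le_trans ?_ hge
    have hexp : ∑ i ∈ Aᶜ, p i * (spl R P i A : ℝ) = ∑ Q ∈ A.powerset, ∑ i ∈ Aᶜ, p i *
        (min (P.filter (fun v => R v ∩ A = Q ∧ i ∉ R v)).card
          (P.filter (fun v => R v ∩ A = Q ∧ i ∈ R v)).card : ℕ) := by
      rw [Finset.sum_comm]
      refine Finset.sum_congr rfl fun i _ => ?_
      unfold spl
      rw [Nat.cast_sum, Finset.mul_sum]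
    rw [hexp]
    have hclsdef : (cls R P A : ℝ) = ∑ Q ∈ A.powerset, if cnt R P A Q = 0 then (0 : ℝ) else 1 := by
      have e1 : P.image (fun v => R v ∩ A) = A.powerset.filter (fun Q => ¬ cnt R P A Q = 0) := by
        ext Q
        rw [Finset.mem_image, Finset.mem_filter, Finset.mem_powerset]
        unfold cnt
        rw [Finset.card_eq_zero, ← ne_eq, ← Finset.nonempty_iff_ne_empty]
        constructor
        · rintro ⟨v, hv, rfl⟩
          exact ⟨Finset.inter_subset_right, ⟨v, Finset.mem_filter.2 ⟨hv, rfl⟩⟩⟩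
        · rintro ⟨_, v, hv⟩
          rw [Finset.mem_filter] at hv
          exact ⟨v, hv.1, hv.2⟩
      unfold cls
      rw [e1, Finset.card_filter]
      push_cast
      refine Finset.sum_congr rfl fun Q _ => ?_
      split_ifs <;> simp_all
    have hPc : (P.card : ℝ) = ∑ Q ∈ A.powerset, (cnt R P A Q : ℝ) := by
      unfold cnt
      rw [← Nat.cast_sum, ← Finset.card_eq_sum_card_fiberwise (f := fun v => R v ∩ A) (s := P)
        (t := A.powerset)]
      intro v _
      simp only [Finset.coe_powerset, Set.mem_preimage, Set.mem_powerset_iff, Finset.coe_subset]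
      exact Finset.inter_subset_right
    rw [hclsdef, hPc, ← Finset.sum_sub_distrib, Finset.mul_sum]
    refine Finset.sum_le_sum fun Q _ => ?_
    rcases class_bound R P p h0 (4 * (d : ℝ)) A Q hD with h | h
    · by_cases hc : cnt R P A Q = 0
      · rw [hc]
        simp only [if_true, Nat.cast_zero, sub_zero, mul_zero]
        exact Finset.sum_nonneg fun i _ => mul_nonneg (h0 i) (Nat.cast_nonneg _)
      · rw [if_neg hc]
        calc 2 * (d : ℝ) * ((cnt R P A Q : ℝ) - 1) = 4 * (d : ℝ) / 2 * ((cnt R P A Q : ℝ) - 1) := by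
              ring
          _ ≤ _ := h
    · rw [h]
      simp only [if_true, Nat.cast_zero, sub_zero, mul_zero]
      exact Finset.sum_nonneg fun i _ => mul_nonneg (h0 i) (Nat.cast_nonneg _)
  have hsumlow := Finset.sum_le_sum (s := (univ : Finset (Finset I))) fun A _ => hlow A
  rw [← hid] at hsumlow
  have hcl : ∑ A, pr p A * (cls R P A : ℝ) ≤ L * ∑ i, p i + 1 := by
    calc ∑ A, pr p A * (cls R P A : ℝ) ≤ ∑ A, pr p A * (L * A.card + 1) :=
          Finset.sum_le_sum fun A _ => mul_le_mul_of_nonneg_left (hL A) (pr_nonneg p h0 h1 A)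
      _ = L * (∑ A, pr p A * (A.card : ℝ)) + ∑ A, pr p A := by
          rw [Finset.mul_sum, ← Finset.sum_add_distrib]
          refine Finset.sum_congr rfl fun A _ => ?_
          ring
      _ = L * ∑ i, p i + 1 := by rw [pr_card, pr_one]
  have hexpand : ∑ A, pr p A * (2 * d * ((P.card : ℝ) - cls R P A)) =
      2 * d * (P.card : ℝ) - 2 * d * ∑ A, pr p A * (cls R P A : ℝ) := by
    have e1 : ∀ A : Finset I, pr p A * (2 * d * ((P.card : ℝ) - cls R P A)) =
        pr p A * (2 * d * (P.card : ℝ)) - 2 * d * (pr p A * (cls R P A : ℝ)) := by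
      intro A
      ring
    rw [Finset.sum_congr rfl fun A _ => e1 A, Finset.sum_sub_distrib, ← Finset.sum_mul, pr_one,
      one_mul, ← Finset.mul_sum]
  rw [hexpand] at hsumlow
  have h2 : 2 * d * (P.card : ℝ) ≤ d * P.card + 2 * d * (L * ∑ i, p i + 1) := by
    have h3 : 2 * d * ∑ A, pr p A * (cls R P A : ℝ) ≤ 2 * d * (L * ∑ i, p i + 1) :=
      mul_le_mul_of_nonneg_left hcl (by positivity)
    linarith
  have h3 : (d : ℝ) * P.card ≤ d * (2 * L * ∑ i, p i + 2) := by linarith
  exact le_of_mul_le_mul_left h3 (by linarith)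

end pack

end Pool.Agent.K4H87.BF
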