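import Mathlib

set_option autoImplicit false

/-!
# Pairing terminals along a rooted tree

Terminals (with repetitions) at the vertices of a rooted tree can be paired up, with at most one
terminal left, so that for every set `X` of vertices the number of pairs separated by `X` is at most
the number of edges of the tree in the boundary of `X`.
-/

open Finset

namespace Pool.Agent.K4H87.BF

theorem pairing_aux {α ι : Type} [DecidableEq α] [DecidableEq ι] (r : α) (π : α → α)
    (ρ : α → ℕ) : ∀ (k : ℕ) (U : Finset α) (W : Finset ι) (f : ι → α), U.card + W.card ≤ k →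
    r ∈ U → (∀ u ∈ U, u ≠ r → π u ∈ U ∧ ρ (π u) < ρ u) → (∀ i ∈ W, f i ∈ U) →
    ∃ μ : ι → ι, (∀ i ∈ W, μ i ∈ W) ∧ (∀ i ∈ W, μ (μ i) = i) ∧
      (W.filter (fun i => μ i = i)).card ≤ 1 ∧
      ∀ X : α → Bool, (W.filter (fun i => X (f i) = true ∧ X (f (μ i)) = false)).card ≤
        (U.filter (fun u => u ≠ r ∧ X u ≠ X (π u))).card := by
  intro k
  induction k with
  | zero =>
    intro U W f hk hr _ _
    have : 0 < U.card := Finset.card_pos.2 ⟨r, hr⟩
    omega
  | succ k ih =>
    intro U W f hk hr hU hf
    by_cases hinj : ∃ i ∈ W, ∃ i' ∈ W, i ≠ i' ∧ f i = f i'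
    · obtain ⟨i, hi, i', hi', hne, hfe⟩ := hinj
      have hi'e : i' ∈ W.erase i := Finset.mem_erase.2 ⟨hne.symm, hi'⟩
      have hc1 : (W.erase i).card + 1 = W.card := Finset.card_erase_add_one hi
      have hc2 : ((W.erase i).erase i').card + 1 = (W.erase i).card :=
        Finset.card_erase_add_one hi'e
      obtain ⟨μ, h1, h2, h3, h4⟩ := ih U ((W.erase i).erase i') f (by omega) hr hU
        (fun j hj => hf j (Finset.mem_of_mem_erase (Finset.mem_of_mem_erase hj)))
      have hmem : ∀ j, j ∈ (W.erase i).erase i' ↔ j ≠ i' ∧ j ≠ i ∧ j ∈ W := by
        intro j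
        rw [Finset.mem_erase, Finset.mem_erase]
      refine ⟨fun j => if j = i then i' else if j = i' then i else μ j, ?_, ?_, ?_, ?_⟩
      · intro j hj
        by_cases e1 : j = i
        · simp [e1, hi']
        · by_cases e2 : j = i'
          · simp [e2, hne.symm, hi]
          · simp only [e1, e2, if_false]
            exact ((hmem _).1 (h1 j ((hmem _).2 ⟨e2, e1, hj⟩))).2.2
      · intro j hj
        by_cases e1 : j = i
        · simp [e1, hne.symm]
        · by_cases e2 : j = i'
          · simp [e2, hne.symm]
          · have hj' := (hmem _).2 ⟨e2, e1, hj⟩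
            have h5 := (hmem _).1 (h1 j hj')
            simp only [e1, e2, if_false, h5.1, h5.2.1]
            exact h2 j hj'
      · refine le_trans (Finset.card_le_card ?_) h3
        intro j hj
        rw [Finset.mem_filter] at hj ⊢
        obtain ⟨hj, hj2⟩ := hj
        by_cases e1 : j = i
        · simp only [e1, if_true] at hj2
          exact absurd hj2 hne.symm
        · by_cases e2 : j = i'
          · simp only [e2, hne.symm, if_false, if_true] at hj2
            exact absurd hj2 hne
          · simp only [e1, e2, if_false] at hj2
            exact ⟨(hmem _).2 ⟨e2, e1, hj⟩, hj2⟩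
      · intro X
        refine le_trans (Finset.card_le_card ?_) (h4 X)
        intro j hj
        rw [Finset.mem_filter] at hj ⊢
        obtain ⟨hj, hj2, hj3⟩ := hj
        by_cases e1 : j = i
        · simp only [e1, if_true] at hj2 hj3
          rw [hfe] at hj2
          rw [hj2] at hj3
          exact absurd hj3 (by decide)
        · by_cases e2 : j = i'
          · simp only [e2, hne.symm, if_false, if_true] at hj2 hj3
            rw [hfe] at hj3
            rw [hj2] at hj3
            exact absurd hj3 (by decide)
          · simp only [e1, e2, if_false] at hj2 hj3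
            exact ⟨(hmem _).2 ⟨e2, e1, hj⟩, hj2, hj3⟩
    · push Not at hinj
      by_cases hW : W.card ≤ 1
      · refine ⟨id, fun i hi => hi, fun i _ => rfl, ?_, ?_⟩
        · exact (Finset.card_filter_le _ _).trans hW
        · intro X
          have : W.filter (fun i => X (f i) = true ∧ X (f (id i)) = false) = ∅ := by
            rw [Finset.filter_eq_empty_iff]
            rintro i _ ⟨h1, h2⟩
            rw [id, h1] at h2
            exact absurd h2 (by decide)
          rw [this]
          simp
      · -- an element of `U` other than the root
        obtain ⟨a, ha, b, hb, hab⟩ := Finset.one_lt_card.1 (not_le.1 hW)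
        have hne : (U.erase r).Nonempty := by
          by_cases h1 : f a = r
          · refine ⟨f b, Finset.mem_erase.2 ⟨?_, hf b hb⟩⟩
            intro h2
            exact hinj a ha b hb hab (h1.trans h2.symm)
          · exact ⟨f a, Finset.mem_erase.2 ⟨h1, hf a ha⟩⟩
        obtain ⟨u, hu, hmax⟩ := Finset.exists_max_image (U.erase r) ρ hne
        rw [Finset.mem_erase] at hu
        obtain ⟨hur, huU⟩ := hu
        have hmem : ∀ v, v ∈ U.erase u ↔ v ≠ u ∧ v ∈ U := fun v => Finset.mem_erase
        have hpu := hU u huU hur
        have hpune : π u ≠ u := fun h => by rw [h] at hpu; exact lt_irrefl _ hpu.2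
        obtain ⟨μ, h1, h2, h3, h4⟩ := ih (U.erase u) W (fun i => if f i = u then π u else f i)
          (by
            have := Finset.card_erase_add_one huU
            omega)
          ((hmem r).2 ⟨hur.symm, hr⟩)
          (by
            intro v hv hvr
            obtain ⟨hvu, hvU⟩ := (hmem v).1 hv
            obtain ⟨h5, h6⟩ := hU v hvU hvr
            refine ⟨(hmem _).2 ⟨?_, h5⟩, h6⟩
            intro h7
            have h8 := hmax v (Finset.mem_erase.2 ⟨hvr, hvU⟩)
            rw [h7] at h6
            omega)
          (by
            intro i hi
            by_cases h5 : f i = u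
            · simp only [h5, if_true]
              exact (hmem _).2 ⟨hpune, hpu.1⟩
            · simp only [h5, if_false]
              exact (hmem _).2 ⟨h5, hf i hi⟩)
        refine ⟨μ, h1, h2, h3, fun X => ?_⟩
        have h5 := h4 X
        have hsub : (U.erase u).filter (fun v => v ≠ r ∧ X v ≠ X (π v)) ⊆
            U.filter (fun v => v ≠ r ∧ X v ≠ X (π v)) :=
          Finset.filter_subset_filter _ (Finset.erase_subset _ _)
        by_cases hX : X u = X (π u)
        · -- no edge used
          have e1 : ∀ i, X (if f i = u then π u else f i) = X (f i) := by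
            intro i
            by_cases h6 : f i = u
            · simp only [h6, if_true, hX]
            · simp only [h6, if_false]
          simp only [e1] at h5
          exact h5.trans (Finset.card_le_card hsub)
        · have hlt : ((U.erase u).filter (fun v => v ≠ r ∧ X v ≠ X (π v))).card + 1 ≤
              (U.filter (fun v => v ≠ r ∧ X v ≠ X (π v))).card := by
            apply Finset.card_lt_card
            refine ⟨hsub, fun h => ?_⟩
            have h6 := h (Finset.mem_filter.2 ⟨huU, hur, hX⟩)
            rw [Finset.mem_filter, hmem] at h6
            exact h6.1.1 rfl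
          refine le_trans ?_ hlt
          refine le_trans ?_ (Nat.add_le_add_right h5 1)
          set F := W.filter (fun i => X (f i) = true ∧ X (f (μ i)) = false) with hF
          set F' := W.filter (fun i => X (if f i = u then π u else f i) = true ∧
            X (if f (μ i) = u then π u else f (μ i)) = false) with hF'
          have h7 : F.card ≤ F'.card + (F \ F').card := by
            have := Finset.card_le_card_sdiff_add_card (s := F) (t := F')
            omega
          refine h7.trans (Nat.add_le_add_left ?_ _)
          rw [Finset.card_le_one]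
          intro i hi j hj
          rw [Finset.mem_sdiff, hF, hF', Finset.mem_filter, Finset.mem_filter] at hi hj
          obtain ⟨⟨hiW, hi1, hi2⟩, hi3⟩ := hi
          obtain ⟨⟨hjW, hj1, hj2⟩, hj3⟩ := hj
          have hor : ∀ i, i ∈ W → X (f i) = true → X (f (μ i)) = false →
              ¬ (i ∈ W ∧ X (if f i = u then π u else f i) = true ∧
                X (if f (μ i) = u then π u else f (μ i)) = false) → f i = u ∨ f (μ i) = u := by
            intro i hi h6 h7 h8
            by_contra hcon
            push Not at hcon
            apply h8
            simp only [hcon.1, hcon.2, if_false]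
            exact ⟨hi, h6, h7⟩
          have ci := hor i hiW hi1 hi2 hi3
          have cj := hor j hjW hj1 hj2 hj3
          cases hXu : X u with
          | true =>
            have di : f i = u := by
              rcases ci with h | h
              · exact h
              · rw [h, hXu] at hi2
                exact absurd hi2 (by decide)
            have dj : f j = u := by
              rcases cj with h | h
              · exact h
              · rw [h, hXu] at hj2
                exact absurd hj2 (by decide)
            by_contra hij
            exact hinj i hiW j hjW hij (di.trans dj.symm)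
          | false =>
            have di : f (μ i) = u := by
              rcases ci with h | h
              · rw [h, hXu] at hi1
                exact absurd hi1 (by decide)
              · exact h
            have dj : f (μ j) = u := by
              rcases cj with h | h
              · rw [h, hXu] at hj1
                exact absurd hj1 (by decide)
              · exact h
            have hμ : μ i = μ j := by
              by_contra hij
              exact hinj _ (h1 i hiW) _ (h1 j hjW) hij (di.trans dj.symm)
            rw [← h2 i hiW, hμ, h2 j hjW]

/-- Pairing along a connected graph. -/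
theorem pairing {α ι : Type} [Fintype α] [DecidableEq α] [Fintype ι] [DecidableEq ι]
    (G : SimpleGraph α) (r : α) (f : ι → α) (hf : ∀ i, G.Reachable r (f i)) :
    ∃ μ : ι → ι, (∀ i, μ (μ i) = i) ∧ (univ.filter (fun i => μ i = i)).card ≤ 1 ∧
      ∀ X : α → Bool, (univ.filter (fun i => X (f i) = true ∧ X (f (μ i)) = false)).card ≤
        {p : α × α | X p.1 = true ∧ X p.2 = false ∧ G.Adj p.1 p.2}.ncard := by
  classical
  have hpar : ∀ u, ∃ v, G.Reachable r u → u ≠ r → G.Adj u v ∧ G.Reachable r v ∧
      G.dist r v < G.dist r u := by
    intro u
    by_cases h : G.Reachable r u ∧ u ≠ r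
    · obtain ⟨h1, h2⟩ := h
      obtain ⟨p, hp⟩ := h1.symm.exists_walk_length_eq_dist
      cases p with
      | nil => exact absurd rfl h2
      | cons hadj q =>
        rename_i v
        refine ⟨v, fun _ _ => ⟨hadj, q.reachable.symm, ?_⟩⟩
        rw [SimpleGraph.Walk.length_cons] at hp
        have h3 := SimpleGraph.dist_le q
        rw [SimpleGraph.dist_comm (u := r) (v := v), SimpleGraph.dist_comm (u := r) (v := u)]
        omega
    · exact ⟨u, fun h1 h2 => absurd ⟨h1, h2⟩ h⟩
  choose π hπ using hpar
  obtain ⟨μ, h1, h2, h3, h4⟩ := pairing_aux (ι := ι) r π (fun u => G.dist r u)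
    ((univ.filter (fun u => G.Reachable r u)).card + (univ : Finset ι).card)
    (univ.filter (fun u => G.Reachable r u)) univ f le_rfl
    (Finset.mem_filter.2 ⟨Finset.mem_univ _, SimpleGraph.Reachable.refl _⟩)
    (by
      intro u hu hur
      rw [Finset.mem_filter] at hu
      have := hπ u hu.2 hur
      exact ⟨Finset.mem_filter.2 ⟨Finset.mem_univ _, this.2.1⟩, this.2.2⟩)
    (fun i _ => Finset.mem_filter.2 ⟨Finset.mem_univ _, hf i⟩)
  refine ⟨μ, fun i => h2 i (Finset.mem_univ _), h3, fun X => (h4 X).trans ?_⟩
  rw [← Set.ncard_coe_finset]
  refine Set.ncard_le_ncard_of_injOn (fun u => if X u = true then (u, π u) else (π u, u)) ?_ ?_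
    (Set.toFinite _)
  · intro u hu
    simp only [Finset.coe_filter, Finset.mem_filter, Finset.mem_univ, true_and,
      Set.mem_ofPred_eq] at hu
    obtain ⟨hu1, hu2, hu3⟩ := hu
    have h5 := hπ u hu1 hu2
    cases hXu : X u with
    | true =>
      simp only [hXu, if_true, Set.mem_ofPred_eq, true_and]
      refine ⟨?_, h5.1⟩
      rw [hXu] at hu3
      cases h6 : X (π u)
      · rfl
      · exact absurd h6.symm hu3
    | false =>
      simp only [hXu, Bool.false_eq_true, if_false, Set.mem_ofPred_eq, true_and]
      refine ⟨?_, h5.1.symm⟩
      rw [hXu] at hu3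
      cases h6 : X (π u)
      · exact absurd h6.symm hu3
      · rfl
  · intro u hu v hv huv
    simp only [Finset.coe_filter, Finset.mem_filter, Finset.mem_univ, true_and,
      Set.mem_ofPred_eq] at hu hv
    obtain ⟨hu1, hu2, hu3⟩ := hu
    obtain ⟨hv1, hv2, hv3⟩ := hv
    have h5 := (hπ u hu1 hu2).2.2
    have h6 := (hπ v hv1 hv2).2.2
    simp only at huv
    split_ifs at huv with c1 c2 c2
    · exact (Prod.ext_iff.1 huv).1
    · have e1 := (Prod.ext_iff.1 huv).1
      have e2 := (Prod.ext_iff.1 huv).2
      simp only at e1 e2
      rw [e2] at h5
      rw [← e1] at h6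
      omega
    · have e1 := (Prod.ext_iff.1 huv).1
      have e2 := (Prod.ext_iff.1 huv).2
      simp only at e1 e2
      rw [e1] at h5
      rw [← e2] at h6
      omega
    · exact (Prod.ext_iff.1 huv).2

end Pool.Agent.K4H87.BF
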