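import Mathlib

set_option autoImplicit false

/-!
# Cells of depth at most `t` of axis-parallel rectangles no two of which cross
-/

open Finset

namespace Pool.Agent.K4H87.BF

section nat

variable {I : Type} [DecidableEq I]

/-- an edge of an interval -/
def ed (f g : I → ℕ) (σ : Bool) (j : I) : ℕ := if σ then g j else f j

/-- Intervals which are crossed inside `(lo, hi)` and not contained in it: few of their ends are
shallow. -/
theorem stair (A : Finset I) (t : ℕ) (P : I → Prop) [DecidablePred P] (f g : I → ℕ) (lo hi : ℕ)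
    (σ : Bool) (J : Finset I) (hJA : J ⊆ A) (hg : ∀ i j, g i = g j → i = j)
    (hJ : ∀ j ∈ J, P j ∧ ¬ (lo < f j ∧ g j < hi) ∧ lo < ed f g σ j ∧ ed f g σ j < hi ∧
      (A.filter (fun k => P k ∧ (f k ≤ ed f g σ j ∧ ed f g σ j < g k))).card ≤ t) :
    J.card ≤ t + 1 := by
  rcases J.eq_empty_or_nonempty with he | hne
  · rw [he]; simp
  cases σ with
  | false =>
    obtain ⟨j0, hj0, hmax⟩ := Finset.exists_max_image J f hne
    have h1 := (hJ j0 hj0).2.2.2.2
    have h2 : J ⊆ A.filter (fun k => P k ∧ (f k ≤ ed f g false j0 ∧ ed f g false j0 < g k)) := by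
      intro j hj
      obtain ⟨hP, hn, ha, hb, -⟩ := hJ j hj
      obtain ⟨-, -, -, hb0, -⟩ := hJ j0 hj0
      have hm := hmax j hj
      simp only [ed, Bool.false_eq_true, if_false] at ha hb hb0 ⊢
      refine Finset.mem_filter.2 ⟨hJA hj, hP, hm, ?_⟩
      by_contra hcon
      exact hn ⟨ha, by omega⟩
    exact (Finset.card_le_card h2).trans (h1.trans (Nat.le_succ t))
  | true =>
    obtain ⟨j0, hj0, hmin⟩ := Finset.exists_min_image J g hne
    have h1 := (hJ j0 hj0).2.2.2.2
    have h2 : J.erase j0 ⊆
        A.filter (fun k => P k ∧ (f k ≤ ed f g true j0 ∧ ed f g true j0 < g k)) := by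
      intro j hj
      rw [Finset.mem_erase] at hj
      obtain ⟨hP, hn, ha, hb, -⟩ := hJ j hj.2
      obtain ⟨-, -, ha0, -, -⟩ := hJ j0 hj0
      have hm := hmin j hj.2
      have hne' : g j0 ≠ g j := fun h => hj.1 (hg _ _ h).symm
      simp only [ed, if_true] at ha hb ha0 ⊢
      refine Finset.mem_filter.2 ⟨hJA hj.2, hP, ?_, by omega⟩
      by_contra hcon
      exact hn ⟨by omega, hb⟩
    have h3 := (Finset.card_le_card h2).trans h1
    have h4 := Finset.card_erase_add_one hj0
    omega

/-- the trace of a cell -/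
def tr (l r b u : I → ℕ) (A : Finset I) (a c : ℕ) : Finset I :=
  A.filter (fun k => (l k ≤ a ∧ a < r k) ∧ (b k ≤ c ∧ c < u k))

variable (l r b u : I → ℕ)

theorem rect_cells (A : Finset I) (t : ℕ)
    (hll : ∀ i j, l i = l j → i = j) (hrr : ∀ i j, r i = r j → i = j) (hlr : ∀ i j, l i ≠ r j)
    (hbb : ∀ i j, b i = b j → i = j) (huu : ∀ i j, u i = u j → i = j) (hbu : ∀ i j, b i ≠ u j)
    (hl1 : ∀ i, 1 ≤ l i) (hb1 : ∀ i, 1 ≤ b i)
    (hcr : ∀ i j, ¬ (l i < l j ∧ r j < r i ∧ b j < b i ∧ u i < u j))
    (T : Finset (Finset I)) (hT : ∀ τ ∈ T, τ.card ≤ t ∧ ∃ a c, tr l r b u A a c = τ) :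
    T.card ≤ (8 * t + 9) * A.card + 1 := by
  classical
  set D0 : Finset (Finset I) := A.image (fun i => tr l r b u A (l i) (b i)) with hD0
  set D : Bool → Bool → Finset (I × I) := fun σ σ' => (A ×ˢ A).filter (fun p =>
    (l p.2 < ed l r σ p.1 ∧ ed l r σ p.1 < r p.2) ∧
    (b p.1 < ed b u σ' p.2 ∧ ed b u σ' p.2 < u p.1) ∧
    (tr l r b u A (ed l r σ p.1) (ed b u σ' p.2)).card ≤ t) with hD
  have hDcard : ∀ σ σ', (D σ σ').card ≤ 2 * (t + 1) * A.card := by
    intro σ σ'
    set D1 := (D σ σ').filter (fun p => ¬ (l p.1 < l p.2 ∧ r p.2 < r p.1) ∧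
      ¬ (b p.1 < b p.2 ∧ u p.2 < u p.1)) with hD1
    set D2 := (D σ σ').filter (fun p => ¬ (l p.2 < l p.1 ∧ r p.1 < r p.2) ∧
      ¬ (b p.2 < b p.1 ∧ u p.1 < u p.2)) with hD2
    have hsub : D σ σ' ⊆ D1 ∪ D2 := by
      intro p hp
      have h1 := hcr p.1 p.2
      have h2 := hcr p.2 p.1
      rw [Finset.mem_union]
      by_cases c1 : ¬ (l p.1 < l p.2 ∧ r p.2 < r p.1) ∧ ¬ (b p.1 < b p.2 ∧ u p.2 < u p.1)
      · exact Or.inl (Finset.mem_filter.2 ⟨hp, c1⟩)
      · refine Or.inr (Finset.mem_filter.2 ⟨hp, ?_⟩)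
        omega
    have hc1 : D1.card ≤ (t + 1) * A.card := by
      refine Finset.card_le_mul_card_image_of_maps_to (f := Prod.fst) (t := A) ?_ (t + 1) ?_
      · intro p hp
        rw [hD1, Finset.mem_filter, hD, Finset.mem_filter, Finset.mem_product] at hp
        exact hp.1.1.1
      · intro i hi
        have h1 : (D1.filter (fun p => p.1 = i)).card =
            ((D1.filter (fun p => p.1 = i)).image Prod.snd).card := by
          rw [Finset.card_image_of_injOn]
          intro p hp p' hp' h
          rw [Finset.mem_coe, Finset.mem_filter] at hp hp'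
          exact Prod.ext (hp.2.trans hp'.2.symm) h
        rw [h1]
        refine stair A t (fun k => l k ≤ ed l r σ i ∧ ed l r σ i < r k) b u (b i) (u i) σ' _ ?_
          huu ?_
        · intro j hj
          rw [Finset.mem_image] at hj
          obtain ⟨p, hp, rfl⟩ := hj
          rw [Finset.mem_filter, hD1, Finset.mem_filter, hD, Finset.mem_filter,
            Finset.mem_product] at hp
          exact hp.1.1.1.2
        · intro j hj
          rw [Finset.mem_image] at hj
          obtain ⟨p, hp, rfl⟩ := hj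
          rw [Finset.mem_filter, hD1, Finset.mem_filter, hD, Finset.mem_filter] at hp
          obtain ⟨⟨⟨_, h2, h3, h4⟩, h5, h6⟩, rfl⟩ := hp
          exact ⟨⟨h2.1.le, h2.2⟩, h6, h3.1, h3.2, h4⟩
    have hc2 : D2.card ≤ (t + 1) * A.card := by
      refine Finset.card_le_mul_card_image_of_maps_to (f := Prod.snd) (t := A) ?_ (t + 1) ?_
      · intro p hp
        rw [hD2, Finset.mem_filter, hD, Finset.mem_filter, Finset.mem_product] at hp
        exact hp.1.1.2
      · intro j hj
        have h1 : (D2.filter (fun p => p.2 = j)).card =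
            ((D2.filter (fun p => p.2 = j)).image Prod.fst).card := by
          rw [Finset.card_image_of_injOn]
          intro p hp p' hp' h
          rw [Finset.mem_coe, Finset.mem_filter] at hp hp'
          exact Prod.ext h (hp.2.trans hp'.2.symm)
        rw [h1]
        refine stair A t (fun k => b k ≤ ed b u σ' j ∧ ed b u σ' j < u k) l r (l j) (r j) σ _ ?_
          hrr ?_
        · intro i hi
          rw [Finset.mem_image] at hi
          obtain ⟨p, hp, rfl⟩ := hi
          rw [Finset.mem_filter, hD2, Finset.mem_filter, hD, Finset.mem_filter,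
            Finset.mem_product] at hp
          exact hp.1.1.1.1
        · intro i hi
          rw [Finset.mem_image] at hi
          obtain ⟨p, hp, rfl⟩ := hi
          rw [Finset.mem_filter, hD2, Finset.mem_filter, hD, Finset.mem_filter] at hp
          obtain ⟨⟨⟨_, h2, h3, h4⟩, h5, h6⟩, rfl⟩ := hp
          refine ⟨⟨h3.1.le, h3.2⟩, h5, h2.1, h2.2, ?_⟩
          refine le_trans (le_of_eq ?_) h4
          unfold tr
          congr 1
          ext k
          simp only [Finset.mem_filter]
          tauto
    have h1 := (Finset.card_le_card hsub).trans (Finset.card_union_le _ _)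
    calc (D σ σ').card ≤ (t + 1) * A.card + (t + 1) * A.card := by omega
      _ = 2 * (t + 1) * A.card := by ring
  -- every nonempty trace is at a corner or at a crossing
  have hcover : T ⊆ {∅} ∪ D0 ∪ (univ : Finset (Bool × Bool)).biUnion (fun s =>
      (D s.1 s.2).image (fun p => tr l r b u A (ed l r s.1 p.1) (ed b u s.2 p.2))) := by
    intro τ hτ
    obtain ⟨hτt, a1, c1, hac1⟩ := hT τ hτ
    rcases τ.eq_empty_or_nonempty with he | hne
    · rw [he]
      simp
    have hex : ∃ n a c, a + c = n ∧ tr l r b u A a c = τ := ⟨a1 + c1, a1, c1, rfl, hac1⟩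
    obtain ⟨a, c, hn, hac⟩ := Nat.find_spec hex
    have hmin : ∀ a' c', tr l r b u A a' c' = τ → a + c ≤ a' + c' := by
      intro a' c' h
      rw [hn]
      exact Nat.find_min' hex ⟨a', c', rfl, h⟩
    obtain ⟨j0, hj0⟩ := hne
    have hj0' := hj0
    rw [← hac, tr, Finset.mem_filter] at hj0'
    have ha1 : 1 ≤ a := (hl1 j0).trans hj0'.2.1.1
    have hc1 : 1 ≤ c := (hb1 j0).trans hj0'.2.2.1
    obtain ⟨i, hiA, hib, hiu, hia⟩ : ∃ i ∈ A, b i ≤ c ∧ c < u i ∧ (a = l i ∨ a = r i) := by
      by_contra hcon
      push Not at hcon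
      have h1 : tr l r b u A (a - 1) c = τ := by
        rw [← hac]
        unfold tr
        refine Finset.filter_congr fun k hk => ?_
        constructor
        · rintro ⟨⟨h2, h3⟩, h4, h5⟩
          have h6 := hcon k hk h4 h5
          exact ⟨⟨by omega, by omega⟩, h4, h5⟩
        · rintro ⟨⟨h2, h3⟩, h4, h5⟩
          have h6 := hcon k hk h4 h5
          exact ⟨⟨by omega, by omega⟩, h4, h5⟩
      have h2 := hmin _ _ h1
      omega
    obtain ⟨j, hjA, hjl, hjr, hjc⟩ : ∃ j ∈ A, l j ≤ a ∧ a < r j ∧ (c = b j ∨ c = u j) := by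
      by_contra hcon
      push Not at hcon
      have h1 : tr l r b u A a (c - 1) = τ := by
        rw [← hac]
        unfold tr
        refine Finset.filter_congr fun k hk => ?_
        constructor
        · rintro ⟨⟨h4, h5⟩, h2, h3⟩
          have h6 := hcon k hk h4 h5
          exact ⟨⟨h4, h5⟩, by omega, by omega⟩
        · rintro ⟨⟨h4, h5⟩, h2, h3⟩
          have h6 := hcon k hk h4 h5
          exact ⟨⟨h4, h5⟩, by omega, by omega⟩
      have h2 := hmin _ _ h1
      omega
    rw [Finset.mem_union, Finset.mem_union]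
    by_cases hij : i = j
    · subst hij
      left; right
      rw [hD0, Finset.mem_image]
      refine ⟨i, hiA, ?_⟩
      have h1 : a = l i := by
        rcases hia with h | h
        · exact h
        · omega
      have h2 : c = b i := by
        rcases hjc with h | h
        · exact h
        · omega
      rw [← h1, ← h2, hac]
    · right
      rw [Finset.mem_biUnion]
      obtain ⟨σ, hσ⟩ : ∃ σ, ed l r σ i = a := by
        rcases hia with h | h
        · exact ⟨false, by simp [ed, h]⟩
        · exact ⟨true, by simp [ed, h]⟩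
      obtain ⟨σ', hσ'⟩ : ∃ σ', ed b u σ' j = c := by
        rcases hjc with h | h
        · exact ⟨false, by simp [ed, h]⟩
        · exact ⟨true, by simp [ed, h]⟩
      have h1 : l j ≠ a := by
        rcases hia with h | h
        · rw [h]; exact fun h' => hij (hll _ _ h').symm
        · rw [h]; exact hlr _ _
      have h2 : b i ≠ c := by
        rcases hjc with h | h
        · rw [h]; exact fun h' => hij (hbb _ _ h')
        · rw [h]; exact hbu _ _
      refine ⟨(σ, σ'), Finset.mem_univ _, ?_⟩
      rw [Finset.mem_image]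
      refine ⟨(i, j), ?_, ?_⟩
      · rw [hD, Finset.mem_filter, Finset.mem_product]
        simp only
        rw [hσ, hσ', hac]
        exact ⟨⟨hiA, hjA⟩, ⟨by omega, hjr⟩, ⟨by omega, hiu⟩, hτt⟩
      · simp only
        rw [hσ, hσ', hac]
  have h1 : D0.card ≤ A.card := Finset.card_image_le
  have h2 : ((univ : Finset (Bool × Bool)).biUnion (fun s =>
      (D s.1 s.2).image (fun p => tr l r b u A (ed l r s.1 p.1) (ed b u s.2 p.2)))).card ≤
      4 * (2 * (t + 1) * A.card) := by
    refine le_trans Finset.card_biUnion_le ?_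
    refine le_trans (Finset.sum_le_sum fun s _ => Finset.card_image_le.trans (hDcard s.1 s.2)) ?_
    rw [Finset.sum_const, smul_eq_mul]
    exact le_of_eq rfl
  have h3 := Finset.card_le_card hcover
  have h4 := Finset.card_union_le ({∅} ∪ D0) ((univ : Finset (Bool × Bool)).biUnion (fun s =>
      (D s.1 s.2).image (fun p => tr l r b u A (ed l r s.1 p.1) (ed b u s.2 p.2))))
  have h5 := Finset.card_union_le ({∅} : Finset (Finset I)) D0
  rw [Finset.card_singleton] at h5
  calc T.card ≤ 1 + A.card + 4 * (2 * (t + 1) * A.card) := by omega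
    _ = (8 * t + 9) * A.card + 1 := by ring

end nat

end Pool.Agent.K4H87.BF
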