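import Pool.Agent.K4H87.BF.Rect
import Pool.Agent.K4H87.BF.Cells

set_option autoImplicit false

/-!
# Points and axis-parallel rectangles no two of which cross
-/

open Finset

namespace Pool.Agent.K4H87.BF

section key

/-- positions with tie-breaks -/
abbrev Key := ℝ ×ₗ (ℕ ×ₗ (ℝ ×ₗ ℕ))

/-- a position -/
def key (x : ℝ) (s : ℕ) (y : ℝ) (j : ℕ) : Key := toLex (x, toLex (s, toLex (y, j)))

theorem key_lt (x x' : ℝ) (s s' : ℕ) (y y' : ℝ) (j j' : ℕ) : key x s y j < key x' s' y' j' ↔
    x < x' ∨ x = x' ∧ (s < s' ∨ s = s' ∧ (y < y' ∨ y = y' ∧ j < j')) := by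
  unfold key
  rw [Prod.Lex.toLex_lt_toLex]
  simp only
  rw [Prod.Lex.toLex_lt_toLex]
  simp only
  rw [Prod.Lex.toLex_lt_toLex]

/-- the rank of a position -/
noncomputable def pos (E : Finset Key) (x : Key) : ℕ := (E.filter (fun y => y ≤ x)).card

theorem pos_mono (E : Finset Key) {x y : Key} (h : x ≤ y) : pos E x ≤ pos E y :=
  Finset.card_le_card (Finset.monotone_filter_right E fun _ _ hz => le_trans hz h)

theorem pos_lt (E : Finset Key) {x e : Key} (h : x < e) (he : e ∈ E) : pos E x < pos E e := by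
  refine Finset.card_lt_card ?_
  rw [Finset.ssubset_iff_of_subset (Finset.monotone_filter_right E fun _ _ hz => le_trans hz h.le)]
  refine ⟨e, Finset.mem_filter.2 ⟨he, le_rfl⟩, fun h' => ?_⟩
  exact absurd (Finset.mem_filter.1 h').2 (not_le.2 h)

theorem pos_pos (E : Finset Key) {e : Key} (he : e ∈ E) : 1 ≤ pos E e :=
  Finset.card_pos.2 ⟨e, Finset.mem_filter.2 ⟨he, le_rfl⟩⟩

theorem pos_lt_iff (E : Finset Key) {x e : Key} (he : e ∈ E) : pos E x < pos E e ↔ x < e := by
  constructor
  · intro h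
    by_contra hcon
    have := pos_mono E (not_lt.1 hcon)
    omega
  · intro h
    exact pos_lt E h he

theorem interval_pos {m : ℕ} (l r : Fin m → ℝ) : ∃ (L R : Fin m → ℕ) (a : ℝ → ℕ),
    (∀ i j, L i = L j → i = j) ∧ (∀ i j, R i = R j → i = j) ∧ (∀ i j, L i ≠ R j) ∧
    (∀ i, 1 ≤ L i) ∧ (∀ i j, L i < L j → R j < R i → l i < l j ∧ r j < r i) ∧
    ∀ p j, (L j ≤ a p ∧ a p < R j) ↔ (l j ≤ p ∧ p ≤ r j) := by
  classical
  set kL : Fin m → Key := fun j => key (l j) 0 (r j) j with hkL
  set kR : Fin m → Key := fun j => key (r j) 2 (l j) j with hkR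
  set E : Finset Key := univ.image kL ∪ univ.image kR with hE
  have hLE : ∀ j, kL j ∈ E := fun j => Finset.mem_union_left _
    (Finset.mem_image.2 ⟨j, Finset.mem_univ _, rfl⟩)
  have hRE : ∀ j, kR j ∈ E := fun j => Finset.mem_union_right _
    (Finset.mem_image.2 ⟨j, Finset.mem_univ _, rfl⟩)
  have hne : ∀ x y : Key, x ∈ E → y ∈ E → pos E x = pos E y → x = y := by
    intro x y hx hy h
    rcases lt_trichotomy x y with h' | h' | h'
    · have := pos_lt E h' hy
      omega
    · exact h'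
    · have := pos_lt E h' hx
      omega
  refine ⟨fun j => pos E (kL j), fun j => pos E (kR j), fun p => pos E (key p 1 0 0),
    ?_, ?_, ?_, ?_, ?_, ?_⟩
  · intro i j h
    have h1 := hne _ _ (hLE i) (hLE j) h
    rcases lt_trichotomy i j with h2 | h2 | h2
    · exfalso
      simp only [hkL, key, toLex_inj, Prod.mk.injEq] at h1
      have := h1.2.2.2
      omega
    · exact h2
    · exfalso
      simp only [hkL, key, toLex_inj, Prod.mk.injEq] at h1
      have := h1.2.2.2
      omega
  · intro i j h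
    have h1 := hne _ _ (hRE i) (hRE j) h
    rcases lt_trichotomy i j with h2 | h2 | h2
    · exfalso
      simp only [hkR, key, toLex_inj, Prod.mk.injEq] at h1
      have := h1.2.2.2
      omega
    · exact h2
    · exfalso
      simp only [hkR, key, toLex_inj, Prod.mk.injEq] at h1
      have := h1.2.2.2
      omega
  · intro i j h
    have h1 := hne _ _ (hLE i) (hRE j) h
    simp only [hkL, hkR, key, toLex_inj, Prod.mk.injEq] at h1
    have := h1.2.1
    omega
  · intro i
    exact pos_pos E (hLE i)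
  · intro i j h1 h2
    rw [pos_lt_iff E (hLE j), hkL] at h1
    rw [pos_lt_iff E (hRE i), hkR] at h2
    simp only at h1 h2
    rw [key_lt] at h1 h2
    rcases h1 with h1 | ⟨h1, h1' | ⟨-, h1'⟩⟩
    · refine ⟨h1, ?_⟩
      rcases h2 with h2 | ⟨h2, h2' | ⟨-, h2'⟩⟩
      · exact h2
      · omega
      · rcases h2' with h2' | ⟨h2', -⟩
        · linarith
        · linarith
    · omega
    · exfalso
      rcases h2 with h2 | ⟨h2, h2' | ⟨-, h2'⟩⟩
      · rcases h1' with h1' | ⟨h1', -⟩ <;> linarith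
      · omega
      · rcases h1' with h1' | ⟨h1', h3⟩
        · linarith
        · rcases h2' with h2' | ⟨h2', h4⟩
          · linarith
          · omega
  · intro p j
    have e1 : pos E (kL j) ≤ pos E (key p 1 0 0) ↔ l j ≤ p := by
      rw [← not_lt, pos_lt_iff E (hLE j), hkL]
      simp only
      rw [key_lt]
      constructor
      · intro h
        by_contra hcon
        exact h (Or.inl (not_le.1 hcon))
      · rintro h (h' | ⟨-, h' | ⟨h', -⟩⟩)
        · linarith
        · omega
        · omega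
    have e2 : pos E (key p 1 0 0) < pos E (kR j) ↔ p ≤ r j := by
      rw [pos_lt_iff E (hRE j), hkR]
      simp only
      rw [key_lt]
      constructor
      · rintro (h' | ⟨h', -⟩)
        · exact h'.le
        · exact h'.le
      · intro h
        rcases lt_or_eq_of_le h with h' | h'
        · exact Or.inl h'
        · exact Or.inr ⟨h', Or.inl (by norm_num)⟩
    simp only
    rw [e1, e2]

end key

/-- Shallow points induce few cells of non-crossing rectangles. -/
theorem rect_cells_real (n m t : ℕ) (p : Fin n → ℝ × ℝ) (l r b u : Fin m → ℝ)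
    (S : Fin m → Finset (Fin n))
    (hS : ∀ j i, i ∈ S j ↔ (l j ≤ (p i).1 ∧ (p i).1 ≤ r j) ∧ b j ≤ (p i).2 ∧ (p i).2 ≤ u j)
    (hcr : ∀ i j, ¬ (l i < l j ∧ r j < r i ∧ b j < b i ∧ u i < u j))
    (hdeg : ∀ i : Fin n, (univ.filter (fun j : Fin m => i ∈ S j)).card ≤ t)
    (A : Finset (Fin m)) :
    (univ.image (fun i : Fin n => A.filter (fun j => i ∈ S j))).card ≤
      (8 * t + 9) * A.card + 1 := by
  classical
  obtain ⟨L, R, a, h1, h2, h3, h4, h5, h6⟩ := interval_pos l r
  obtain ⟨B, U, c, k1, k2, k3, k4, k5, k6⟩ := interval_pos b u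
  refine rect_cells L R B U A t h1 h2 h3 k1 k2 k3 h4 k4 ?_ _ ?_
  · rintro i j ⟨e1, e2, e3, e4⟩
    have e5 := h5 i j e1 e2
    have e6 := k5 j i e3 e4
    exact hcr i j ⟨e5.1, e5.2, e6.1, e6.2⟩
  · intro τ hτ
    rw [Finset.mem_image] at hτ
    obtain ⟨i, -, rfl⟩ := hτ
    refine ⟨?_, a (p i).1, c (p i).2, ?_⟩
    · refine le_trans (Finset.card_le_card ?_) (hdeg i)
      intro j hj
      exact Finset.mem_filter.2 ⟨Finset.mem_univ _, (Finset.mem_filter.1 hj).2⟩
    · unfold tr
      refine Finset.filter_congr fun j _ => ?_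
      rw [h6, k6, hS]

theorem rect_log (t : ℕ) (ht : 1 ≤ t) :
    Real.log (2 + ((17 * t : ℕ) : ℝ) / t * Real.log (1 + ((17 * t : ℕ) : ℝ)) * Real.log (1 + t)) ≤
      9 * Real.log (2 + Real.log (1 + t)) := by
  have htr : (1 : ℝ) ≤ t := by exact_mod_cast ht
  have htp : (0 : ℝ) < t := by linarith
  set y : ℝ := Real.log (1 + t) with hy
  have hl2 := log_two_gt
  have hy2 : Real.log 2 ≤ y := Real.log_le_log (by norm_num) (by linarith)
  have hy0 : 0 ≤ y := by linarith
  have e1 : ((17 * t : ℕ) : ℝ) / t = 17 := by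
    push_cast
    field_simp
  have e2 : Real.log (1 + ((17 * t : ℕ) : ℝ)) ≤ 6 * y := by
    have h1 : Real.log (1 + ((17 * t : ℕ) : ℝ)) ≤ Real.log (2 ^ 5 * (1 + t)) := by
      refine Real.log_le_log (by positivity) ?_
      push_cast
      linarith
    rw [Real.log_mul (by positivity) (by positivity), Real.log_pow] at h1
    push_cast at h1 ⊢
    linarith
  have e3 : 2 + ((17 * t : ℕ) : ℝ) / t * Real.log (1 + ((17 * t : ℕ) : ℝ)) * y ≤
      2 ^ 7 * (2 + y) ^ 2 := by
    rw [e1]
    have : 17 * Real.log (1 + ((17 * t : ℕ) : ℝ)) * y ≤ 17 * (6 * y) * y := by gcongr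
    nlinarith
  have e4 : (0 : ℝ) < 2 + ((17 * t : ℕ) : ℝ) / t * Real.log (1 + ((17 * t : ℕ) : ℝ)) * y := by
    have : 0 ≤ Real.log (1 + ((17 * t : ℕ) : ℝ)) := Real.log_nonneg (by
      have : (0 : ℝ) ≤ ((17 * t : ℕ) : ℝ) := Nat.cast_nonneg _
      linarith)
    positivity
  have e5 := Real.log_le_log e4 e3
  have e6 : Real.log (2 ^ 7 * (2 + y) ^ 2) = 7 * Real.log 2 + 2 * Real.log (2 + y) := by
    rw [Real.log_mul (by positivity) (by positivity), Real.log_pow, Real.log_pow]
    norm_num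
  rw [e6] at e5
  have e7 : Real.log 2 ≤ Real.log (2 + y) := Real.log_le_log (by norm_num) (by linarith)
  linarith

end Pool.Agent.K4H87.BF
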