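import Pool.Agent.K4H87.BF.Pack
import Pool.Agent.K4H87.BF.Kls
import Pool.Agent.K4H87.BF.MM
import Pool.Agent.K4H87.BF.Pair

set_option autoImplicit false

/-!
# Spanning trees with low crossing number for set systems with linearly many cells
-/

open Finset

namespace Pool.Agent.K4H87.BF

section rank

variable {V : Type} [Fintype V] [DecidableEq V]

/-- the vector of a pair -/
noncomputable def av (e : V × V) : V → ℝ := Pi.single e.1 1 - Pi.single e.2 1

/-- the rank of a set of pairs -/
noncomputable def rk (F : Finset (V × V)) : ℕ :=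
  Module.finrank ℝ (Submodule.span ℝ (av '' (F : Set (V × V))))

theorem rk_sub (F G : Finset (V × V)) : rk (F ∪ G) + rk (F ∩ G) ≤ rk F + rk G := by
  unfold rk
  have h1 : Submodule.span ℝ (av '' ((F ∪ G : Finset (V × V)) : Set (V × V))) =
      Submodule.span ℝ (av '' (F : Set (V × V))) ⊔ Submodule.span ℝ (av '' (G : Set (V × V))) := by
    rw [Finset.coe_union, Set.image_union, Submodule.span_union]
  have h2 : Submodule.span ℝ (av '' ((F ∩ G : Finset (V × V)) : Set (V × V))) ≤
      Submodule.span ℝ (av '' (F : Set (V × V))) ⊓ Submodule.span ℝ (av '' (G : Set (V × V))) := by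
    rw [Finset.coe_inter]
    exact le_inf (Submodule.span_mono (Set.image_mono Set.inter_subset_left))
      (Submodule.span_mono (Set.image_mono Set.inter_subset_right))
  have h3 := Submodule.finrank_sup_add_finrank_inf_eq
    (Submodule.span ℝ (av '' (F : Set (V × V)))) (Submodule.span ℝ (av '' (G : Set (V × V))))
  have h4 := Submodule.finrank_mono h2
  rw [h1]
  omega

theorem rk_empty : rk (∅ : Finset (V × V)) = 0 := by
  unfold rk
  simp

theorem rk_single (e : V × V) : rk ({e} : Finset (V × V)) ≤ 1 := by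
  classical
  unfold rk
  have h1 : (av '' (({e} : Finset (V × V)) : Set (V × V))) = (({av e} : Finset (V → ℝ)) :
      Set (V → ℝ)) := by simp
  rw [h1]
  have := finrank_span_finset_le_card (R := ℝ) ({av e} : Finset (V → ℝ))
  simpa [Set.finrank] using this

theorem card_le_rk {T : Finset (V × V)} (hT : LinearIndepOn ℝ (av (V := V)) (T : Set (V × V)))
    (F : Finset (V × V)) : (T ∩ F).card ≤ rk F := by
  classical
  have h1 : LinearIndepOn ℝ (av (V := V)) ((T ∩ F : Finset (V × V)) : Set (V × V)) :=
    hT.mono (by rw [Finset.coe_inter]; exact Set.inter_subset_left)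
  have h2 := finrank_span_eq_card (b := fun e : ((T ∩ F : Finset (V × V)) : Set (V × V)) =>
    av (V := V) e) h1
  have h3 : Set.range (fun e : ((T ∩ F : Finset (V × V)) : Set (V × V)) => av (V := V) e) =
      av '' ((T ∩ F : Finset (V × V)) : Set (V × V)) := by
    ext f
    simp
  rw [h3] at h2
  have h4 : Fintype.card ((T ∩ F : Finset (V × V)) : Set (V × V)) = (T ∩ F).card :=
    Fintype.card_coe _
  rw [← h4, ← h2]
  unfold rk
  refine Submodule.finrank_mono (Submodule.span_mono (Set.image_mono ?_))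
  rw [Finset.coe_inter]
  exact Set.inter_subset_right

theorem rk_univ_lt [Nonempty V] : rk (univ : Finset (V × V)) < Fintype.card V := by
  classical
  unfold rk
  set H : Submodule ℝ (V → ℝ) := LinearMap.ker (∑ v : V, LinearMap.proj (R := ℝ) (φ := fun _ => ℝ) v)
    with hH
  have h1 : Submodule.span ℝ (av '' ((univ : Finset (V × V)) : Set (V × V))) ≤ H := by
    rw [Submodule.span_le]
    rintro f ⟨e, _, rfl⟩
    rw [SetLike.mem_coe, hH, LinearMap.mem_ker]
    simp [av]
  have h2 : H < ⊤ := by
    rw [lt_top_iff_ne_top]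
    intro h
    obtain ⟨v⟩ := (inferInstance : Nonempty V)
    have h3 : (Pi.single v 1 : V → ℝ) ∈ H := by rw [h]; trivial
    rw [hH, LinearMap.mem_ker] at h3
    simp at h3
  have h3 := Submodule.finrank_lt h2.ne
  rw [Module.finrank_fintype_fun_eq_card] at h3
  exact lt_of_le_of_lt (Submodule.finrank_mono h1) h3

/-- A set of pairs of full rank connects all points. -/
theorem connected_of_rank (B : Finset (V × V)) (hB : rk (univ : Finset (V × V)) ≤ rk B) (x y : V) :
    (SimpleGraph.fromRel (fun u v => (u, v) ∈ B)).Reachable x y := by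
  classical
  set G := SimpleGraph.fromRel (fun u v => (u, v) ∈ B) with hG
  by_contra hcon
  -- the indicator of the component of `x`
  set g : V → ℝ := fun v => if G.Reachable x v then 1 else 0 with hg
  set φ : (V → ℝ) →ₗ[ℝ] ℝ := ∑ v : V, g v • LinearMap.proj (R := ℝ) (φ := fun _ => ℝ) v with hφ
  have hφa : ∀ e : V × V, φ (av e) = g e.1 - g e.2 := by
    intro e
    rw [hφ]
    simp only [LinearMap.sum_apply, LinearMap.smul_apply, LinearMap.proj_apply, smul_eq_mul, av,
      Pi.sub_apply, mul_sub, Finset.sum_sub_distrib]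
    simp [Pi.single_apply]
  have hzero : ∀ e ∈ B, φ (av e) = 0 := by
    intro e he
    rw [hφa]
    by_cases hee : e.1 = e.2
    · rw [hee, sub_self]
    · have hadj : G.Adj e.1 e.2 := by
        rw [hG, SimpleGraph.fromRel_adj]
        exact ⟨hee, Or.inl he⟩
      have : G.Reachable x e.1 ↔ G.Reachable x e.2 :=
        ⟨fun h => h.trans hadj.reachable, fun h => h.trans hadj.symm.reachable⟩
      simp only [hg, this, sub_self]
  have hspan : Submodule.span ℝ (av '' (B : Set (V × V))) =
      Submodule.span ℝ (av '' ((univ : Finset (V × V)) : Set (V × V))) := by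
    apply Submodule.eq_of_le_of_finrank_le
    · exact Submodule.span_mono (Set.image_mono (by simp))
    · exact hB
  have h1 : av (x, y) ∈ Submodule.span ℝ (av '' (B : Set (V × V))) := by
    rw [hspan]
    exact Submodule.subset_span ⟨(x, y), by simp, rfl⟩
  have h2 : Submodule.span ℝ (av '' (B : Set (V × V))) ≤ LinearMap.ker φ := by
    rw [Submodule.span_le]
    rintro f ⟨e, he, rfl⟩
    exact hzero e he
  have h3 := h2 h1
  rw [LinearMap.mem_ker, hφa] at h3
  simp only [hg, hcon, if_false, sub_zero] at h3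
  rw [if_pos (SimpleGraph.Reachable.refl x)] at h3
  exact one_ne_zero h3

end rank

section greedy

variable {V I : Type} [Fintype V] [DecidableEq V] [DecidableEq I] (R : V → Finset I)
  (w : I → ℝ)

/-- weighted distance -/
def dw (e : V × V) : ℝ := ∑ i ∈ symmDiff (R e.1) (R e.2), w i

theorem greedy (hw : ∀ i, 0 ≤ w i) : ∀ (k : ℕ) (P : Finset V), P.card = k + 1 →
    ∃ T : Finset (V × V), (∀ e ∈ T, e.1 ∈ P ∧ e.2 ∈ P) ∧
      LinearIndepOn ℝ (av (V := V)) (T : Set (V × V)) ∧ T.card = k ∧
      ∃ δ : ℕ → ℝ, (∀ N, 2 ≤ N → N ≤ k + 1 → 0 ≤ δ N ∧ ∃ P' : Finset V, P'.card = N ∧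
        ∀ x ∈ P', ∀ y ∈ P', x ≠ y → δ N ≤ dw R w (x, y)) ∧
      ∑ e ∈ T, dw R w e = ∑ N ∈ Finset.Icc 2 (k + 1), δ N := by
  classical
  intro k
  induction k with
  | zero =>
    intro P _
    refine ⟨∅, by simp, by simp, rfl, fun _ => 0, ?_, ?_⟩
    · intro N h1 h2
      omega
    · simp
  | succ k ih =>
    intro P hP
    have hne : (P.offDiag).Nonempty := by
      obtain ⟨a, ha, b, hb, hab⟩ := Finset.one_lt_card.1 (show 1 < P.card by omega)
      exact ⟨(a, b), Finset.mem_offDiag.2 ⟨ha, hb, hab⟩⟩
    obtain ⟨e0, he0, hmin⟩ := Finset.exists_min_image P.offDiag (dw R w) hne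
    rw [Finset.mem_offDiag] at he0
    obtain ⟨h1, h2, h3⟩ := he0
    obtain ⟨T, hT1, hT2, hT3, δ, hδ1, hδ2⟩ := ih (P.erase e0.1) (by
      have := Finset.card_erase_add_one h1
      omega)
    have hnot : e0 ∉ T := by
      intro h
      exact Finset.notMem_erase _ _ (hT1 e0 h).1
    refine ⟨insert e0 T, ?_, ?_, ?_, Function.update δ (k + 2) (dw R w e0), ?_, ?_⟩
    · intro e he
      rcases Finset.mem_insert.1 he with rfl | he
      · exact ⟨h1, h2⟩
      · exact ⟨Finset.mem_of_mem_erase (hT1 e he).1, Finset.mem_of_mem_erase (hT1 e he).2⟩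
    · rw [Finset.coe_insert]
      refine hT2.insert ?_
      intro hmem
      have h4 : Submodule.span ℝ (av '' (T : Set (V × V))) ≤
          LinearMap.ker (LinearMap.proj (R := ℝ) (φ := fun _ : V => ℝ) e0.1) := by
        rw [Submodule.span_le]
        rintro f ⟨e, he, rfl⟩
        have h5 := hT1 e he
        have h6 : e0.1 ≠ e.1 := fun h => Finset.notMem_erase _ _ (h ▸ h5.1)
        have h7 : e0.1 ≠ e.2 := fun h => Finset.notMem_erase _ _ (h ▸ h5.2)
        rw [SetLike.mem_coe, LinearMap.mem_ker]
        simp [av, h6, h7]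
      have h5 := h4 hmem
      rw [LinearMap.mem_ker] at h5
      simp [av, h3] at h5
    · rw [Finset.card_insert_of_notMem hnot, hT3]
    · intro N hN1 hN2
      rcases Nat.lt_or_ge N (k + 2) with h | h
      · rw [Function.update_of_ne (by omega)]
        exact hδ1 N hN1 (by omega)
      · have hN : N = k + 2 := by omega
        subst hN
        rw [Function.update_self]
        refine ⟨Finset.sum_nonneg fun i _ => hw i, P, hP, ?_⟩
        intro x hx y hy hxy
        exact hmin (x, y) (Finset.mem_offDiag.2 ⟨hx, hy, hxy⟩)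
    · rw [Finset.sum_insert hnot, hδ2]
      have h4 : Finset.Icc 2 (k + 1 + 1) = insert (k + 2) (Finset.Icc 2 (k + 1)) := by
        ext N
        rw [Finset.mem_insert, Finset.mem_Icc, Finset.mem_Icc]
        omega
      rw [h4, Finset.sum_insert (by rw [Finset.mem_Icc]; omega), Function.update_self]
      congr 1
      refine Finset.sum_congr rfl fun N hN => ?_
      rw [Finset.mem_Icc] at hN
      rw [Function.update_of_ne (by omega)]

end greedy

section dyadic

theorem sum_geom (A : ℕ) : ∀ s : ℝ, 0 ≤ s → ∑ a ∈ range A, s / 2 ^ a ≤ 2 * s := by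
  induction A with
  | zero => intro s hs; simp; exact hs
  | succ A ih =>
    intro s hs
    rw [Finset.sum_range_succ']
    have h1 := ih (s / 2) (by positivity)
    have h2 : ∑ a ∈ range A, s / 2 ^ (a + 1) = ∑ a ∈ range A, (s / 2) / 2 ^ a := by
      refine Finset.sum_congr rfl fun a _ => ?_
      rw [pow_succ, div_div, mul_comm (2 : ℝ)]
    rw [h2, pow_zero, div_one]
    linarith

theorem sum_min (y : ℝ) (hy : 0 ≤ y) (j : ℕ) : ∀ (A : ℕ) (s : ℝ), 0 ≤ s → s ≤ 2 ^ j * y →
    ∑ a ∈ range A, min (s / 2 ^ a) y ≤ y * (j + 2) := by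
  induction j with
  | zero =>
    intro A s hs hsy
    calc ∑ a ∈ range A, min (s / 2 ^ a) y ≤ ∑ a ∈ range A, s / 2 ^ a :=
          Finset.sum_le_sum fun a _ => min_le_left _ _
      _ ≤ 2 * s := sum_geom A s hs
      _ ≤ y * ((0 : ℕ) + 2) := by
          push_cast
          simp only [pow_zero, one_mul] at hsy
          linarith
  | succ j ih =>
    intro A s hs hsy
    rcases Nat.eq_zero_or_pos A with hA | hA
    · subst hA
      simp only [Finset.range_zero, Finset.sum_empty]
      positivity
    · obtain ⟨A', rfl⟩ : ∃ A', A = A' + 1 := ⟨A - 1, by omega⟩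
      rw [Finset.sum_range_succ']
      have h1 := ih A' (s / 2) (by positivity) (by
        rw [pow_succ] at hsy
        linarith)
      have h2 : ∑ a ∈ range A', min (s / 2 ^ (a + 1)) y =
          ∑ a ∈ range A', min ((s / 2) / 2 ^ a) y := by
        refine Finset.sum_congr rfl fun a _ => ?_
        rw [pow_succ, div_div, mul_comm (2 : ℝ)]
      rw [h2]
      have h3 : min (s / 2 ^ 0) y ≤ y := min_le_right _ _
      push_cast
      linarith

theorem sum_min_ind (y : ℝ) (hy : 0 ≤ y) (j : ℕ) : ∀ (A : ℕ) (s : ℝ), 0 ≤ s →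
    ∑ a ∈ range A, (if s / 2 ^ a ≤ 2 ^ j * y then min (s / 2 ^ a) y else 0) ≤ y * (j + 2) := by
  intro A
  induction A with
  | zero =>
    intro s _
    simp only [Finset.range_zero, Finset.sum_empty]
    positivity
  | succ A ih =>
    intro s hs
    rcases le_or_gt s (2 ^ j * y) with h | h
    · refine le_trans (Finset.sum_le_sum fun a _ => ?_) (sum_min y hy j (A + 1) s hs h)
      split_ifs
      · exact le_rfl
      · exact le_min (by positivity) hy
    · rw [Finset.sum_range_succ']
      have h2 : ∑ a ∈ range A, (if s / 2 ^ (a + 1) ≤ 2 ^ j * y then min (s / 2 ^ (a + 1)) y else 0) =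
          ∑ a ∈ range A, (if (s / 2) / 2 ^ a ≤ 2 ^ j * y then min ((s / 2) / 2 ^ a) y else 0) := by
        refine Finset.sum_congr rfl fun a _ => ?_
        rw [pow_succ, div_div, mul_comm (2 : ℝ)]
      rw [h2, pow_zero, div_one, if_neg (not_le.2 h), add_zero]
      exact ih (s / 2) (by positivity)

theorem le_dyadic (A : ℕ) (S x : ℝ) (hS : 0 ≤ S) (hx : x ≤ S) :
    x ≤ S / 2 ^ A + ∑ a ∈ range A, if (S / 2) / 2 ^ a < x then (S / 2) / 2 ^ a else 0 := by
  induction A with
  | zero => simpa using hx
  | succ A ih =>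
    rw [Finset.sum_range_succ]
    have hs : S / 2 ^ (A + 1) = (S / 2) / 2 ^ A := by
      rw [pow_succ, div_div, mul_comm (2 : ℝ)]
    have hhalf : S / 2 ^ A = (S / 2) / 2 ^ A + (S / 2) / 2 ^ A := by
      rw [← add_div]
      congr 1
      ring
    have hnn : 0 ≤ ∑ a ∈ range A, if (S / 2) / 2 ^ a < x then (S / 2) / 2 ^ a else 0 :=
      Finset.sum_nonneg fun a _ => by split_ifs <;> positivity
    rcases lt_or_ge ((S / 2) / 2 ^ A) x with h | h
    · rw [if_pos h, hs]
      linarith
    · rw [if_neg (not_lt.2 h), hs]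
      linarith

end dyadic

section cost

variable {V I : Type} [Fintype V] [DecidableEq V] [Fintype I] [DecidableEq I] (R : V → Finset I)
  (w : I → ℝ)

open Classical in
/-- sampling probability at scale `s` -/
noncomputable def sp (t d : ℕ) (s x : ℝ) : ℝ :=
  if s ≤ 4 * t * x then min 1 (8 * d * x / s) else 0

theorem sp_nonneg (t d : ℕ) (s x : ℝ) (hs : 0 < s) (hx : 0 ≤ x) : 0 ≤ sp t d s x := by
  unfold sp
  split_ifs
  · exact le_min zero_le_one (by positivity)
  · exact le_rfl

theorem sp_le_one (t d : ℕ) (s x : ℝ) : sp t d s x ≤ 1 := by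
  unfold sp
  split_ifs
  · exact min_le_left _ _
  · exact zero_le_one

theorem sp_anti (t d : ℕ) (s s' x : ℝ) (hs : 0 < s) (hss : s ≤ s') (hx : 0 ≤ x) :
    sp t d s' x ≤ sp t d s x := by
  unfold sp
  by_cases h1 : s' ≤ 4 * t * x
  · rw [if_pos h1, if_pos (hss.trans h1)]
    refine min_le_min le_rfl ?_
    exact div_le_div_of_nonneg_left (by positivity) hs hss
  · rw [if_neg h1]
    split_ifs
    · exact le_min zero_le_one (by positivity)
    · exact le_rfl

theorem pack_scale (hw : ∀ i, 0 ≤ w i) (t d : ℕ) (ht : 1 ≤ t) (hd1 : 1 ≤ d)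
    (hR : ∀ v, (R v).card ≤ t)
    (hd : ∀ B : Finset I, B.card = d + 1 → ¬ ∀ C ⊆ B, ∃ v, R v ∩ B = C)
    (L : ℝ) (hL : ∀ A : Finset I, ((univ.image (fun v => R v ∩ A)).card : ℝ) ≤ L * A.card + 1)
    (P : Finset V) (s : ℝ) (hs : 0 < s)
    (hP : ∀ x ∈ P, ∀ y ∈ P, x ≠ y → s ≤ dw R w (x, y)) :
    (P.card : ℝ) ≤ 2 * L * ∑ i, sp t d s (w i) + 2 := by
  classical
  have htr : (1 : ℝ) ≤ t := by exact_mod_cast ht
  have hdr : (1 : ℝ) ≤ d := by exact_mod_cast hd1
  refine packing R P (fun i => sp t d s (w i)) (fun i => sp_nonneg t d s (w i) hs (hw i))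
    (fun i => sp_le_one t d s (w i)) d hd1 ?_ L ?_ ?_
  · intro B hB h
    exact hd B hB fun C hC => by
      obtain ⟨v, _, hv⟩ := h C hC
      exact ⟨v, hv⟩
  · intro A
    refine le_trans ?_ (hL A)
    unfold cls
    exact_mod_cast Finset.card_le_card (Finset.image_subset_image (Finset.subset_univ P))
  · intro x hx y hy hxy
    by_cases hone : ∃ i ∈ symmDiff (R x) (R y), sp t d s (w i) = 1
    · exact Or.inl hone
    · right
      push Not at hone
      have hdist := hP x hx y hy hxy
      unfold dw at hdist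
      simp only at hdist
      have hcard : ((symmDiff (R x) (R y)).card : ℝ) ≤ 2 * t := by
        have h1 : (symmDiff (R x) (R y)).card ≤ (R x).card + (R y).card := by
          refine le_trans (Finset.card_le_card ?_) (Finset.card_union_le _ _)
          intro i hi
          rw [Finset.mem_symmDiff] at hi
          rw [Finset.mem_union]
          tauto
        have h2 := hR x
        have h3 := hR y
        have : (symmDiff (R x) (R y)).card ≤ 2 * t := by omega
        exact_mod_cast this
      have hterm : ∀ i ∈ symmDiff (R x) (R y),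
          8 * d / s * (w i - s / (4 * t)) ≤ sp t d s (w i) := by
        intro i hi
        by_cases h1 : s ≤ 4 * t * w i
        · have h2 := hone i hi
          unfold sp at h2 ⊢
          rw [if_pos h1] at h2 ⊢
          have h3 : min 1 (8 * d * w i / s) = 8 * d * w i / s := by
            rcases min_choice 1 (8 * d * w i / s) with h | h
            · exact absurd h h2
            · exact h
          rw [h3]
          have h4 : 8 * d / s * (w i - s / (4 * t)) = 8 * d * w i / s - 8 * d / s * (s / (4 * t)) := by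
            ring
          rw [h4]
          have : 0 ≤ 8 * d / s * (s / (4 * t)) := by positivity
          linarith
        · have h2 : w i - s / (4 * t) ≤ 0 := by
            rw [not_le] at h1
            rw [sub_nonpos, le_div_iff₀ (by positivity)]
            linarith
          exact (mul_nonpos_of_nonneg_of_nonpos (by positivity) h2).trans
            (sp_nonneg t d s (w i) hs (hw i))
      calc 4 * (d : ℝ) = 8 * d / s * (s - 2 * t * (s / (4 * t))) := by
            field_simp
            ring
        _ ≤ 8 * d / s * (∑ i ∈ symmDiff (R x) (R y), w i -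
            (symmDiff (R x) (R y)).card * (s / (4 * t))) := by
            refine mul_le_mul_of_nonneg_left ?_ (by positivity)
            have h5 : ((symmDiff (R x) (R y)).card : ℝ) * (s / (4 * t)) ≤ 2 * t * (s / (4 * t)) :=
              mul_le_mul_of_nonneg_right hcard (by positivity)
            linarith
        _ = ∑ i ∈ symmDiff (R x) (R y), 8 * d / s * (w i - s / (4 * t)) := by
            rw [← Finset.mul_sum, Finset.sum_sub_distrib, Finset.sum_const, nsmul_eq_mul]
        _ ≤ _ := Finset.sum_le_sum hterm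

/-- The cost of a greedy tree. -/
theorem tree_cost (hw : ∀ i, 0 ≤ w i) (t d : ℕ) (ht : 1 ≤ t) (hd1 : 1 ≤ d)
    (hR : ∀ v, (R v).card ≤ t)
    (hd : ∀ B : Finset I, B.card = d + 1 → ¬ ∀ C ⊆ B, ∃ v, R v ∩ B = C)
    (L : ℝ) (hL0 : 0 ≤ L)
    (hL : ∀ A : Finset I, ((univ.image (fun v => R v ∩ A)).card : ℝ) ≤ L * A.card + 1)
    [Nonempty V] :
    ∃ T : Finset (V × V), LinearIndepOn ℝ (av (V := V)) (T : Set (V × V)) ∧
      T.card + 1 = Fintype.card V ∧
      ∑ e ∈ T, dw R w e ≤ (3 + 32 * L * d * (Nat.log 2 t + 2)) * ∑ i, w i := by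
  classical
  have htr : (1 : ℝ) ≤ t := by exact_mod_cast ht
  have hdr : (1 : ℝ) ≤ d := by exact_mod_cast hd1
  have hVpos : 0 < Fintype.card V := Fintype.card_pos
  obtain ⟨k, hk⟩ : ∃ k, Fintype.card V = k + 1 := ⟨Fintype.card V - 1, by omega⟩
  obtain ⟨T, _, hT2, hT3, δ, hδ1, hδ2⟩ := greedy R w hw k univ (by rw [Finset.card_univ, hk])
  refine ⟨T, hT2, by rw [hT3, hk], ?_⟩
  rw [hδ2]
  set W : ℝ := ∑ i, w i with hW
  have hW0 : 0 ≤ W := Finset.sum_nonneg fun i _ => hw i
  -- all gaps are at most `W`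
  have hdW : ∀ e : V × V, dw R w e ≤ W := fun e =>
    Finset.sum_le_sum_of_subset_of_nonneg (Finset.subset_univ _) fun i _ _ => hw i
  have hδW : ∀ N, 2 ≤ N → N ≤ k + 1 → δ N ≤ W := by
    intro N h1 h2
    obtain ⟨_, P', hP', hsep⟩ := hδ1 N h1 h2
    obtain ⟨a, ha, b, hb, hab⟩ := Finset.one_lt_card.1 (show 1 < P'.card by omega)
    exact (hsep a ha b hb hab).trans (hdW _)
  -- the first two gaps
  have hsplit : ∑ N ∈ Finset.Icc 2 (k + 1), δ N ≤ 2 * W + ∑ N ∈ Finset.Icc 4 (k + 1), δ N := by
    have h1 : Finset.Icc 2 (k + 1) = (Finset.Icc 2 (k + 1)).filter (fun N => N < 4) ∪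
        Finset.Icc 4 (k + 1) := by
      ext N
      rw [Finset.mem_union, Finset.mem_filter, Finset.mem_Icc, Finset.mem_Icc]
      omega
    rw [h1, Finset.sum_union (Finset.disjoint_left.2 (by
      intro N hN hN'
      rw [Finset.mem_filter] at hN
      rw [Finset.mem_Icc] at hN'
      omega))]
    refine add_le_add ?_ le_rfl
    calc ∑ N ∈ (Finset.Icc 2 (k + 1)).filter (fun N => N < 4), δ N
        ≤ ∑ N ∈ (Finset.Icc 2 (k + 1)).filter (fun N => N < 4), W := by
          refine Finset.sum_le_sum fun N hN => ?_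
          rw [Finset.mem_filter, Finset.mem_Icc] at hN
          exact hδW N hN.1.1 hN.1.2
      _ ≤ 2 * W := by
          rw [Finset.sum_const, nsmul_eq_mul]
          refine mul_le_mul_of_nonneg_right ?_ hW0
          have h2 : ((Finset.Icc 2 (k + 1)).filter (fun N => N < 4)).card ≤ ({2, 3} : Finset ℕ).card := by
            refine Finset.card_le_card fun N hN => ?_
            rw [Finset.mem_filter, Finset.mem_Icc] at hN
            rw [Finset.mem_insert, Finset.mem_singleton]
            omega
          have h3 : ({2, 3} : Finset ℕ).card = 2 := rfl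
          rw [h3] at h2
          exact_mod_cast h2
  refine hsplit.trans ?_
  -- number of levels
  obtain ⟨A, hA⟩ : ∃ A : ℕ, ((k : ℝ) + 1) ≤ 2 ^ A := by
    obtain ⟨A, hA⟩ := pow_unbounded_of_one_lt ((k : ℝ) + 1) (by norm_num : (1 : ℝ) < 2)
    exact ⟨A, hA.le⟩
  have hcount : ∀ s : ℝ, 0 < s →
      (((Finset.Icc 4 (k + 1)).filter (fun N => s < δ N)).card : ℝ) ≤
        4 * L * ∑ i, sp t d s (w i) := by
    intro s hs
    have hnn : 0 ≤ ∑ i, sp t d s (w i) := Finset.sum_nonneg fun i _ => sp_nonneg t d s _ hs (hw i)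
    rcases Finset.eq_empty_or_nonempty ((Finset.Icc 4 (k + 1)).filter (fun N => s < δ N)) with
      he | hne
    · rw [he]
      simp only [Finset.card_empty, Nat.cast_zero]
      positivity
    · set M := ((Finset.Icc 4 (k + 1)).filter (fun N => s < δ N)).max' hne with hM
      have hMm := Finset.max'_mem _ hne
      rw [← hM, Finset.mem_filter, Finset.mem_Icc] at hMm
      obtain ⟨⟨hM1, hM2⟩, hM3⟩ := hMm
      have hc : ((Finset.Icc 4 (k + 1)).filter (fun N => s < δ N)).card ≤ M - 3 := by
        have h1 : (Finset.Icc 4 (k + 1)).filter (fun N => s < δ N) ⊆ Finset.Icc 4 M := by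
          intro N hN
          have h2 := Finset.le_max' _ N hN
          rw [Finset.mem_filter, Finset.mem_Icc] at hN
          rw [Finset.mem_Icc]
          exact ⟨hN.1.1, h2⟩
        have h2 := Finset.card_le_card h1
        rw [Nat.card_Icc] at h2
        omega
      obtain ⟨_, P', hP', hsep⟩ := hδ1 M (by omega) hM2
      have h3 := pack_scale R w hw t d ht hd1 hR hd L hL P' s hs (fun x hx y hy hxy =>
        hM3.le.trans (hsep x hx y hy hxy))
      rw [hP'] at h3
      have h4 : (((Finset.Icc 4 (k + 1)).filter (fun N => s < δ N)).card : ℝ) ≤ (M : ℝ) - 3 := by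
        have h5 : (((Finset.Icc 4 (k + 1)).filter (fun N => s < δ N)).card : ℝ) ≤
            ((M - 3 : ℕ) : ℝ) := by exact_mod_cast hc
        rw [Nat.cast_sub (by omega)] at h5
        push_cast at h5
        exact h5
      have h5 : 0 ≤ 2 * L * ∑ i, sp t d s (w i) := by positivity
      linarith
  rcases eq_or_lt_of_le hW0 with hWz | hWpos
  · -- all weights vanish
    have h1 : ∑ N ∈ Finset.Icc 4 (k + 1), δ N ≤ 0 := by
      refine Finset.sum_nonpos fun N hN => ?_
      rw [Finset.mem_Icc] at hN
      have := hδW N (by omega) hN.2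
      rw [← hWz] at this
      exact this
    rw [← hWz]
    linarith
  -- dyadic decomposition
  have hdy : ∑ N ∈ Finset.Icc 4 (k + 1), δ N ≤ W +
      ∑ a ∈ range A, ((W / 2) / 2 ^ a) *
        (((Finset.Icc 4 (k + 1)).filter (fun N => (W / 2) / 2 ^ a < δ N)).card : ℝ) := by
    calc ∑ N ∈ Finset.Icc 4 (k + 1), δ N
        ≤ ∑ N ∈ Finset.Icc 4 (k + 1), (W / 2 ^ A +
          ∑ a ∈ range A, if (W / 2) / 2 ^ a < δ N then (W / 2) / 2 ^ a else 0) := by
          refine Finset.sum_le_sum fun N hN => ?_
          rw [Finset.mem_Icc] at hN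
          exact le_dyadic A W (δ N) hW0 (hδW N (by omega) hN.2)
      _ = ((Finset.Icc 4 (k + 1)).card : ℝ) * (W / 2 ^ A) +
          ∑ a ∈ range A, ((W / 2) / 2 ^ a) *
          (((Finset.Icc 4 (k + 1)).filter (fun N => (W / 2) / 2 ^ a < δ N)).card : ℝ) := by
          rw [Finset.sum_add_distrib, Finset.sum_const, nsmul_eq_mul, Finset.sum_comm]
          congr 1
          refine Finset.sum_congr rfl fun a _ => ?_
          rw [← Finset.sum_filter, Finset.sum_const, nsmul_eq_mul, mul_comm]
      _ ≤ _ := by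
          refine add_le_add ?_ le_rfl
          have h1 : ((Finset.Icc 4 (k + 1)).card : ℝ) ≤ 2 ^ A := by
            rw [Nat.card_Icc]
            refine le_trans ?_ hA
            have : k + 1 + 1 - 4 ≤ k + 1 := by omega
            exact_mod_cast this
          calc ((Finset.Icc 4 (k + 1)).card : ℝ) * (W / 2 ^ A) ≤ 2 ^ A * (W / 2 ^ A) :=
                mul_le_mul_of_nonneg_right h1 (by positivity)
            _ = W := by field_simp
  have hlevel : ∑ a ∈ range A, ((W / 2) / 2 ^ a) *
      (((Finset.Icc 4 (k + 1)).filter (fun N => (W / 2) / 2 ^ a < δ N)).card : ℝ) ≤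
      4 * L * ∑ i, ∑ a ∈ range A, ((W / 2) / 2 ^ a) * sp t d ((W / 2) / 2 ^ a) (w i) := by
    calc _ ≤ ∑ a ∈ range A, ((W / 2) / 2 ^ a) * (4 * L * ∑ i, sp t d ((W / 2) / 2 ^ a) (w i)) :=
          Finset.sum_le_sum fun a _ => mul_le_mul_of_nonneg_left
            (hcount _ (by positivity)) (by positivity)
      _ = _ := by
          rw [Finset.sum_comm, Finset.mul_sum]
          refine Finset.sum_congr rfl fun a _ => ?_
          rw [← Finset.mul_sum]
          ring
  have hpoint : ∀ i, ∑ a ∈ range A, ((W / 2) / 2 ^ a) * sp t d ((W / 2) / 2 ^ a) (w i) ≤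
      8 * d * w i * (Nat.log 2 t + 2) := by
    intro i
    refine le_trans (Finset.sum_le_sum fun a _ => ?_)
      (sum_min_ind (8 * d * w i) (by have := hw i; positivity) (Nat.log 2 t) A (W / 2)
        (by positivity))
    have hs : 0 < (W / 2) / 2 ^ a := by positivity
    unfold sp
    by_cases h1 : (W / 2) / 2 ^ a ≤ 4 * t * w i
    · rw [if_pos h1]
      have h2 : (W / 2) / 2 ^ a ≤ 2 ^ (Nat.log 2 t) * (8 * d * w i) := by
        refine h1.trans ?_
        have h3 : (t : ℝ) ≤ 2 * 2 ^ (Nat.log 2 t) := by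
          have h4 := Nat.lt_pow_succ_log_self (b := 2) (by norm_num) t
          rw [pow_succ] at h4
          have h5 : (t : ℝ) < ((2 ^ Nat.log 2 t * 2 : ℕ) : ℝ) := by exact_mod_cast h4
          push_cast at h5
          linarith
        have h6 : (0 : ℝ) < 2 ^ (Nat.log 2 t) := by positivity
        calc 4 * t * w i ≤ 4 * (2 * 2 ^ (Nat.log 2 t)) * w i := by
              have := hw i
              gcongr
          _ = 2 ^ (Nat.log 2 t) * (8 * 1 * w i) := by ring
          _ ≤ 2 ^ (Nat.log 2 t) * (8 * d * w i) := by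
              have := hw i
              gcongr
      rw [if_pos h2]
      rw [mul_min_of_nonneg _ _ hs.le, mul_one]
      refine le_of_eq ?_
      congr 1
      field_simp
    · rw [if_neg h1, mul_zero]
      split_ifs
      · exact le_min hs.le (by have := hw i; positivity)
      · exact le_rfl
  calc 2 * W + ∑ N ∈ Finset.Icc 4 (k + 1), δ N
      ≤ 2 * W + (W + 4 * L * ∑ i, 8 * d * w i * (Nat.log 2 t + 2)) := by
        have h1 := Finset.sum_le_sum (s := (univ : Finset I)) fun i _ => hpoint i
        have h2 : 4 * L * ∑ i, ∑ a ∈ range A, ((W / 2) / 2 ^ a) * sp t d ((W / 2) / 2 ^ a) (w i) ≤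
            4 * L * ∑ i, 8 * d * w i * (Nat.log 2 t + 2) :=
          mul_le_mul_of_nonneg_left h1 (by positivity)
        linarith
    _ = (3 + 32 * L * d * (Nat.log 2 t + 2)) * W := by
        rw [hW, ← Finset.sum_mul, ← Finset.mul_sum]
        ring

end cost

end Pool.Agent.K4H87.BF
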